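import Mathlib
import Pool.Agent.N839.T3.ScI

/-!
# Laplace's method on a product of copies of a compact matrix group

The functions `f i` on `G ^ E` converge in the scaled exponential coordinates and are dominated by
Gaussians; the integrals over `G ^ E`, divided by the power of the one-variable normalisation
`nz μ h`, converge to the normalised Lebesgue integral of the limit.
-/

open MeasureTheory Filter Matrix Pool.Agent.N991.MK Pool.Agent.N989.MK
open scoped Matrix.Norms.Frobenius Topology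
open Pool.Agent.H906R3.YM Pool.Agent.W793.YM Pool.Agent.TH618.YM Pool.Agent.N984.TW
open Pool.Agent.N109.T3 (nz gs cvR)
open Pool.Agent.N839.T3

namespace Pool.Agent.Run7.h871.LG

set_option linter.unusedSectionVars false

noncomputable section

variable {N n : ℕ} {G : Subgroup (UN N)} (B : Frame G n) (hG : IsClosed (G : Set (UN N)))
  {E : Type*} [Fintype E]

/-- the scaled chart of the product -/
def emE (h : ℝ) (x : E → Fin n → ℝ) : E → G := fun e => em B hG h (x e)

/-- the square of the distance to the identity -/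
def qN (z : E → G) : ℝ := ∑ e, nN (z e) ^ 2

/-- the square of the Euclidean norm -/
def qE (x : E → Fin n → ℝ) : ℝ := ∑ e, nE (x e) ^ 2

/-- the functions `f i` converge to `F` in the scaled coordinates, locally uniformly, and they are
dominated by Gaussians -/
structure SDE {ι : Type*} (l : Filter ι) (h : ι → ℝ) (f : ι → (E → G) → ℝ)
    (F : (E → Fin n → ℝ) → ℝ) : Prop where
  top : Tendsto h l atTop
  cont : ∀ i, Continuous (f i)
  lim : ∀ x, Tendsto (fun p : ι × (E → Fin n → ℝ) => f p.1 (emE B hG (h p.1) p.2)) (l ×ˢ 𝓝 x)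
    (𝓝 (F x))
  dom : ∃ C c : ℝ, 0 ≤ C ∧ 0 < c ∧ ∀ᶠ i in l, ∀ z : E → G,
    |f i z| ≤ C * Real.exp (-(c * (h i * qN z)))

variable {B hG} {ι : Type*} {l : Filter ι} {h : ι → ℝ} {f : ι → (E → G) → ℝ}
  {F : (E → Fin n → ℝ) → ℝ}

lemma qN_nonneg (z : E → G) : 0 ≤ qN z := Finset.sum_nonneg fun _ _ => sq_nonneg _

lemma qE_nonneg (x : E → Fin n → ℝ) : 0 ≤ qE x := Finset.sum_nonneg fun _ _ => sq_nonneg _

lemma qE_cont : Continuous (qE : (E → Fin n → ℝ) → ℝ) := by
  unfold qE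
  exact continuous_finsetSum _ fun e _ => ((nE_cont.comp (continuous_apply e)).pow 2)

lemma qN_cont : Continuous (qN : (E → G) → ℝ) := by
  unfold qN
  exact continuous_finsetSum _ fun e _ => ((nN_cont.comp (continuous_apply e)).pow 2)

lemma qE_smul (c : ℝ) (x : E → Fin n → ℝ) : qE (c • x) = c ^ 2 * qE x := by
  unfold qE
  rw [Finset.mul_sum]
  refine Finset.sum_congr rfl fun e _ => ?_
  rw [Pi.smul_apply, nE_smul, mul_pow, sq_abs]

lemma nE_le_of_qE {x : E → Fin n → ℝ} {R : ℝ} (hR : 0 ≤ R) (hx : qE x ≤ R ^ 2) (e : E) :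
    nE (x e) ≤ R := by
  have h1 : nE (x e) ^ 2 ≤ qE x :=
    Finset.single_le_sum (f := fun e => nE (x e) ^ 2) (fun _ _ => sq_nonneg _) (Finset.mem_univ e)
  exact (abs_le_of_sq_le_sq' (h1.trans hx) hR).2

lemma isCompact_qE (R : ℝ) : IsCompact {x : E → Fin n → ℝ | qE x ≤ R} := by
  refine Metric.isCompact_of_isClosed_isBounded (isClosed_le qE_cont continuous_const) ?_
  refine (Metric.isBounded_closedBall (x := (0 : E → Fin n → ℝ)) (r := Real.sqrt R)).subset
    fun x hx => ?_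
  rw [mem_closedBall_zero_iff]
  have hR : 0 ≤ R := (qE_nonneg x).trans hx
  refine (pi_norm_le_iff_of_nonneg (Real.sqrt_nonneg _)).2 fun e => ?_
  refine (norm_le_nE (x e)).trans (nE_le_of_qE (Real.sqrt_nonneg _) ?_ e)
  rw [Real.sq_sqrt hR]
  exact hx

/-! ### Gaussian integrals -/

lemma exp_qE_int {c : ℝ} (hc : 0 < c) :
    Integrable fun a : E → Fin n → ℝ => Real.exp (-(c * qE a)) := by
  have h1 : Integrable (fun a : E → Fin n → ℝ => ∏ e, Real.exp (-(c * nE (a e) ^ 2))) := by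
    rw [volume_pi]
    exact Integrable.fintype_prod (f := fun _ (t : Fin n → ℝ) => Real.exp (-(c * nE t ^ 2)))
      fun _ => exp_nE_int hc
  refine h1.congr (Eventually.of_forall fun a => ?_)
  beta_reduce
  rw [← Real.exp_sum, Finset.sum_neg_distrib, ← Finset.mul_sum]
  rfl

/-! ### Size of the scaled points -/

lemma qN_em_le {h : ℝ} (hh : 0 < h) (x : E → Fin n → ℝ) : h * qN (emE B hG h x) ≤ qE x := by
  unfold qN qE
  rw [Finset.mul_sum]
  exact Finset.sum_le_sum fun e _ => nN_em_le hh _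

lemma qN_em_ge {h : ℝ} (hh : 0 < h) {x : E → Fin n → ℝ} (hx : ∀ e, nE (x e) ≤ Real.sqrt h / 2) :
    qE x / 4 ≤ h * qN (emE B hG h x) := by
  unfold qN qE
  rw [Finset.mul_sum, Finset.sum_div]
  exact Finset.sum_le_sum fun e _ => nN_em_ge hh (hx e)

lemma sq_le_of_add {e u v t : ℝ} (ht : 0 < t) (he : 0 ≤ e) (h1 : e ≤ u + v) :
    e ^ 2 ≤ (1 + t) * (u ^ 2 + v ^ 2 / t) := by
  have h3 : e ^ 2 ≤ (u + v) ^ 2 := pow_le_pow_left₀ he h1 2
  refine h3.trans ?_
  have h5 : 2 * (u * v) ≤ t * u ^ 2 + v ^ 2 / t := by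
    have h6 := sq_nonneg (t * u - v)
    have h7 : 0 ≤ (t * u - v) ^ 2 / t := div_nonneg h6 ht.le
    have e7 : (t * u - v) ^ 2 / t = t * u ^ 2 + v ^ 2 / t - 2 * (u * v) := by
      field_simp
      ring
    linarith
  have e8 : (1 + t) * (u ^ 2 + v ^ 2 / t) = u ^ 2 + v ^ 2 + (t * u ^ 2 + v ^ 2 / t) := by
    field_simp
    ring
  rw [e8]
  nlinarith

/-- the elementary estimate of the sizes -/
lemma size_leE {h t : ℝ} (ht : 0 < t) (hh : 0 < h) {a : E → Fin n → ℝ}
    (ha : ∀ e, nE (a e) ≤ Real.sqrt h / 2) {u v : E → G}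
    (h1 : ∀ e, nN (em B hG h (a e)) ≤ nN (u e) + nN (v e)) :
    qE a / (4 * (1 + t)) - h * qN v / t ≤ h * qN u := by
  have h2 := qN_em_ge (B := B) (hG := hG) hh ha
  have h3 : qN (emE B hG h a) ≤ (1 + t) * (qN u + qN v / t) := by
    unfold qN emE
    calc ∑ e, nN (em B hG h (a e)) ^ 2 ≤ ∑ e, (1 + t) * (nN (u e) ^ 2 + nN (v e) ^ 2 / t) :=
          Finset.sum_le_sum fun e _ => sq_le_of_add ht (nN_nonneg _) (h1 e)
      _ = _ := by rw [← Finset.mul_sum, Finset.sum_add_distrib, Finset.sum_div]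
  have h5 : qE a / 4 ≤ h * ((1 + t) * (qN u + qN v / t)) :=
    h2.trans (mul_le_mul_of_nonneg_left h3 hh.le)
  have h6 : qE a / (4 * (1 + t)) ≤ h * (qN u + qN v / t) := by
    rw [div_le_iff₀ (by positivity)]
    nlinarith
  have e9 : h * (qN u + qN v / t) = h * qN u + h * qN v / t := by ring
  linarith

/-! ### Limits in the scaled coordinates -/

variable {κ : Type*} {L : Filter κ} {H : κ → ℝ} {X Y : κ → E → Fin n → ℝ}
  {x0 y0 w0 : E → Fin n → ℝ}

/-- the quotient of two scaled points -/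
lemma emE_quot (hH : Tendsto H L atTop) (hX : Tendsto X L (𝓝 x0)) (hY : Tendsto Y L (𝓝 y0)) :
    ∃ W : κ → E → Fin n → ℝ, Tendsto W L (𝓝 (y0 - x0)) ∧
      ∀ᶠ k in L, emE B hG (H k) (W k) = (emE B hG (H k) (X k))⁻¹ * emE B hG (H k) (Y k) := by
  have h1 : ∀ e, ∃ W : κ → Fin n → ℝ, Tendsto W L (𝓝 (y0 e - x0 e)) ∧
      ∀ᶠ k in L, em B hG (H k) (W k) = (em B hG (H k) (X k e))⁻¹ * em B hG (H k) (Y k e) :=
    fun e => em_quot hH ((continuous_apply e).continuousAt.tendsto.comp hX)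
      ((continuous_apply e).continuousAt.tendsto.comp hY)
  choose W h2 h3 using h1
  refine ⟨fun k e => W e k, tendsto_pi_nhds.2 fun e => h2 e, ?_⟩
  filter_upwards [eventually_all.2 h3] with k hk
  funext e
  exact hk e

/-- the quotient of two scaled points, on the other side -/
lemma emE_quot' (hH : Tendsto H L atTop) (hX : Tendsto X L (𝓝 x0)) (hY : Tendsto Y L (𝓝 y0)) :
    ∃ W : κ → E → Fin n → ℝ, Tendsto W L (𝓝 (y0 - x0)) ∧
      ∀ᶠ k in L, emE B hG (H k) (W k) = emE B hG (H k) (Y k) * (emE B hG (H k) (X k))⁻¹ := by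
  have h1 : ∀ e, ∃ W : κ → Fin n → ℝ, Tendsto W L (𝓝 (y0 e - x0 e)) ∧
      ∀ᶠ k in L, em B hG (H k) (W k) = em B hG (H k) (Y k e) * (em B hG (H k) (X k e))⁻¹ :=
    fun e => em_quot' hH ((continuous_apply e).continuousAt.tendsto.comp hX)
      ((continuous_apply e).continuousAt.tendsto.comp hY)
  choose W h2 h3 using h1
  refine ⟨fun k e => W e k, tendsto_pi_nhds.2 fun e => h2 e, ?_⟩
  filter_upwards [eventually_all.2 h3] with k hk
  funext e
  exact hk e

/-- the size in the scaled coordinates -/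
lemma emE_size (hH : Tendsto H L atTop) (hX : Tendsto X L (𝓝 x0)) :
    Tendsto (fun k => H k * qN (emE B hG (H k) (X k))) L (𝓝 (qE x0)) := by
  have h1 : Tendsto (fun k => ∑ e, H k * nN (em B hG (H k) (X k e)) ^ 2) L
      (𝓝 (∑ e, nE (x0 e) ^ 2)) :=
    tendsto_finsetSum _ fun e _ => em_size hH ((continuous_apply e).continuousAt.tendsto.comp hX)
  refine h1.congr fun k => ?_
  rw [← Finset.mul_sum]
  rfl

lemma SDE.app (H' : SDE B hG l h f F) {i : κ → ι}
    {W : κ → E → Fin n → ℝ} {w0 : E → Fin n → ℝ} (hi : Tendsto i L l) (hW : Tendsto W L (𝓝 w0)) :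
    Tendsto (fun k => f (i k) (emE B hG (h (i k)) (W k))) L (𝓝 (F w0)) :=
  (H'.lim w0).comp (hi.prodMk hW)

/-- the convergence in the scaled coordinates is uniform on the balls of the scaled radius -/
lemma unif_smallE {k : ι → (E → G) → ℝ} (hh : Tendsto h l atTop)
    (hk : ∀ x, Tendsto (fun p : ι × (E → Fin n → ℝ) => k p.1 (emE B hG (h p.1) p.2)) (l ×ˢ 𝓝 x)
      (𝓝 0)) {R η : ℝ} (hη : 0 < η) :
    ∀ᶠ i in l, ∀ z : E → G, h i * qN z ≤ R → |k i z| ≤ η := by
  rcases lt_or_ge R 0 with hRn | hR0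
  · filter_upwards [hh.eventually_gt_atTop 0] with i h0 z hz
    exact absurd hz (not_le.2 (hRn.trans_le (mul_nonneg h0.le (qN_nonneg z))))
  obtain ⟨r, C, hr, hC, hL1, -, -⟩ := s_L1 B hG
  have hK := isCompact_qE (n := n) (E := E) ((1 + C) ^ 2 * R)
  have hs : {p : ι × (E → Fin n → ℝ) | |k p.1 (emE B hG (h p.1) p.2)| ≤ η} ∈
      l ×ˢ (nhdsSet {x : E → Fin n → ℝ | qE x ≤ (1 + C) ^ 2 * R}) := by
    refine hK.mem_prod_nhdsSet_of_forall fun x _ => ?_
    have h1 := (hk x).abs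
    rw [abs_zero] at h1
    exact h1.eventually (ge_mem_nhds hη)
  obtain ⟨t1, ht1, t2, ht2, hsub⟩ := mem_prod_iff.1 hs
  have hK2 := subset_of_mem_nhdsSet ht2
  filter_upwards [ht1, hh.eventually_gt_atTop 0,
    hh.eventually_ge_atTop (R / (min r 1) ^ 2)] with i hi h0 h1 z hz
  have hm : 0 < min r 1 := lt_min hr one_pos
  have hR : R ≤ h i * (min r 1) ^ 2 := by
    rwa [div_le_iff₀ (by positivity)] at h1
  have hz1 : ∀ e, nN (z e) ≤ min r 1 := by
    intro e
    have h2 : nN (z e) ^ 2 ≤ qN z :=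
      Finset.single_le_sum (f := fun e => nN (z e) ^ 2) (fun _ _ => sq_nonneg _)
        (Finset.mem_univ e)
    have h3 : h i * nN (z e) ^ 2 ≤ h i * (min r 1) ^ 2 :=
      (mul_le_mul_of_nonneg_left h2 h0.le).trans (hz.trans hR)
    exact (abs_le_of_sq_le_sq' (le_of_mul_le_mul_left h3 h0) hm.le).2
  have hex : ∀ e, ∃ y : Fin n → ℝ, Eg B hG y = z e ∧ nE y ≤ (1 + C) * nN (z e) := by
    intro e
    obtain ⟨y, e1, e2⟩ := hL1 (z e) ((hz1 e).trans (min_le_left _ _))
    refine ⟨y, e1, e2.trans (mul_le_mul_of_nonneg_right ?_ (nN_nonneg (z e)))⟩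
    have h4 : nN (z e) ≤ 1 := (hz1 e).trans (min_le_right _ _)
    have := mul_le_mul_of_nonneg_left h4 hC
    change 1 + C * nN (z e) ≤ 1 + C
    linarith
  choose y e1 e2 using hex
  have hsq := Real.sqrt_pos.2 h0
  have e3 : emE B hG (h i) (Real.sqrt (h i) • y) = z := by
    funext e
    rw [← e1 e]
    unfold emE Pool.Agent.N839.T3.em
    rw [Pi.smul_apply, smul_smul, inv_mul_cancel₀ hsq.ne', one_smul]
  have e4 : qE (Real.sqrt (h i) • y) ≤ (1 + C) ^ 2 * R := by
    rw [qE_smul, Real.sq_sqrt h0.le]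
    have e5 : qE y ≤ (1 + C) ^ 2 * qN z := by
      unfold qE qN
      rw [Finset.mul_sum]
      refine Finset.sum_le_sum fun e _ => ?_
      rw [← mul_pow]
      exact pow_le_pow_left₀ (nE_nonneg _) (e2 e) 2
    calc h i * qE y ≤ h i * ((1 + C) ^ 2 * qN z) := mul_le_mul_of_nonneg_left e5 h0.le
      _ = (1 + C) ^ 2 * (h i * qN z) := by ring
      _ ≤ _ := mul_le_mul_of_nonneg_left hz (by positivity)
  have h5 := hsub (Set.mk_mem_prod hi (hK2 e4))
  have h6 : |k i (emE B hG (h i) (Real.sqrt (h i) • y))| ≤ η := h5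
  rwa [e3] at h6

section meas

variable [MeasurableSpace G] [BorelSpace G] {μ : Measure G} [IsProbabilityMeasure μ]
  [μ.IsMulLeftInvariant]

lemma cont_gaussE (a : ℝ) : Continuous fun z : E → G => Real.exp (-(a * qN z)) := by
  have := qN_cont (G := G) (E := E)
  fun_prop

/-- the product measure -/
abbrev μE (μ : Measure G) (E : Type*) [Fintype E] : Measure (E → G) := Measure.pi fun _ => μ

variable [CompactSpace G] [SecondCountableTopology G]

lemma int_contE {u : (E → G) → ℝ} (hu : Continuous u) : Integrable u (μE μ E) :=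
  hu.integrable_of_hasCompactSupport (HasCompactSupport.of_compactSpace _)

lemma int_gaussE (a : ℝ) : ∫ z : E → G, Real.exp (-(a * qN z)) ∂(μE μ E) =
    (∫ z : G, Real.exp (-(a * nN z ^ 2)) ∂μ) ^ Fintype.card E := by
  rw [← integral_fintype_prod_eq_pow (fun z : G => Real.exp (-(a * nN z ^ 2)))]
  refine integral_congr_ae (Eventually.of_forall fun z => ?_)
  beta_reduce
  rw [← Real.exp_sum, Finset.sum_neg_distrib, ← Finset.mul_sum]
  rfl

lemma gauss_nzE {c : ℝ} (hc : 0 < c) : ∃ C1 : ℝ, 0 < C1 ∧ ∀ h : ℝ, 0 < h →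
    ∫ z : E → G, Real.exp (-(c * (h * qN z))) ∂(μE μ E) ≤ C1 * nz μ h ^ Fintype.card E := by
  obtain ⟨C1, hC1, h1⟩ := gauss_nz (μ := μ) hc
  refine ⟨C1 ^ Fintype.card E, by positivity, fun h hh => ?_⟩
  have e : ∀ z : E → G, Real.exp (-(c * (h * qN z))) = Real.exp (-((c * h) * qN z)) := fun z => by
    congr 1; ring
  simp only [e]
  rw [int_gaussE, ← mul_pow]
  refine pow_le_pow_left₀ (integral_nonneg fun z => (Real.exp_pos _).le) ?_ _
  refine le_trans (le_of_eq ?_) (h1 h hh)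
  refine integral_congr_ae (Eventually.of_forall fun z => ?_)
  beta_reduce
  congr 1
  ring

/-- **a dominated sequence with the scaled limit zero** -/
lemma smallE {k : ι → (E → G) → ℝ} (hh : Tendsto h l atTop) (hc : ∀ i, Continuous (k i))
    (hk : ∀ x, Tendsto (fun p : ι × (E → Fin n → ℝ) => k p.1 (emE B hG (h p.1) p.2)) (l ×ˢ 𝓝 x)
      (𝓝 0))
    (hd : ∃ C c : ℝ, 0 ≤ C ∧ 0 < c ∧ ∀ᶠ i in l, ∀ z : E → G,
      |k i z| ≤ C * Real.exp (-(c * (h i * qN z)))) :
    Tendsto (fun i => (∫ z, k i z ∂(μE μ E)) / nz μ (h i) ^ Fintype.card E) l (𝓝 0) := by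
  obtain ⟨C, c, hC, hc0, hd⟩ := hd
  obtain ⟨C1, hC1, hg⟩ := gauss_nzE (μ := μ) (E := E) (c := c / 2) (by positivity)
  rw [Metric.tendsto_nhds]
  intro ε hε
  obtain ⟨R, hR⟩ : ∃ R : ℝ, C * Real.exp (-(c / 2 * R)) * C1 ≤ ε / 4 := by
    have h1 : Tendsto (fun R : ℝ => C * Real.exp (-(c / 2 * R)) * C1) atTop (𝓝 (C * 0 * C1)) := by
      refine Tendsto.mul_const _ (Tendsto.const_mul _ ?_)
      exact Real.tendsto_exp_neg_atTop_nhds_zero.comp
        (tendsto_id.const_mul_atTop (by positivity))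
    rw [mul_zero, zero_mul] at h1
    exact (h1.eventually (ge_mem_nhds (by positivity))).exists
  have hη : 0 < ε / 4 * Real.exp (-(R / 2)) := by positivity
  filter_upwards [hd, hh.eventually_gt_atTop 0, unif_smallE hh hk (R := R) hη] with i hi h0 hu
  have hnz1 := nz_pos (μ := μ) (h i)
  obtain ⟨Z, hZ⟩ : ∃ Z, Z = nz μ (h i) ^ Fintype.card E := ⟨_, rfl⟩
  have hnz : 0 < Z := by rw [hZ]; positivity
  have hpt : ∀ z : E → G, |k i z| ≤ ε / 4 * Real.exp (-(h i / 2 * qN z)) +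
      C * Real.exp (-(c / 2 * R)) * Real.exp (-(c / 2 * (h i * qN z))) := by
    intro z
    rcases le_total (h i * qN z) R with hz | hz
    · have h1 := hu z hz
      have h2 : Real.exp (-(R / 2)) ≤ Real.exp (-(h i / 2 * qN z)) :=
        Real.exp_le_exp.2 (by linarith)
      have h3 : ε / 4 * Real.exp (-(R / 2)) ≤ ε / 4 * Real.exp (-(h i / 2 * qN z)) :=
        mul_le_mul_of_nonneg_left h2 (by positivity)
      have h4 : 0 ≤ C * Real.exp (-(c / 2 * R)) * Real.exp (-(c / 2 * (h i * qN z))) := by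
        positivity
      linarith
    · have h1 := hi z
      have h2 : Real.exp (-(c * (h i * qN z))) ≤
          Real.exp (-(c / 2 * R)) * Real.exp (-(c / 2 * (h i * qN z))) := by
        rw [← Real.exp_add]
        refine Real.exp_le_exp.2 ?_
        have := mul_le_mul_of_nonneg_left hz (by positivity : 0 ≤ c / 2)
        linarith
      have h3 := mul_le_mul_of_nonneg_left h2 hC
      have h4 : 0 ≤ ε / 4 * Real.exp (-(h i / 2 * qN z)) := by positivity
      rw [mul_assoc]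
      linarith
  have i1 : Integrable (fun z : E → G => ε / 4 * Real.exp (-(h i / 2 * qN z))) (μE μ E) :=
    int_contE (continuous_const.mul (cont_gaussE _))
  have c2 : Continuous fun z : E → G => Real.exp (-(c / 2 * (h i * qN z))) := by
    have := qN_cont (G := G) (E := E)
    fun_prop
  have i2 : Integrable (fun z : E → G => C * Real.exp (-(c / 2 * R)) *
      Real.exp (-(c / 2 * (h i * qN z)))) (μE μ E) := int_contE (continuous_const.mul c2)
  have e1 : ∫ z : E → G, Real.exp (-(h i / 2 * qN z)) ∂(μE μ E) = Z := by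
    rw [int_gaussE, hZ]
    rfl
  have hgi := hg (h i) h0
  rw [← hZ] at hgi
  rw [dist_zero_right, Real.norm_eq_abs, ← hZ, abs_div, abs_of_pos hnz, div_lt_iff₀ hnz]
  calc |∫ z, k i z ∂(μE μ E)| ≤ ∫ z, |k i z| ∂(μE μ E) := abs_integral_le_integral_abs
    _ ≤ ∫ z, (ε / 4 * Real.exp (-(h i / 2 * qN z)) +
        C * Real.exp (-(c / 2 * R)) * Real.exp (-(c / 2 * (h i * qN z)))) ∂(μE μ E) :=
        integral_mono (int_contE (hc i)).abs (i1.add i2) hpt
    _ = ε / 4 * Z + C * Real.exp (-(c / 2 * R)) *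
        ∫ z : E → G, Real.exp (-(c / 2 * (h i * qN z))) ∂(μE μ E) := by
        rw [integral_add i1 i2, integral_const_mul, integral_const_mul, e1]
    _ ≤ ε / 4 * Z + C * Real.exp (-(c / 2 * R)) * (C1 * Z) := by
        gcongr
    _ = ε / 4 * Z + C * Real.exp (-(c / 2 * R)) * C1 * Z := by ring
    _ ≤ ε / 4 * Z + ε / 4 * Z := by gcongr
    _ < ε * Z := by nlinarith

end meas

end

end Pool.Agent.Run7.h871.LG
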