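import Mathlib
import Pool.Agent.Run7.h871.YM.Lap

/-!
# Laplace's method on a product of copies of a compact matrix group: the limit
-/

open MeasureTheory Filter Matrix Pool.Agent.N991.MK Pool.Agent.N989.MK
open scoped Matrix.Norms.Frobenius Topology
open Pool.Agent.H906R3.YM Pool.Agent.W793.YM Pool.Agent.TH618.YM Pool.Agent.N984.TW
open Pool.Agent.N109.T3 (nz gs cvR)
open Pool.Agent.N839.T3

namespace Pool.Agent.Run7.h871.LG

set_option linter.unusedSectionVars false

noncomputable section

variable {N n : ℕ} {G : Subgroup (UN N)} {B : Frame G n} {hG : IsClosed (G : Set (UN N))}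
  {E : Type*} [Fintype E]
  {ι : Type*} {l : Filter ι} {h : ι → ℝ} {f : ι → (E → G) → ℝ}
  {F : (E → Fin n → ℝ) → ℝ}

/-- the Gaussian on the product -/
def gE (x : E → Fin n → ℝ) : ℝ := Real.exp (-(qE x / 2))

lemma gE_eq (x : E → Fin n → ℝ) : gE x = ∏ e, gs (x e) := by
  unfold gE qE
  simp only [gs_eq]
  rw [← Real.exp_sum, Finset.sum_neg_distrib, Finset.sum_div]

lemma gE_int : Integrable (gE (n := n) (E := E)) := by
  refine (exp_qE_int (n := n) (E := E) (c := 1 / 2) (by norm_num)).congr
    (Eventually.of_forall fun a => ?_)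
  unfold gE
  beta_reduce
  congr 1
  ring

lemma int_gE : ∫ x, gE (n := n) (E := E) x = (∫ x, gs (n := n) x) ^ Fintype.card E := by
  simp only [gE_eq]
  exact integral_fintype_prod_volume_eq_pow (ι := E) (fun x : Fin n → ℝ => gs x)

lemma gE_int_pos : 0 < ∫ x, gE (n := n) (E := E) x := by
  rw [int_gE]
  exact pow_pos gs_int_pos _

lemma cont_emE (h : ℝ) : Continuous fun a : E → Fin n → ℝ => emE B hG h a :=
  continuous_pi fun e => (cont_em (B := B) (hG := hG) h).comp (continuous_apply e)

/-- the domain of the scaled coordinates -/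
def DmE (n : ℕ) (E : Type*) (h : ℝ) : Set (E → Fin n → ℝ) :=
  {a | ∀ e, nE (a e) ≤ Real.sqrt h / 2}

lemma DmE_comp (h : ℝ) : IsCompact (DmE n E h) := by
  have e : DmE n E h = Set.pi Set.univ fun _ : E => Dm n h := by
    ext a
    simp [DmE, Dm]
  rw [e]
  exact isCompact_univ_pi fun _ => Dm_comp h

lemma DmE_meas (h : ℝ) : MeasurableSet (DmE n E h) := (DmE_comp h).isClosed.measurableSet

section meas

variable [MeasurableSpace G] [BorelSpace G] {μ : Measure G} [IsProbabilityMeasure μ]
  [μ.IsMulLeftInvariant] [μ.IsMulRightInvariant] [μ.IsInvInvariant]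

variable [SecondCountableTopology G]

/-- the substitution -/
lemma substE (e : E → G) (u v : (E → G) → ℝ) :
    ∫ z, u z * v (z⁻¹ * e) ∂(μE μ E) = ∫ z, u (e * z⁻¹) * v z ∂(μE μ E) := by
  have h1 := integral_mul_right_eq_self (μ := μE μ E) (fun z => u (e * z⁻¹) * v z) e
  have h2 := integral_inv_eq_self (μ := μE μ E) (fun z => u (e * (z * e)⁻¹) * v (z * e))
  rw [← h1, ← h2]
  refine integral_congr_ae (Eventually.of_forall fun z => ?_)
  beta_reduce
  have e1 : e * (z⁻¹ * e)⁻¹ = z := by group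
  rw [e1]

/-- **Fubini** -/
lemma fubE [CompactSpace G] {u v : (E → G) → ℝ} (hu : Continuous u)
    (hv : Continuous v) (h : ℝ) :
    ∫ z, u z * (∫ a in DmE n E h, v (z⁻¹ * emE B hG h a)) ∂(μE μ E) =
      ∫ z, v z * (∫ a in DmE n E h, u (emE B hG h a * z⁻¹)) ∂(μE μ E) := by
  have hfin : IsFiniteMeasure (volume.restrict (DmE n E h)) :=
    ⟨by rw [Measure.restrict_apply_univ]; exact (DmE_comp h).measure_lt_top⟩
  obtain ⟨Ku, hKu⟩ : ∃ K : ℝ, ∀ x, ‖u x‖ ≤ K := by
    obtain ⟨K, hK⟩ := isCompact_univ.exists_bound_of_continuousOn hu.continuousOn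
    exact ⟨K, fun x => hK x (Set.mem_univ _)⟩
  obtain ⟨Kv, hKv⟩ : ∃ K : ℝ, ∀ x, ‖v x‖ ≤ K := by
    obtain ⟨K, hK⟩ := isCompact_univ.exists_bound_of_continuousOn hv.continuousOn
    exact ⟨K, fun x => hK x (Set.mem_univ _)⟩
  have hKu0 : 0 ≤ Ku := (norm_nonneg _).trans (hKu 1)
  have ce := cont_emE (B := B) (hG := hG) (E := E) h
  have c1 : Continuous (Function.uncurry fun (z : E → G) (a : E → Fin n → ℝ) =>
      u z * v (z⁻¹ * emE B hG h a)) :=
    (hu.comp continuous_fst).mul (hv.comp ((continuous_inv.comp continuous_fst).mul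
      (ce.comp continuous_snd)))
  have c2 : Continuous (Function.uncurry fun (a : E → Fin n → ℝ) (z : E → G) =>
      u (emE B hG h a * z⁻¹) * v z) :=
    (hu.comp ((ce.comp continuous_fst).mul (continuous_inv.comp continuous_snd))).mul
      (hv.comp continuous_snd)
  have i1 : Integrable (Function.uncurry fun (z : E → G) (a : E → Fin n → ℝ) =>
      u z * v (z⁻¹ * emE B hG h a)) ((μE μ E).prod (volume.restrict (DmE n E h))) := by
    refine Integrable.of_bound c1.aestronglyMeasurable (Ku * Kv) (Eventually.of_forall fun p => ?_)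
    change ‖u p.1 * v _‖ ≤ _
    rw [norm_mul]
    exact mul_le_mul (hKu _) (hKv _) (norm_nonneg _) hKu0
  have i2 : Integrable (Function.uncurry fun (a : E → Fin n → ℝ) (z : E → G) =>
      u (emE B hG h a * z⁻¹) * v z) ((volume.restrict (DmE n E h)).prod (μE μ E)) := by
    refine Integrable.of_bound c2.aestronglyMeasurable (Ku * Kv) (Eventually.of_forall fun p => ?_)
    change ‖u _ * v p.2‖ ≤ _
    rw [norm_mul]
    exact mul_le_mul (hKu _) (hKv _) (norm_nonneg _) hKu0
  calc ∫ z, u z * (∫ a in DmE n E h, v (z⁻¹ * emE B hG h a)) ∂(μE μ E) =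
      ∫ z, (∫ a in DmE n E h, u z * v (z⁻¹ * emE B hG h a)) ∂(μE μ E) := by
        refine integral_congr_ae (Eventually.of_forall fun z => ?_)
        beta_reduce
        rw [integral_const_mul]
    _ = ∫ a in DmE n E h, (∫ z, u z * v (z⁻¹ * emE B hG h a) ∂(μE μ E)) :=
        integral_integral_swap i1
    _ = ∫ a in DmE n E h, (∫ z, u (emE B hG h a * z⁻¹) * v z ∂(μE μ E)) := by
        refine integral_congr_ae (Eventually.of_forall fun a => ?_)
        exact substE _ u v
    _ = ∫ z, (∫ a in DmE n E h, u (emE B hG h a * z⁻¹) * v z) ∂(μE μ E) :=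
        integral_integral_swap i2
    _ = _ := by
        refine integral_congr_ae (Eventually.of_forall fun z => ?_)
        beta_reduce
        rw [integral_mul_const, mul_comm]

end meas

lemma cont_innerE {h : ℝ} {v : (E → G) → ℝ} (hv : Continuous v) :
    Continuous fun z : E → G => ∫ a in DmE n E h, v (z⁻¹ * emE B hG h a) := by
  have : CompactSpace G := isCompact_iff_compactSpace.1 hG.isCompact
  refine continuous_parametric_integral_of_continuous ?_ (DmE_comp h)
  exact hv.comp ((continuous_inv.comp continuous_fst).mul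
    ((cont_emE (B := B) (hG := hG) h).comp continuous_snd))

lemma cont_innerE' {h : ℝ} {v : (E → G) → ℝ} (hv : Continuous v) :
    Continuous fun z : E → G => ∫ a in DmE n E h, v (emE B hG h a * z⁻¹) := by
  have : CompactSpace G := isCompact_iff_compactSpace.1 hG.isCompact
  refine continuous_parametric_integral_of_continuous ?_ (DmE_comp h)
  exact hv.comp (((cont_emE (B := B) (hG := hG) h).comp continuous_snd).mul
    (continuous_inv.comp continuous_fst))

/-- a Gaussian bound of the inner integrals -/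
lemma inner_bdE {h c t C : ℝ} (hh : 0 < h) (hc : 0 < c) (ht : 0 < t) (hC : 0 ≤ C)
    {w : (E → Fin n → ℝ) → ℝ} {q : (E → Fin n → ℝ) → E → G} {v : E → G}
    (hw : ∀ a, |w a| ≤ C * Real.exp (-(c * (h * qN (q a)))))
    (hq : ∀ a e, nN (em B hG h (a e)) ≤ nN (q a e) + nN (v e)) {a : E → Fin n → ℝ}
    (ha : a ∈ DmE n E h) :
    |w a| ≤ C * Real.exp (c * (h * qN v / t)) *
      Real.exp (-(c / (4 * (1 + t)) * qE a)) := by
  have h1 := size_leE (B := B) (hG := hG) ht hh ha (hq a)
  refine (hw a).trans ?_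
  rw [mul_assoc, ← Real.exp_add]
  refine mul_le_mul_of_nonneg_left (Real.exp_le_exp.2 ?_) hC
  have h2 := mul_le_mul_of_nonneg_left h1 hc.le
  have e1 : c * (qE a / (4 * (1 + t)) - h * qN v / t) =
    c / (4 * (1 + t)) * qE a - c * (h * qN v / t) := by ring
  rw [e1] at h2
  linarith

/-- the limit of the inner integrals at scaled points -/
lemma inner_limE [l.IsCountablyGenerated] {h : ι → ℝ} (hh : Tendsto h l atTop)
    {w : ι × (E → Fin n → ℝ) → (E → Fin n → ℝ) → ℝ}
    {q : ι × (E → Fin n → ℝ) → (E → Fin n → ℝ) → E → G}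
    {W : (E → Fin n → ℝ) → ℝ} {x0 : E → Fin n → ℝ} {c C : ℝ} (hc : 0 < c) (hC : 0 ≤ C)
    (hwc : ∀ p, Continuous (w p))
    (hw : ∀ᶠ p in l ×ˢ 𝓝 x0, ∀ a, |w p a| ≤ C * Real.exp (-(c * (h p.1 * qN (q p a)))))
    (hq : ∀ p a e, nN (em B hG (h p.1) (a e)) ≤ nN (q p a e) + nN (em B hG (h p.1) (p.2 e)))
    (hlim : ∀ a, Tendsto (fun p => w p a) (l ×ˢ 𝓝 x0) (𝓝 (W a))) :
    Tendsto (fun p : ι × (E → Fin n → ℝ) => ∫ a in DmE n E (h p.1), w p a) (l ×ˢ 𝓝 x0)
      (𝓝 (∫ a, W a)) := by
  have hh' : Tendsto (fun p : ι × (E → Fin n → ℝ) => h p.1) (l ×ˢ 𝓝 x0) atTop :=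
    hh.comp tendsto_fst
  obtain ⟨K, hK⟩ : ∃ K, K = qE x0 + 1 := ⟨_, rfl⟩
  have hx : ∀ᶠ p : ι × (E → Fin n → ℝ) in l ×ˢ 𝓝 x0, qE p.2 ≤ K := by
    have h1 : Tendsto (fun p : ι × (E → Fin n → ℝ) => qE p.2) (l ×ˢ 𝓝 x0) (𝓝 (qE x0)) :=
      (qE_cont.tendsto x0).comp tendsto_snd
    filter_upwards [h1.eventually (ge_mem_nhds (lt_add_one _))] with p hp
    rw [hK]
    exact hp
  have hfun : (fun p : ι × (E → Fin n → ℝ) => ∫ a in DmE n E (h p.1), w p a) =
      fun p => ∫ a, (DmE n E (h p.1)).indicator (w p) a := by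
    funext p
    rw [integral_indicator (DmE_meas _)]
  rw [hfun]
  refine tendsto_integral_filter_of_dominated_convergence
    (fun a => C * Real.exp (c * K) * Real.exp (-(c / (4 * (1 + 1)) * qE a))) ?_ ?_ ?_ ?_
  · exact Eventually.of_forall fun p =>
      (hwc p).aestronglyMeasurable.indicator (DmE_meas _)
  · filter_upwards [hw, hx, hh'.eventually_gt_atTop 0] with p h1 h2 h3
    refine Eventually.of_forall fun a => ?_
    rw [Real.norm_eq_abs]
    by_cases ha : a ∈ DmE n E (h p.1)
    · rw [Set.indicator_of_mem ha]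
      refine (inner_bdE (B := B) (hG := hG) h3 hc one_pos hC h1 (hq p) ha).trans ?_
      refine mul_le_mul_of_nonneg_right (mul_le_mul_of_nonneg_left (Real.exp_le_exp.2 ?_) hC)
        (Real.exp_pos _).le
      rw [div_one]
      exact mul_le_mul_of_nonneg_left ((qN_em_le h3 _).trans h2) hc.le
    · rw [Set.indicator_of_notMem ha, abs_zero]
      positivity
  · exact (exp_qE_int (by positivity)).const_mul _
  · refine Eventually.of_forall fun a => ?_
    have h1 : ∀ᶠ p : ι × (E → Fin n → ℝ) in l ×ˢ 𝓝 x0, a ∈ DmE n E (h p.1) := by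
      have h2 : Tendsto (fun p : ι × (E → Fin n → ℝ) => Real.sqrt (h p.1) / 2) (l ×ˢ 𝓝 x0)
          atTop :=
        (Real.tendsto_sqrt_atTop.comp hh').atTop_div_const (by norm_num)
      exact eventually_all.2 fun e => h2.eventually_ge_atTop (nE (a e))
    refine (hlim a).congr' ?_
    filter_upwards [h1] with p hp
    rw [Set.indicator_of_mem hp]

lemma gm_appE {κ : Type*} {L : Filter κ} {H : κ → ℝ} {W : κ → E → Fin n → ℝ}
    {w0 : E → Fin n → ℝ} (hH : Tendsto H L atTop) (hW : Tendsto W L (𝓝 w0)) :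
    Tendsto (fun k => Real.exp (-(H k / 2 * qN (emE B hG (H k) (W k))))) L (𝓝 (gE w0)) := by
  unfold gE
  have h1 := (emE_size (B := B) (hG := hG) hH hW).div_const 2
  refine (Real.continuous_exp.tendsto _).comp (h1.neg.congr fun k => ?_)
  ring

section meas

variable [MeasurableSpace G] [BorelSpace G] {μ : Measure G} [IsProbabilityMeasure μ]
  [μ.IsMulLeftInvariant] [μ.IsMulRightInvariant] [μ.IsInvInvariant]

/-- **the limit of the integrals** -/
theorem SDE.int_lim [l.IsCountablyGenerated] (H : SDE B hG l h f F) :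
    Tendsto (fun i => (∫ z, f i z ∂(μE μ E)) / nz μ (h i) ^ Fintype.card E) l
      (𝓝 ((∫ x, F x) / (∫ x, gs (n := n) x) ^ Fintype.card E)) := by
  have hcomp : CompactSpace G := isCompact_iff_compactSpace.1 hG.isCompact
  have h00 : SecondCountableTopology (UN N) := TopologicalSpace.Subtype.secondCountableTopology _
  have hsc : SecondCountableTopology G := TopologicalSpace.Subtype.secondCountableTopology _
  obtain ⟨C, c, hC, hc, hd⟩ := H.dom
  have hh := H.top
  obtain ⟨gm, hgm⟩ : ∃ gm : ι → (E → G) → ℝ, gm = fun i z => Real.exp (-(h i / 2 * qN z)) :=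
    ⟨_, rfl⟩
  have cgm : ∀ i, Continuous (gm i) := fun i => by rw [hgm]; exact cont_gaussE _
  obtain ⟨Γ, hΓ⟩ : ∃ Γ, Γ = ∫ x, gE (n := n) (E := E) x := ⟨_, rfl⟩
  have hΓ0 : 0 < Γ := by rw [hΓ]; exact gE_int_pos
  obtain ⟨F0, hF0⟩ : ∃ F0, F0 = ∫ x, F x := ⟨_, rfl⟩
  obtain ⟨A, hA⟩ : ∃ A : ι → (E → G) → ℝ, A = fun i z =>
    ∫ a in DmE n E (h i), gm i (z⁻¹ * emE B hG (h i) a) := ⟨_, rfl⟩
  obtain ⟨E', hE⟩ : ∃ E' : ι → (E → G) → ℝ, E' = fun i z =>
    ∫ a in DmE n E (h i), f i (emE B hG (h i) a * z⁻¹) := ⟨_, rfl⟩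
  have cA : ∀ i, Continuous (A i) := fun i => by rw [hA]; exact cont_innerE (cgm i)
  have cE : ∀ i, Continuous (E' i) := fun i => by rw [hE]; exact cont_innerE' (H.cont i)
  -- the limits of the inner integrals
  have limA : ∀ x0, Tendsto (fun p : ι × (E → Fin n → ℝ) => A p.1 (emE B hG (h p.1) p.2))
      (l ×ˢ 𝓝 x0) (𝓝 Γ) := by
    intro x0
    have hh' : Tendsto (fun p : ι × (E → Fin n → ℝ) => h p.1) (l ×ˢ 𝓝 x0) atTop :=
      hh.comp tendsto_fst
    have h1 := inner_limE (B := B) (hG := hG) (l := l) (x0 := x0) hh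
      (w := fun p a => gm p.1 ((emE B hG (h p.1) p.2)⁻¹ * emE B hG (h p.1) a))
      (q := fun p a => (emE B hG (h p.1) p.2)⁻¹ * emE B hG (h p.1) a)
      (W := fun a => gE (a - x0)) (c := 1 / 2) (C := 1) (by norm_num) zero_le_one
      (fun p => (cgm p.1).comp (continuous_const.mul (cont_emE _)))
      (Eventually.of_forall fun p a => by
        rw [hgm]
        beta_reduce
        rw [abs_of_pos (Real.exp_pos _), one_mul]
        refine le_of_eq ?_
        congr 1
        ring)
      (fun p a e => by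
        have h2 := nN_mul_le (em B hG (h p.1) (p.2 e))
          ((em B hG (h p.1) (p.2 e))⁻¹ * em B hG (h p.1) (a e))
        rw [mul_inv_cancel_left] at h2
        rw [add_comm]
        exact h2)
      (fun a => by
        obtain ⟨W, hW, hWe⟩ := emE_quot (B := B) (hG := hG) hh'
          (X := fun p : ι × (E → Fin n → ℝ) => p.2) (x0 := x0) tendsto_snd
          (Y := fun _ => a) (y0 := a) tendsto_const_nhds
        refine (gm_appE (B := B) (hG := hG) hh' hW).congr' ?_
        filter_upwards [hWe] with p hp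
        rw [hp, hgm])
    rw [hA, hΓ]
    have e : ∫ a : E → Fin n → ℝ, gE (a - x0) = ∫ a, gE (n := n) (E := E) a :=
      integral_sub_right_eq_self (fun a : E → Fin n → ℝ => gE a) x0
    rw [e] at h1
    exact h1
  have limE : ∀ x0, Tendsto (fun p : ι × (E → Fin n → ℝ) => E' p.1 (emE B hG (h p.1) p.2))
      (l ×ˢ 𝓝 x0) (𝓝 F0) := by
    intro x0
    have hh' : Tendsto (fun p : ι × (E → Fin n → ℝ) => h p.1) (l ×ˢ 𝓝 x0) atTop :=
      hh.comp tendsto_fst
    have h1 := inner_limE (B := B) (hG := hG) (l := l) (x0 := x0) hh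
      (w := fun p a => f p.1 (emE B hG (h p.1) a * (emE B hG (h p.1) p.2)⁻¹))
      (q := fun p a => emE B hG (h p.1) a * (emE B hG (h p.1) p.2)⁻¹)
      (W := fun a => F (a - x0)) hc hC
      (fun p => (H.cont p.1).comp ((cont_emE _).mul continuous_const))
      ((tendsto_fst.eventually hd).mono fun p hp a => hp _)
      (fun p a e => by
        have h2 := nN_mul_le (em B hG (h p.1) (a e) * (em B hG (h p.1) (p.2 e))⁻¹)
          (em B hG (h p.1) (p.2 e))
        rw [inv_mul_cancel_right] at h2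
        exact h2)
      (fun a => by
        obtain ⟨W, hW, hWe⟩ := emE_quot' (B := B) (hG := hG) hh'
          (X := fun p : ι × (E → Fin n → ℝ) => p.2) (x0 := x0) tendsto_snd
          (Y := fun _ => a) (y0 := a) tendsto_const_nhds
        refine (H.app tendsto_fst hW).congr' ?_
        filter_upwards [hWe] with p hp
        rw [hp])
    rw [hE, hF0]
    have e : ∫ a : E → Fin n → ℝ, F (a - x0) = ∫ a, F a :=
      integral_sub_right_eq_self (fun a : E → Fin n → ℝ => F a) x0
    rw [e] at h1
    exact h1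
  -- the bounds of the inner integrals
  have bdA : ∃ CA : ℝ, 0 ≤ CA ∧ ∀ i, 0 < h i → ∀ z, |A i z| ≤
      CA * Real.exp (c / 2 * (h i * qN z)) := by
    refine ⟨∫ a : E → Fin n → ℝ, Real.exp (-(1 / 2 / (4 * (1 + 1 / c)) * qE a)),
      integral_nonneg fun a => (Real.exp_pos _).le, fun i hi z => ?_⟩
    have hi1 : Integrable fun a : E → Fin n → ℝ =>
        Real.exp (-(1 / 2 / (4 * (1 + 1 / c)) * qE a)) := exp_qE_int (by positivity)
    rw [hA, ← Real.norm_eq_abs]
    beta_reduce
    refine (norm_integral_le_of_norm_le (f := fun a : E → Fin n → ℝ =>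
      gm i (z⁻¹ * emE B hG (h i) a)) (μ := volume.restrict (DmE n E (h i)))
      (g := fun a : E → Fin n → ℝ =>
      Real.exp (c / 2 * (h i * qN z)) *
        Real.exp (-(1 / 2 / (4 * (1 + 1 / c)) * qE a))) ?_ ?_).trans ?_
    · exact (hi1.const_mul _).integrableOn
    · refine (ae_restrict_iff' (DmE_meas _)).2 (Eventually.of_forall fun a ha => ?_)
      have h1 := inner_bdE (B := B) (hG := hG) (h := h i) (c := 1 / 2) (t := 1 / c) (C := 1) hi
        (by norm_num) (by positivity) zero_le_one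
        (w := fun a => gm i (z⁻¹ * emE B hG (h i) a)) (q := fun a => z⁻¹ * emE B hG (h i) a)
        (v := z) (fun a => by
          rw [hgm]
          beta_reduce
          rw [abs_of_pos (Real.exp_pos _), one_mul]
          refine le_of_eq ?_
          congr 1
          ring)
        (fun a e => by
          have h2 := nN_mul_le (z e) ((z e)⁻¹ * em B hG (h i) (a e))
          rw [mul_inv_cancel_left] at h2
          rw [add_comm]
          exact h2) ha
      rw [Real.norm_eq_abs]
      refine h1.trans (le_of_eq ?_)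
      rw [one_mul]
      congr 2
      field_simp
    · rw [integral_const_mul, mul_comm]
      refine mul_le_mul_of_nonneg_right ?_ (Real.exp_pos _).le
      exact setIntegral_le_integral hi1 (Eventually.of_forall fun a => (Real.exp_pos _).le)
  have bdE : ∃ CE : ℝ, 0 ≤ CE ∧ ∀ᶠ i in l, ∀ z, |E' i z| ≤
      CE * Real.exp (1 / 4 * (h i * qN z)) := by
    refine ⟨C * ∫ a : E → Fin n → ℝ, Real.exp (-(c / (4 * (1 + 4 * c)) * qE a)),
      mul_nonneg hC (integral_nonneg fun a => (Real.exp_pos _).le), ?_⟩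
    filter_upwards [hd, hh.eventually_gt_atTop 0] with i hdi hi z
    have hi1 : Integrable fun a : E → Fin n → ℝ =>
        Real.exp (-(c / (4 * (1 + 4 * c)) * qE a)) := exp_qE_int (by positivity)
    rw [hE, ← Real.norm_eq_abs]
    beta_reduce
    refine (norm_integral_le_of_norm_le (f := fun a : E → Fin n → ℝ =>
      f i (emE B hG (h i) a * z⁻¹)) (μ := volume.restrict (DmE n E (h i)))
      (g := fun a : E → Fin n → ℝ =>
      C * Real.exp (1 / 4 * (h i * qN z)) *
        Real.exp (-(c / (4 * (1 + 4 * c)) * qE a))) ?_ ?_).trans ?_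
    · exact (hi1.const_mul _).integrableOn
    · refine (ae_restrict_iff' (DmE_meas _)).2 (Eventually.of_forall fun a ha => ?_)
      have h1 := inner_bdE (B := B) (hG := hG) (h := h i) (c := c) (t := 4 * c) (C := C) hi
        hc (by positivity) hC
        (w := fun a => f i (emE B hG (h i) a * z⁻¹)) (q := fun a => emE B hG (h i) a * z⁻¹)
        (v := z) (fun a => hdi _)
        (fun a e => by
          have h2 := nN_mul_le (em B hG (h i) (a e) * (z e)⁻¹) (z e)
          rw [inv_mul_cancel_right] at h2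
          exact h2) ha
      rw [Real.norm_eq_abs]
      refine h1.trans (le_of_eq ?_)
      congr 3
      field_simp
    · rw [integral_const_mul]
      have h2 : ∫ a in DmE n E (h i), Real.exp (-(c / (4 * (1 + 4 * c)) * qE a)) ≤
          ∫ a : E → Fin n → ℝ, Real.exp (-(c / (4 * (1 + 4 * c)) * qE a)) :=
        setIntegral_le_integral hi1 (Eventually.of_forall fun a => (Real.exp_pos _).le)
      calc _ ≤ C * Real.exp (1 / 4 * (h i * qN z)) *
            ∫ a : E → Fin n → ℝ, Real.exp (-(c / (4 * (1 + 4 * c)) * qE a)) :=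
            mul_le_mul_of_nonneg_left h2 (by positivity)
        _ = _ := by ring
  obtain ⟨CA, hCA, bdA⟩ := bdA
  obtain ⟨CE, hCE, bdE⟩ := bdE
  -- the two small terms
  have s1 : Tendsto (fun i => (∫ z, f i z * (A i z - Γ) ∂(μE μ E)) /
      nz μ (h i) ^ Fintype.card E) l (𝓝 0) := by
    refine smallE (B := B) (hG := hG) hh (fun i => (H.cont i).mul ((cA i).sub continuous_const))
      (fun x => ?_) ⟨C * (CA + Γ), c / 2, by positivity, by positivity, ?_⟩
    · have h1 := (H.lim x).mul ((limA x).sub_const Γ)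
      rw [sub_self, mul_zero] at h1
      exact h1
    · filter_upwards [hd, hh.eventually_gt_atTop 0] with i hdi hi z
      rw [abs_mul]
      have hX : 0 ≤ h i * qN z := mul_nonneg hi.le (qN_nonneg z)
      have h1 : |A i z - Γ| ≤ (CA + Γ) * Real.exp (c / 2 * (h i * qN z)) := by
        refine (abs_sub _ _).trans ?_
        rw [abs_of_pos hΓ0, add_mul]
        refine add_le_add (bdA i hi z) ?_
        exact le_mul_of_one_le_right hΓ0.le (Real.one_le_exp (by positivity))
      calc |f i z| * |A i z - Γ| ≤ (C * Real.exp (-(c * (h i * qN z)))) *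
            ((CA + Γ) * Real.exp (c / 2 * (h i * qN z))) :=
            mul_le_mul (hdi z) h1 (abs_nonneg _) (by positivity)
        _ = C * (CA + Γ) * (Real.exp (-(c * (h i * qN z))) *
            Real.exp (c / 2 * (h i * qN z))) := by ring
        _ = _ := by
            rw [← Real.exp_add]
            congr 2
            ring
  have s2 : Tendsto (fun i => (∫ z, gm i z * (E' i z - F0) ∂(μE μ E)) /
      nz μ (h i) ^ Fintype.card E) l (𝓝 0) := by
    refine smallE (B := B) (hG := hG) hh (fun i => (cgm i).mul ((cE i).sub continuous_const))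
      (fun x => ?_) ⟨CE + |F0|, 1 / 4, by positivity, by norm_num, ?_⟩
    · have hh' : Tendsto (fun p : ι × (E → Fin n → ℝ) => h p.1) (l ×ˢ 𝓝 x) atTop :=
        hh.comp tendsto_fst
      have h0 := gm_appE (B := B) (hG := hG) hh'
        (W := fun p : ι × (E → Fin n → ℝ) => p.2) (w0 := x) tendsto_snd
      have h1 := h0.mul ((limE x).sub_const F0)
      rw [sub_self, mul_zero] at h1
      rw [hgm]
      exact h1
    · filter_upwards [bdE, hh.eventually_gt_atTop 0] with i hbi hi z
      rw [abs_mul]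
      have hX : 0 ≤ h i * qN z := mul_nonneg hi.le (qN_nonneg z)
      have h1 : |E' i z - F0| ≤ (CE + |F0|) * Real.exp (1 / 4 * (h i * qN z)) := by
        refine (abs_sub _ _).trans ?_
        rw [add_mul]
        refine add_le_add (hbi z) ?_
        exact le_mul_of_one_le_right (abs_nonneg _) (Real.one_le_exp (by positivity))
      have h2 : |gm i z| = Real.exp (-(1 / 2 * (h i * qN z))) := by
        rw [hgm]
        beta_reduce
        rw [abs_of_pos (Real.exp_pos _)]
        congr 1
        ring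
      rw [h2]
      calc Real.exp (-(1 / 2 * (h i * qN z))) * |E' i z - F0| ≤
            Real.exp (-(1 / 2 * (h i * qN z))) *
              ((CE + |F0|) * Real.exp (1 / 4 * (h i * qN z))) :=
            mul_le_mul_of_nonneg_left h1 (Real.exp_pos _).le
        _ = (CE + |F0|) * (Real.exp (-(1 / 2 * (h i * qN z))) *
            Real.exp (1 / 4 * (h i * qN z))) := by ring
        _ = _ := by
            rw [← Real.exp_add]
            congr 2
            ring
  -- conclusion
  have h1 : ∀ i, Γ * ((∫ z, f i z ∂(μE μ E)) / nz μ (h i) ^ Fintype.card E) =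
      F0 + (∫ z, gm i z * (E' i z - F0) ∂(μE μ E)) / nz μ (h i) ^ Fintype.card E -
        (∫ z, f i z * (A i z - Γ) ∂(μE μ E)) / nz μ (h i) ^ Fintype.card E := by
    intro i
    obtain ⟨Z, hZ⟩ : ∃ Z, Z = nz μ (h i) ^ Fintype.card E := ⟨_, rfl⟩
    have hnz : Z ≠ 0 := by rw [hZ]; exact pow_ne_zero _ (nz_pos (μ := μ) (h i)).ne'
    have a1 : ∫ z, f i z * (A i z - Γ) ∂(μE μ E) =
        (∫ z, f i z * A i z ∂(μE μ E)) - Γ * ∫ z, f i z ∂(μE μ E) := by
      have j1 : Integrable (fun z => f i z * A i z) (μE μ E) := int_contE ((H.cont i).mul (cA i))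
      have j2 : Integrable (fun z => Γ * f i z) (μE μ E) :=
        int_contE (continuous_const.mul (H.cont i))
      rw [← integral_const_mul, ← integral_sub j1 j2]
      refine integral_congr_ae (Eventually.of_forall fun z => ?_)
      beta_reduce
      ring
    have a2 : ∫ z, gm i z * (E' i z - F0) ∂(μE μ E) =
        (∫ z, gm i z * E' i z ∂(μE μ E)) - F0 * Z := by
      have e : Z = ∫ z, gm i z ∂(μE μ E) := by rw [hgm, hZ, int_gaussE]; rfl
      have j1 : Integrable (fun z => gm i z * E' i z) (μE μ E) := int_contE ((cgm i).mul (cE i))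
      have j2 : Integrable (fun z => F0 * gm i z) (μE μ E) :=
        int_contE (continuous_const.mul (cgm i))
      rw [e, ← integral_const_mul, ← integral_sub j1 j2]
      refine integral_congr_ae (Eventually.of_forall fun z => ?_)
      beta_reduce
      ring
    have a3 : ∫ z, f i z * A i z ∂(μE μ E) = ∫ z, gm i z * E' i z ∂(μE μ E) := by
      rw [hA, hE]
      exact fubE (H.cont i) (cgm i) (h i)
    rw [← hZ, a1, a2, a3]
    field_simp
    ring
  have h2 : Tendsto (fun i => Γ * ((∫ z, f i z ∂(μE μ E)) / nz μ (h i) ^ Fintype.card E)) l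
      (𝓝 F0) := by
    have h3 := (s2.const_add F0).sub s1
    rw [add_zero, sub_zero] at h3
    exact h3.congr fun i => (h1 i).symm
  have h3 := h2.const_mul Γ⁻¹
  rw [← hF0, ← int_gE, ← hΓ]
  have e : Γ⁻¹ * F0 = F0 / Γ := by rw [inv_mul_eq_div]
  rw [e] at h3
  refine h3.congr fun i => ?_
  rw [← mul_assoc, inv_mul_cancel₀ hΓ0.ne', one_mul]

end meas

end

end Pool.Agent.Run7.h871.LG
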