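import Mathlib
import Pool.Agent.Run7.h871.YM.Lap2

/-!
# Laplace's method for gauge invariant functions: definitions and statement

`G` is a closed subgroup of `U(N)` with an orthonormal basis `B` of its Lie algebra, `E` is the set
of the links, `Λ` the set of the sites, `s e` and `t e` are the ends of the link `e`, and `U0` is
the vacuum. A finite group `Zf` acts by the multiplication of the links by central elements.
-/

open MeasureTheory Filter Matrix Pool.Agent.N991.MK Pool.Agent.N989.MK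
open scoped Matrix.Norms.Frobenius Topology
open Pool.Agent.H906R3.YM Pool.Agent.W793.YM Pool.Agent.TH618.YM Pool.Agent.N984.TW
open Pool.Agent.N109.T3 (nz gs cvR)
open Pool.Agent.N839.T3

namespace Pool.Agent.Run7.h871.LG

set_option linter.unusedSectionVars false

noncomputable section

variable {N n : ℕ} {G : Subgroup (UN N)} (B : Frame G n) (hG : IsClosed (G : Set (UN N)))
  {E Λ P : Type*} [Fintype E] [Fintype Λ] [Fintype P] (s t : E → Λ)

/-- the gauge transformation `g` of the configuration `U` -/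
def gt (g : Λ → G) (U : E → G) : E → G := fun e => g (s e) * U e * (g (t e))⁻¹

/-- the adjoint action in coordinates -/
def adc (g : G) (x : Fin n → ℝ) : Fin n → ℝ := pc B (mt g * LX B x * (mt g)ᴴ)

/-- the infinitesimal gauge transformation at `U0`, in coordinates -/
def nab (U0 : E → G) (c : Λ → Fin n → ℝ) : E → Fin n → ℝ :=
  fun e => c (s e) - adc B (U0 e) (c (t e))

/-- the scalar product -/
def ipE {K : Type*} [Fintype K] (x y : K → Fin n → ℝ) : ℝ := ∑ k, ∑ a, x k a * y k a

/-- The data: the vacuum `U0`, the action `c` of the finite group `Zf` by central elements, the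
finite group `S0` of the gauge transformations which act as elements of `Zf`, the linearised
curvature `D`, the linearised divergence `dv`, and the lower bound `S` of the action. -/
structure Dat (U0 : E → G) {Zf : Type*} [Group Zf] [Fintype Zf] (c : Zf →* (E → G))
    (S0 : Subgroup (Λ → G)) [Finite S0] (D : (E → Fin n → ℝ) →ₗ[ℝ] (P → Fin n → ℝ))
    (dv : (E → Fin n → ℝ) →ₗ[ℝ] (Λ → Fin n → ℝ)) (S : (E → G) → ℝ) : Prop where
  /-- the action of `Zf` is central and faithful -/
  cen : ∀ z e (g : G), c z e * g = g * c z e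
  inj : Function.Injective c
  /-- the elements of `S0` act as elements of `Zf` -/
  act : ∀ g ∈ S0, ∃ z, ∀ U, c z * gt s t g U = U
  /-- the stabiliser of the vacuum -/
  stab : ∀ z g, c z * gt s t g U0 = U0 → g ∈ S0
  /-- the linearised gauge transformations -/
  ker : ∀ a, nab B s t U0 a = 0 → a = 0
  flat : ∀ a, D (nab B s t U0 a) = 0
  adj : ∀ x a, ipE (dv x) a = ipE x (nab B s t U0 a)
  nondeg : ∀ x, D x = 0 → dv x = 0 → x = 0
  /-- the function `S` -/
  cont : Continuous S
  nonneg : ∀ U, 0 ≤ S U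
  invg : ∀ g U, S (gt s t g U) = S U
  invc : ∀ z U, S (c z * U) = S U
  zero : ∀ U, S U = 0 → ∃ z g, c z * gt s t g U = U0
  quad : ∀ x0, Tendsto (fun p : ℝ × (E → Fin n → ℝ) => p.1 * S (emE B hG p.1 p.2 * U0))
    (atTop ×ˢ 𝓝 x0) (𝓝 (qE (D x0) / 2))

/-- The weights `w i` at the inverse temperatures `h i`. -/
structure Wt {ι : Type*} (l : Filter ι) (h : ι → ℝ) (w : ι → (E → G) → ℝ) (U0 : E → G)
    {Zf : Type*} [Group Zf] [Fintype Zf] (c : Zf →* (E → G))
    (D : (E → Fin n → ℝ) →ₗ[ℝ] (P → Fin n → ℝ)) (S : (E → G) → ℝ) : Prop where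
  top : Tendsto h l atTop
  cont : ∀ i, Continuous (w i)
  nonneg : ∀ i U, 0 ≤ w i U
  invg : ∀ i g U, w i (gt s t g U) = w i U
  invc : ∀ i z U, w i (c z * U) = w i U
  bound : ∃ C : ℝ, 0 ≤ C ∧ ∀ i U, w i U ≤ C * Real.exp (-(h i * S U))
  lim : ∀ x0, Tendsto (fun p : ι × (E → Fin n → ℝ) => w p.1 (emE B hG (h p.1) p.2 * U0))
    (l ×ˢ 𝓝 x0) (𝓝 (Real.exp (-(qE (D x0) / 2))))

/-- the statement of the theorem (proved in `Run7.h871.YM.Main`) -/
def St_main [MeasurableSpace G] (μ : Measure G) : Prop :=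
  ∀ (U0 : E → G) (Zf : Type) [Group Zf] [Fintype Zf] (c : Zf →* (E → G))
    (S0 : Subgroup (Λ → G)) [Finite S0] (D : (E → Fin n → ℝ) →ₗ[ℝ] (P → Fin n → ℝ))
    (dv : (E → Fin n → ℝ) →ₗ[ℝ] (Λ → Fin n → ℝ)) (S : (E → G) → ℝ),
    Dat B hG s t U0 c S0 D dv S →
    ∀ (ι : Type) (l : Filter ι) [l.IsCountablyGenerated] (h : ι → ℝ) (w : ι → (E → G) → ℝ),
      Wt B hG s t l h w U0 c D S →
      Tendsto (fun i => (∫ U, w i U ∂(μE μ E)) * nz μ (h i) ^ Fintype.card Λ /
          nz μ (h i) ^ Fintype.card E) l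
        (𝓝 ((Fintype.card Zf : ℝ) / Nat.card S0 *
          ((∫ x, gs (n := n) x) ^ Fintype.card Λ / (∫ x, gs (n := n) x) ^ Fintype.card E) *
          ((∫ x : E → Fin n → ℝ, Real.exp (-((qE (D x) + qE (dv x)) / 2))) /
            ∫ a : Λ → Fin n → ℝ, Real.exp (-(qE (dv (nab B s t U0 a)) / 2)))))

end

end Pool.Agent.Run7.h871.LG
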