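import Mathlib
import Pool.Agent.Run7.h871.YM.Lap2

/-!
# Laplace's method for functions which are invariant under a finite group of translations
-/

open MeasureTheory Filter Matrix Pool.Agent.N991.MK Pool.Agent.N989.MK
open scoped Matrix.Norms.Frobenius Topology
open Pool.Agent.H906R3.YM Pool.Agent.W793.YM Pool.Agent.TH618.YM Pool.Agent.N984.TW
open Pool.Agent.N109.T3 (nz gs cvR)
open Pool.Agent.N839.T3

namespace Pool.Agent.Run7.h871.LG

set_option linter.unusedSectionVars false

noncomputable section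

variable {N n : ℕ} {G : Subgroup (UN N)} {B : Frame G n} {hG : IsClosed (G : Set (UN N))}
  {E : Type*} [Fintype E]
  {ι : Type*} {l : Filter ι} {h : ι → ℝ} {f : ι → (E → G) → ℝ}
  {F : (E → Fin n → ℝ) → ℝ}

variable {κ : Type*} {L : Filter κ} {H : κ → ℝ} {X : κ → E → Fin n → ℝ} {x0 : E → Fin n → ℝ}

lemma eq_one_of_nN {g : G} (h : nN g = 0) : g = 1 := by
  apply mt_inj
  rw [mt_one]
  exact sub_eq_zero.1 (norm_eq_zero.1 h)

lemma eq_one_of_qN {z : E → G} (h : qN z = 0) : z = 1 := by
  funext e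
  have h1 := (Finset.sum_eq_zero_iff_of_nonneg (fun e _ => sq_nonneg (nN (z e)))).1 h e
    (Finset.mem_univ e)
  exact eq_one_of_nN (pow_eq_zero_iff (two_ne_zero)|>.1 h1)

lemma nN_em_zeroE (hH : Tendsto H L atTop) (hX : Tendsto X L (𝓝 x0)) (e : E) :
    Tendsto (fun k => nN (emE B hG (H k) (X k) e)) L (𝓝 0) :=
  nN_em_zero hH ((continuous_apply e).continuousAt.tendsto.comp hX)

/-- away from the identity the Gaussians vanish in the limit -/
lemma far_zero (hH : Tendsto H L atTop) (hX : Tendsto X L (𝓝 x0)) {s : E → G} (hs : s ≠ 1)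
    {c : ℝ} (hc : 0 < c) :
    Tendsto (fun k => Real.exp (-(c * (H k * qN (emE B hG (H k) (X k) * s))))) L (𝓝 0) := by
  have h1 : ∃ e, s e ≠ 1 := by
    by_contra hcon
    push Not at hcon
    exact hs (funext hcon)
  obtain ⟨e, he⟩ := h1
  have h2 : 0 < nN (s e) := lt_of_le_of_ne (nN_nonneg _) fun h => he (eq_one_of_nN h.symm)
  have h3 := nN_em_zeroE (B := B) (hG := hG) hH hX e
  have h4 : ∀ᶠ k in L, nN (s e) ^ 2 / 4 ≤ qN (emE B hG (H k) (X k) * s) := by
    filter_upwards [h3.eventually (ge_mem_nhds (half_pos h2))] with k hk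
    have h5 : nN (s e) ≤ nN (emE B hG (H k) (X k) e) + nN (emE B hG (H k) (X k) e * s e) := by
      have h6 := nN_mul_le (emE B hG (H k) (X k) e)⁻¹ (emE B hG (H k) (X k) e * s e)
      rwa [inv_mul_cancel_left, nN_inv] at h6
    have h7 : nN (s e) / 2 ≤ nN (emE B hG (H k) (X k) e * s e) := by linarith
    have h8 : (nN (s e) / 2) ^ 2 ≤ nN (emE B hG (H k) (X k) e * s e) ^ 2 :=
      pow_le_pow_left₀ (by positivity) h7 2
    have h9 : nN (emE B hG (H k) (X k) e * s e) ^ 2 ≤ qN (emE B hG (H k) (X k) * s) :=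
      Finset.single_le_sum (f := fun e => nN ((emE B hG (H k) (X k) * s) e) ^ 2)
        (fun _ _ => sq_nonneg _) (Finset.mem_univ e)
    calc nN (s e) ^ 2 / 4 = (nN (s e) / 2) ^ 2 := by ring
      _ ≤ _ := h8.trans h9
  have h5 : Tendsto (fun k => c * (H k * (nN (s e) ^ 2 / 4))) L atTop :=
    (hH.atTop_mul_const (by positivity)).const_mul_atTop hc
  have h6 : Tendsto (fun k => Real.exp (-(c * (H k * (nN (s e) ^ 2 / 4))))) L (𝓝 0) :=
    Real.tendsto_exp_neg_atTop_nhds_zero.comp h5
  refine squeeze_zero' (Eventually.of_forall fun k => (Real.exp_pos _).le) ?_ h6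
  filter_upwards [h4, hH.eventually_gt_atTop 0] with k hk h0
  refine Real.exp_le_exp.2 (neg_le_neg ?_)
  exact mul_le_mul_of_nonneg_left (mul_le_mul_of_nonneg_left hk h0.le) hc.le

variable (S0 : Subgroup (E → G)) [Fintype S0]

/-- the sum of the Gaussians centred at the elements of the group -/
def RR (H : ℝ) (z : E → G) : ℝ := ∑ s : S0, Real.exp (-(H * qN (z * s.1)))

variable {S0}

lemma RR_pos (H : ℝ) (z : E → G) : 0 < RR S0 H z :=
  Finset.sum_pos (fun _ _ => Real.exp_pos _) Finset.univ_nonempty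

lemma RR_cont (H : ℝ) : Continuous (RR S0 H) := by
  unfold RR
  refine continuous_finsetSum _ fun s _ => ?_
  have := qN_cont (G := G) (E := E)
  fun_prop

lemma RR_inv (H : ℝ) (z : E → G) (s : S0) : RR S0 H (z * s.1) = RR S0 H z := by
  unfold RR
  refine Fintype.sum_equiv (Equiv.mulLeft s) _ _ fun u => ?_
  simp [mul_assoc]

lemma RR_ge (H : ℝ) (z : E → G) (s : S0) : Real.exp (-(H * qN (z * s.1))) ≤ RR S0 H z :=
  Finset.single_le_sum (f := fun s : S0 => Real.exp (-(H * qN (z * s.1))))
    (fun _ _ => (Real.exp_pos _).le) (Finset.mem_univ s)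

lemma RR_ge_one (H : ℝ) (z : E → G) : Real.exp (-(H * qN z)) ≤ RR S0 H z := by
  have h := RR_ge (S0 := S0) H z 1
  simpa using h

lemma RR_lim (hH : Tendsto H L atTop) (hX : Tendsto X L (𝓝 x0)) :
    Tendsto (fun k => RR S0 (H k) (emE B hG (H k) (X k))) L (𝓝 (Real.exp (-qE x0))) := by
  classical
  have h1 : ∀ s : S0, Tendsto (fun k => Real.exp (-(H k * qN (emE B hG (H k) (X k) * s.1)))) L
      (𝓝 (if s = 1 then Real.exp (-qE x0) else 0)) := by
    intro s
    by_cases hs : s = 1
    · rw [if_pos hs, hs]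
      have h2 := emE_size (B := B) (hG := hG) hH hX
      have h3 := (Real.continuous_exp.tendsto _).comp h2.neg
      refine h3.congr fun k => ?_
      simp
    · rw [if_neg hs]
      have h2 := far_zero (B := B) (hG := hG) hH hX (s := s.1) (fun h => hs (Subtype.ext h))
        one_pos
      simpa using h2
  have h2 := tendsto_finsetSum Finset.univ fun s _ => h1 s
  rw [Finset.sum_ite_eq' Finset.univ (1 : S0)] at h2
  simpa [RR] using h2

/-- functions on the product which are invariant under a finite group and concentrated on it -/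
structure SDS (B : Frame G n) (hG : IsClosed (G : Set (UN N))) (S0 : Subgroup (E → G))
    (l : Filter ι) (h : ι → ℝ) (f : ι → (E → G) → ℝ) (F : (E → Fin n → ℝ) → ℝ) : Prop where
  top : Tendsto h l atTop
  cont : ∀ i, Continuous (f i)
  inv : ∀ i z, ∀ s ∈ S0, f i (z * s) = f i z
  lim : ∀ x, Tendsto (fun p : ι × (E → Fin n → ℝ) => f p.1 (emE B hG (h p.1) p.2)) (l ×ˢ 𝓝 x)
    (𝓝 (F x))
  dom : ∃ C c : ℝ, 0 ≤ C ∧ 0 < c ∧ ∀ᶠ i in l, ∀ z : E → G, ∃ s ∈ S0,
    |f i z| ≤ C * Real.exp (-(c * (h i * qN (z * s))))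

lemma SDS.toSDE (H : SDS B hG S0 l h f F) :
    SDE B hG l h (fun i z => f i z * (Real.exp (-(h i * qN z)) / RR S0 (h i) z)) F where
  top := H.top
  cont := fun i => by
    have h1 := H.cont i
    have h2 := RR_cont (S0 := S0) (h i)
    have h3 := qN_cont (G := G) (E := E)
    refine h1.mul (Continuous.div ?_ h2 fun z => (RR_pos _ _).ne')
    fun_prop
  lim := fun x => by
    have h1 := H.lim x
    have hh : Tendsto (fun p : ι × (E → Fin n → ℝ) => h p.1) (l ×ˢ 𝓝 x) atTop :=
      H.top.comp tendsto_fst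
    have h2 := emE_size (B := B) (hG := hG) hh (X := fun p : ι × (E → Fin n → ℝ) => p.2) (x0 := x)
      tendsto_snd
    have h3 := (Real.continuous_exp.tendsto _).comp h2.neg
    have h4 := RR_lim (B := B) (hG := hG) (S0 := S0) hh
      (X := fun p : ι × (E → Fin n → ℝ) => p.2) (x0 := x) tendsto_snd
    have h5 := h1.mul (h3.div h4 (Real.exp_pos _).ne')
    rw [div_self (Real.exp_pos _).ne', mul_one] at h5
    exact h5
  dom := by
    obtain ⟨C, c, hC, hc, hd⟩ := H.dom
    refine ⟨C, min c 1, hC, lt_min hc one_pos, ?_⟩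
    filter_upwards [hd, H.top.eventually_ge_atTop 0] with i hi h0 z
    obtain ⟨s, hs, hsb⟩ := hi z
    have hR := RR_pos (S0 := S0) (h i) z
    rw [abs_mul, abs_of_pos (div_pos (Real.exp_pos _) hR)]
    have hq := qN_nonneg z
    have hqs := qN_nonneg (z * s)
    have hm1 : min c 1 ≤ c := min_le_left _ _
    have hm2 : min c 1 ≤ 1 := min_le_right _ _
    have hm0 : 0 < min c 1 := lt_min hc one_pos
    rcases le_total (qN z) (qN (z * s)) with hle | hle
    · have h1 : Real.exp (-(h i * qN z)) / RR S0 (h i) z ≤ 1 :=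
        (div_le_one hR).2 (RR_ge_one _ _)
      calc |f i z| * (Real.exp (-(h i * qN z)) / RR S0 (h i) z) ≤ |f i z| * 1 :=
            mul_le_mul_of_nonneg_left h1 (abs_nonneg _)
        _ ≤ C * Real.exp (-(c * (h i * qN (z * s)))) := by rw [mul_one]; exact hsb
        _ ≤ _ := by
          refine mul_le_mul_of_nonneg_left (Real.exp_le_exp.2 (neg_le_neg ?_)) hC
          have h2 : h i * qN z ≤ h i * qN (z * s) := mul_le_mul_of_nonneg_left hle h0
          have h3 : 0 ≤ h i * qN z := mul_nonneg h0 hq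
          nlinarith
    · have h1 : Real.exp (-(h i * qN z)) / RR S0 (h i) z ≤
          Real.exp (-(h i * qN z)) / Real.exp (-(h i * qN (z * s))) :=
        div_le_div_of_nonneg_left (Real.exp_pos _).le (Real.exp_pos _)
          (RR_ge (S0 := S0) _ _ ⟨s, hs⟩)
      calc |f i z| * (Real.exp (-(h i * qN z)) / RR S0 (h i) z) ≤
            (C * Real.exp (-(c * (h i * qN (z * s))))) *
              (Real.exp (-(h i * qN z)) / Real.exp (-(h i * qN (z * s)))) :=
            mul_le_mul hsb h1 (div_pos (Real.exp_pos _) hR).le (by positivity)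
        _ = C * Real.exp (-(c * (h i * qN (z * s))) + (-(h i * qN z) + h i * qN (z * s))) := by
            rw [mul_assoc, ← Real.exp_sub, ← Real.exp_add]
            congr 2
            ring
        _ ≤ _ := by
          refine mul_le_mul_of_nonneg_left (Real.exp_le_exp.2 ?_) hC
          have h2 : h i * qN (z * s) ≤ h i * qN z := mul_le_mul_of_nonneg_left hle h0
          have h3 : 0 ≤ h i * qN (z * s) := mul_nonneg h0 hqs
          nlinarith

section meas

variable [MeasurableSpace G] [BorelSpace G] {μ : Measure G} [IsProbabilityMeasure μ]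
  [μ.IsMulLeftInvariant] [μ.IsMulRightInvariant] [μ.IsInvInvariant]

/-- **the limit of the integrals of invariant functions** -/
theorem SDS.int_lim [l.IsCountablyGenerated] (H : SDS B hG S0 l h f F) :
    Tendsto (fun i => (∫ z, f i z ∂(μE μ E)) / nz μ (h i) ^ Fintype.card E) l
      (𝓝 ((Fintype.card S0 : ℝ) * ((∫ x, F x) / (∫ x, gs (n := n) x) ^ Fintype.card E))) := by
  have hcomp : CompactSpace G := isCompact_iff_compactSpace.1 hG.isCompact
  have h00 : SecondCountableTopology (UN N) := TopologicalSpace.Subtype.secondCountableTopology _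
  have hsc : SecondCountableTopology G := TopologicalSpace.Subtype.secondCountableTopology _
  have h1 := (H.toSDE.int_lim (μ := μ)).const_mul (Fintype.card S0 : ℝ)
  refine h1.congr fun i => ?_
  obtain ⟨g, hg⟩ : ∃ g : (E → G) → ℝ, g = fun z =>
    f i z * (Real.exp (-(h i * qN z)) / RR S0 (h i) z) := ⟨_, rfl⟩
  have hgc : Continuous g := by rw [hg]; exact H.toSDE.cont i
  have h2 : ∀ z, f i z = ∑ s : S0, g (z * s.1) := by
    intro z
    rw [hg]
    beta_reduce
    have h3 : ∀ s : S0, f i (z * s.1) * (Real.exp (-(h i * qN (z * s.1))) /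
        RR S0 (h i) (z * s.1)) = f i z / RR S0 (h i) z * Real.exp (-(h i * qN (z * s.1))) := by
      intro s
      rw [H.inv i z s.1 s.2, RR_inv]
      ring
    rw [Finset.sum_congr rfl fun s _ => h3 s, ← Finset.mul_sum]
    change _ = f i z / RR S0 (h i) z * RR S0 (h i) z
    rw [div_mul_cancel₀ _ (RR_pos _ _).ne']
  have h3 : ∫ z, f i z ∂(μE μ E) = (Fintype.card S0 : ℝ) * ∫ z, g z ∂(μE μ E) := by
    calc ∫ z, f i z ∂(μE μ E) = ∫ z, ∑ s : S0, g (z * s.1) ∂(μE μ E) :=
          integral_congr_ae (Eventually.of_forall h2)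
      _ = ∑ s : S0, ∫ z, g (z * s.1) ∂(μE μ E) := by
          refine integral_finsetSum _ fun s _ => int_contE ?_
          exact hgc.comp (continuous_id.mul continuous_const)
      _ = ∑ s : S0, ∫ z, g z ∂(μE μ E) := by
          refine Finset.sum_congr rfl fun s _ => ?_
          exact integral_mul_right_eq_self (μ := μE μ E) g s.1
      _ = _ := by
          rw [Finset.sum_const, Finset.card_univ, nsmul_eq_mul]
  rw [h3, ← hg]
  ring

end meas

end

end Pool.Agent.Run7.h871.LG
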