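import Mathlib
import Pool.Agent.Run7.h871.YM.Iface
import Pool.Agent.Run7.h871.YM.Sym

/-!
# The gauge transformations in the scaled coordinates
-/

open MeasureTheory Filter Matrix Pool.Agent.N991.MK Pool.Agent.N989.MK
open scoped Matrix.Norms.Frobenius Topology
open Pool.Agent.H906R3.YM Pool.Agent.W793.YM Pool.Agent.TH618.YM Pool.Agent.N984.TW
open Pool.Agent.N109.T3 (nz gs cvR)
open Pool.Agent.N839.T3

namespace Pool.Agent.Run7.h871.LG

set_option linter.unusedSectionVars false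

noncomputable section

variable {N n : ℕ} {G : Subgroup (UN N)} {B : Frame G n} {hG : IsClosed (G : Set (UN N))}
  {E Λ : Type*} [Fintype E] [Fintype Λ] {s t : E → Λ} {U0 : E → G}

/-! ### The adjoint action -/

lemma LX_pc' {A : Mat N} (hA : A ∈ Submodule.span ℝ (Set.range B.X)) : LX B (pc B A) = A := by
  induction hA using Submodule.span_induction with
  | mem A hA =>
    obtain ⟨a, rfl⟩ := hA
    unfold LX pc
    have h : ∀ b, ip (B.X b) (B.X a) = if b = a then 1 else 0 := fun b => B.orth b a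
    simp [h]
  | zero => funext i j; simp [LX, pc]
  | add A A' _ _ h h' => rw [pc_add, LX_add, h, h']
  | smul c A _ h =>
    have e : pc B (c • A) = c • pc B A := by funext a; simp [pc]
    rw [e, LX_smul, h]

lemma conj_LX_mem (g : G) (x : Fin n → ℝ) :
    mt g * LX B x * (mt g)ᴴ ∈ Submodule.span ℝ (Set.range B.X) := by
  have e : mt g * LX B x * (mt g)ᴴ = ∑ a, x a • (rhoG G g * B.X a * (rhoG G g)ᴴ) := by
    unfold LX
    rw [Finset.mul_sum, Finset.sum_mul]
    refine Finset.sum_congr rfl fun a _ => ?_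
    rw [mul_smul_comm, smul_mul_assoc]
    rfl
  rw [e]
  exact Submodule.sum_mem _ fun a _ => Submodule.smul_mem _ _ (B.conj_mem g a)

lemma LX_adc (g : G) (x : Fin n → ℝ) : LX B (adc B g x) = mt g * LX B x * (mt g)ᴴ :=
  LX_pc' (conj_LX_mem g x)

lemma adc_add (g : G) (x y : Fin n → ℝ) : adc B g (x + y) = adc B g x + adc B g y := by
  unfold adc
  rw [LX_add, mul_add, add_mul, pc_add]

lemma adc_smul (g : G) (c : ℝ) (x : Fin n → ℝ) : adc B g (c • x) = c • adc B g x := by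
  unfold adc
  rw [LX_smul, mul_smul_comm, smul_mul_assoc]
  funext a
  simp [pc]

lemma nab_add (a b : Λ → Fin n → ℝ) : nab B s t U0 (a + b) = nab B s t U0 a + nab B s t U0 b := by
  funext e
  simp only [nab, Pi.add_apply, adc_add]
  abel

lemma nab_smul (c : ℝ) (a : Λ → Fin n → ℝ) : nab B s t U0 (c • a) = c • nab B s t U0 a := by
  funext e
  simp only [nab, Pi.smul_apply, adc_smul, smul_sub]

/-- the linearised gauge transformation as a linear map -/
def nabL (B : Frame G n) (s t : E → Λ) (U0 : E → G) :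
    (Λ → Fin n → ℝ) →ₗ[ℝ] (E → Fin n → ℝ) where
  toFun := nab B s t U0
  map_add' := nab_add
  map_smul' := nab_smul

lemma nab_cont : Continuous (nab B s t U0) :=
  (nabL B s t U0).continuous_of_finiteDimensional

/-! ### Scaled limits -/

variable {κ : Type*} {L : Filter κ} {H : κ → ℝ}

lemma em_neg_inv (h : ℝ) (x : Fin n → ℝ) : (em B hG h x)⁻¹ = em B hG h (-x) := by
  unfold Pool.Agent.N839.T3.em
  rw [smul_neg, Eg_neg]

lemma mt_inv_eq (g : G) : mt g⁻¹ = (mt g)ᴴ := rfl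

lemma mt_lim_one {g : κ → G} {Y : Mat N} (hH : Tendsto H L atTop)
    (hg : Tendsto (fun k => Real.sqrt (H k) • (mt (g k) - 1)) L (𝓝 Y)) :
    Tendsto (fun k => mt (g k)) L (𝓝 1) := by
  have h1 := (inv_sqrt_zero hH).smul hg
  rw [zero_smul] at h1
  have h2 : Tendsto (fun k => mt (g k) - 1) L (𝓝 0) := by
    refine h1.congr' ?_
    filter_upwards [hH.eventually_gt_atTop 0] with k hk
    rw [smul_smul, inv_mul_cancel₀ (Real.sqrt_pos.2 hk).ne', one_smul]
  have h3 := h2.add_const 1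
  rw [zero_add] at h3
  exact h3.congr fun k => by abel

/-- the limit of a link variable -/
lemma link_lim {a b x : κ → Fin n → ℝ} {a0 b0 x0 : Fin n → ℝ} (hH : Tendsto H L atTop)
    (ha : Tendsto a L (𝓝 a0)) (hb : Tendsto b L (𝓝 b0)) (hx : Tendsto x L (𝓝 x0)) (u : G) :
    Tendsto (fun k => Real.sqrt (H k) • (mt (em B hG (H k) (a k) * (em B hG (H k) (x k) * u) *
      (em B hG (H k) (b k))⁻¹ * u⁻¹) - 1)) L (𝓝 (LX B (x0 + (a0 - adc B u b0)))) := by
  have hA := em_mt (B := B) (hG := hG) hH ha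
  have hX := em_mt (B := B) (hG := hG) hH hx
  have hB := em_mt (B := B) (hG := hG) hH hb.neg
  have hC : Tendsto (fun k => Real.sqrt (H k) • (mt (u * (em B hG (H k) (b k))⁻¹ * u⁻¹) - 1)) L
      (𝓝 (mt u * LX B (-b0) * (mt u)ᴴ)) := by
    have h1 := (hB.const_mul (mt u)).mul_const ((mt u)ᴴ)
    refine h1.congr fun k => ?_
    have e1 : mt u * (mt u)ᴴ = 1 := rhoG_unit u
    have e2 : mt (u * (em B hG (H k) (b k))⁻¹ * u⁻¹) = mt u * mt (em B hG (H k) (-(b k))) *
        (mt u)ᴴ := by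
      rw [em_neg_inv, mt_mul, mt_mul, mt_inv_eq]
    rw [e2, mul_smul_comm, smul_mul_assoc, mul_sub, sub_mul, mul_one, e1]
  have h1 := mt_lim_one hH hX
  have h2 := mt_lim_one hH hC
  have h3 := ((hA.mul (h1.mul h2)).add (hX.mul h2)).add hC
  rw [mul_one, mul_one, mul_one] at h3
  have e3 : LX B a0 + LX B x0 + mt u * LX B (-b0) * (mt u)ᴴ = LX B (x0 + (a0 - adc B u b0)) := by
    rw [← LX_adc, ← LX_add, ← LX_add]
    congr 1
    have e4 : adc B u (-b0) = -adc B u b0 := by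
      have := adc_smul (B := B) u (-1) b0
      rwa [neg_one_smul, neg_one_smul] at this
    rw [e4]
    abel
  rw [e3] at h3
  refine h3.congr fun k => ?_
  have e5 : mt (em B hG (H k) (a k) * (em B hG (H k) (x k) * u) *
      (em B hG (H k) (b k))⁻¹ * u⁻¹) = mt (em B hG (H k) (a k)) * (mt (em B hG (H k) (x k)) *
      mt (u * (em B hG (H k) (b k))⁻¹ * u⁻¹)) := by
    simp only [mt_mul, mul_assoc]
  rw [e5, smul_mul_assoc, smul_mul_assoc, ← smul_add, ← smul_add]
  congr 1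
  noncomm_ring

/-- the limit of the distance of a gauge transform to the vacuum -/
lemma gt_lim {a : κ → Λ → Fin n → ℝ} {x : κ → E → Fin n → ℝ} {a0 : Λ → Fin n → ℝ}
    {x0 : E → Fin n → ℝ} (hH : Tendsto H L atTop)
    (ha : Tendsto a L (𝓝 a0)) (hx : Tendsto x L (𝓝 x0)) :
    Tendsto (fun k => H k * qN (gt s t (emE B hG (H k) (a k)) (emE B hG (H k) (x k) * U0) * U0⁻¹))
      L (𝓝 (qE (x0 + nab B s t U0 a0))) := by
  have h1 : ∀ e, Tendsto (fun k => H k * nN (em B hG (H k) (a k (s e)) *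
      (em B hG (H k) (x k e) * U0 e) * (em B hG (H k) (a k (t e)))⁻¹ * (U0 e)⁻¹) ^ 2) L
      (𝓝 (nE (x0 e + nab B s t U0 a0 e) ^ 2)) := by
    intro e
    have h2 := link_lim (B := B) (hG := hG) hH
      ((continuous_apply (s e)).continuousAt.tendsto.comp ha)
      ((continuous_apply (t e)).continuousAt.tendsto.comp ha)
      ((continuous_apply e).continuousAt.tendsto.comp hx) (U0 e)
    have h3 := h2.norm.pow 2
    rw [norm_LX] at h3
    refine h3.congr' ?_
    filter_upwards [hH.eventually_gt_atTop 0] with k hk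
    rw [norm_smul, mul_pow, Real.norm_eq_abs, sq_abs, Real.sq_sqrt hk.le]
    rfl
  have h2 := tendsto_finsetSum Finset.univ fun e _ => h1 e
  refine h2.congr fun k => ?_
  rw [← Finset.mul_sum]
  rfl

/-- coordinates of points near the identity -/
lemma coord (B : Frame G n) (hG : IsClosed (G : Set (UN N))) {R : ℝ} (hR0 : 0 ≤ R) :
    ∃ R' H0 : ℝ, 0 ≤ R' ∧ 0 < H0 ∧ ∀ H : ℝ, H0 ≤ H → ∀ y : E → G, H * qN y ≤ R →
      ∃ x : E → Fin n → ℝ, emE B hG H x = y ∧ qE x ≤ R' := by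
  obtain ⟨r, C, hr, hC, hL1, -, -⟩ := s_L1 B hG
  have hm : 0 < min r 1 := lt_min hr one_pos
  refine ⟨(1 + C) ^ 2 * R, R / (min r 1) ^ 2 + 1, by positivity, by positivity, ?_⟩
  intro H hH z hz
  have h0 : 0 < H := lt_of_lt_of_le (by positivity) hH
  have hR : R ≤ H * (min r 1) ^ 2 := by
    have h1 : R / (min r 1) ^ 2 ≤ H := by linarith
    rwa [div_le_iff₀ (by positivity)] at h1
  have hz1 : ∀ e, nN (z e) ≤ min r 1 := by
    intro e
    have h2 : nN (z e) ^ 2 ≤ qN z :=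
      Finset.single_le_sum (f := fun e => nN (z e) ^ 2) (fun _ _ => sq_nonneg _)
        (Finset.mem_univ e)
    have h3 : H * nN (z e) ^ 2 ≤ H * (min r 1) ^ 2 :=
      (mul_le_mul_of_nonneg_left h2 h0.le).trans (hz.trans hR)
    exact (abs_le_of_sq_le_sq' (le_of_mul_le_mul_left h3 h0) hm.le).2
  have hex : ∀ e, ∃ y : Fin n → ℝ, Eg B hG y = z e ∧ nE y ≤ (1 + C) * nN (z e) := by
    intro e
    obtain ⟨y, e1, e2⟩ := hL1 (z e) ((hz1 e).trans (min_le_left _ _))
    refine ⟨y, e1, e2.trans (mul_le_mul_of_nonneg_right ?_ (nN_nonneg (z e)))⟩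
    have h4 : nN (z e) ≤ 1 := (hz1 e).trans (min_le_right _ _)
    have := mul_le_mul_of_nonneg_left h4 hC
    change 1 + C * nN (z e) ≤ 1 + C
    linarith
  choose y e1 e2 using hex
  have hsq := Real.sqrt_pos.2 h0
  refine ⟨Real.sqrt H • y, ?_, ?_⟩
  · funext e
    rw [← e1 e]
    unfold emE Pool.Agent.N839.T3.em
    rw [Pi.smul_apply, smul_smul, inv_mul_cancel₀ hsq.ne', one_smul]
  · rw [qE_smul, Real.sq_sqrt h0.le]
    have e5 : qE y ≤ (1 + C) ^ 2 * qN z := by
      unfold qE qN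
      rw [Finset.mul_sum]
      refine Finset.sum_le_sum fun e _ => ?_
      rw [← mul_pow]
      exact pow_le_pow_left₀ (nE_nonneg _) (e2 e) 2
    calc H * qE y ≤ H * ((1 + C) ^ 2 * qN z) := mul_le_mul_of_nonneg_left e5 h0.le
      _ = (1 + C) ^ 2 * (H * qN z) := by ring
      _ ≤ _ := mul_le_mul_of_nonneg_left hz (by positivity)

/-- a sequence of points which tends to the identity has, along a subsequence, scaled coordinates
which converge to a unit vector -/
lemma seq_coord (B : Frame G n) (hG : IsClosed (G : Set (UN N))) {y : ℕ → E → G}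
    (hy0 : ∀ k, 0 < qN (y k)) (hy : Tendsto (fun k => qN (y k)) atTop (𝓝 0)) :
    ∃ (φ : ℕ → ℕ) (x : ℕ → E → Fin n → ℝ) (x0 : E → Fin n → ℝ), StrictMono φ ∧
      Tendsto (fun k => (qN (y (φ k)))⁻¹) atTop atTop ∧ Tendsto x atTop (𝓝 x0) ∧ qE x0 = 1 ∧
      ∀ k, emE B hG (qN (y (φ k)))⁻¹ (x k) = y (φ k) := by
  obtain ⟨R', H0, hR', hH0, hc⟩ := coord (E := E) B hG (R := 1) zero_le_one
  have hinv : Tendsto (fun k => (qN (y k))⁻¹) atTop atTop := by
    refine tendsto_inv_nhdsGT_zero.comp ?_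
    exact tendsto_nhdsWithin_iff.2 ⟨hy, Eventually.of_forall hy0⟩
  obtain ⟨K, hK⟩ := (eventually_atTop.1 (hinv.eventually_ge_atTop H0))
  have hex : ∀ k, ∃ x : E → Fin n → ℝ, emE B hG (qN (y (k + K)))⁻¹ x = y (k + K) ∧
      qE x ≤ R' := by
    intro k
    refine hc _ (hK _ (by omega)) _ ?_
    rw [inv_mul_cancel₀ (hy0 _).ne']
  choose x hx1 hx2 using hex
  obtain ⟨x0, -, ψ, hψ, hlim⟩ := (isCompact_qE (n := n) (E := E) R').tendsto_subseq hx2
  have hmono : StrictMono fun k => ψ k + K := fun a b h => Nat.add_lt_add_right (hψ h) K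
  have hH : Tendsto (fun k => (qN (y (ψ k + K)))⁻¹) atTop atTop :=
    hinv.comp hmono.tendsto_atTop
  refine ⟨fun k => ψ k + K, fun k => x (ψ k), x0, hmono, hH, hlim, ?_, fun k => hx1 _⟩
  have h1 := emE_size (B := B) (hG := hG) hH hlim
  refine tendsto_nhds_unique h1 ?_
  refine tendsto_const_nhds.congr fun k => ?_
  change (1 : ℝ) = (qN (y (ψ k + K)))⁻¹ * qN (emE B hG (qN (y (ψ k + K)))⁻¹ (x (ψ k)))
  rw [hx1, inv_mul_cancel₀ (hy0 _).ne']

end

end Pool.Agent.Run7.h871.LG
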