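import Mathlib
import Pool.Agent.Run7.h871.YM.Loc

/-!
# Coercivity of the action and of the orbit map
-/

open MeasureTheory Filter Matrix Pool.Agent.N991.MK Pool.Agent.N989.MK
open scoped Matrix.Norms.Frobenius Topology
open Pool.Agent.H906R3.YM Pool.Agent.W793.YM Pool.Agent.TH618.YM Pool.Agent.N984.TW
open Pool.Agent.N109.T3 (nz gs cvR)
open Pool.Agent.N839.T3

namespace Pool.Agent.Run7.h871.LG

set_option linter.unusedSectionVars false

noncomputable section

variable {N n : ℕ} {G : Subgroup (UN N)} {B : Frame G n} {hG : IsClosed (G : Set (UN N))}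
  {E Λ P : Type*} [Fintype E] [Fintype Λ] [Fintype P] {s t : E → Λ} {U0 : E → G}

/-! ### The action of the gauge transformations -/

lemma gt_mul (g g' : Λ → G) (U : E → G) : gt s t (g * g') U = gt s t g (gt s t g' U) := by
  funext e
  simp only [gt, Pi.mul_apply, _root_.mul_inv_rev, mul_assoc]

lemma gt_one (U : E → G) : gt s t (1 : Λ → G) U = U := by
  funext e
  simp [gt]

lemma gt_cen {C : E → G} (hC : ∀ e (g : G), C e * g = g * C e) (g : Λ → G) (U : E → G) :
    gt s t g (C * U) = C * gt s t g U := by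
  funext e
  simp only [gt, Pi.mul_apply]
  rw [← mul_assoc, ← hC e (g (s e))]
  simp only [mul_assoc]

lemma gt_cont2 : Continuous fun p : (Λ → G) × (E → G) => gt s t p.1 p.2 := by
  refine continuous_pi fun e => ?_
  unfold gt
  have h1 : Continuous fun p : (Λ → G) × (E → G) => p.1 (s e) :=
    (continuous_apply (s e)).comp continuous_fst
  have h2 : Continuous fun p : (Λ → G) × (E → G) => p.1 (t e) :=
    (continuous_apply (t e)).comp continuous_fst
  have h3 : Continuous fun p : (Λ → G) × (E → G) => p.2 e :=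
    (continuous_apply e).comp continuous_snd
  exact (h1.mul h3).mul h2.inv

/-- the square of the distance to the vacuum -/
def qd (U0 U : E → G) : ℝ := qN (U * U0⁻¹)

lemma qd_nonneg (U : E → G) : 0 ≤ qd U0 U := qN_nonneg _

lemma qd_cont : Continuous (qd U0) := qN_cont.comp (continuous_id.mul continuous_const)

lemma norm_quot (g u : G) : nN (g * u⁻¹) = ‖mt g - mt u‖ := by
  unfold Pool.Agent.N991.MK.nN
  have h : mt (g * u⁻¹) - 1 = (mt g - mt u) * mt u⁻¹ := by
    rw [sub_mul, ← mt_mul, ← mt_mul, mul_inv_cancel, mt_one]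
  rw [h, norm_mul_unit]

lemma qd_eq (U : E → G) : qd U0 U = ∑ e, ‖mt (U e) - mt (U0 e)‖ ^ 2 := by
  unfold qd qN
  refine Finset.sum_congr rfl fun e _ => ?_
  rw [Pi.mul_apply, Pi.inv_apply, norm_quot]

lemma qd_zero {U : E → G} (h : qd U0 U = 0) : U = U0 := by
  have h1 := eq_one_of_qN h
  exact mul_inv_eq_one.1 h1

lemma qd_self : qd U0 U0 = 0 := by
  unfold qd
  rw [mul_inv_cancel]
  unfold qN
  exact Finset.sum_eq_zero fun e _ => by rw [Pi.one_apply, nN_one]; ring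

lemma gt_cont1 (U : E → G) : Continuous fun y : Λ → G => gt s t y U := by
  refine continuous_pi fun e => ?_
  change Continuous fun y : Λ → G => y (s e) * U e * (y (t e))⁻¹
  exact ((continuous_apply (s e)).mul continuous_const).mul (continuous_apply (t e)).inv

lemma gt_contU (g : Λ → G) : Continuous fun y : E → G => gt s t g y := by
  refine continuous_pi fun e => ?_
  change Continuous fun y : E → G => g (s e) * y e * (g (t e))⁻¹
  exact (continuous_const.mul (continuous_apply e)).mul continuous_const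

lemma qd_contC (C : E → G) : Continuous fun V : E → G => qd U0 (C * V) :=
  qd_cont.comp (continuous_const.mul continuous_id)

lemma qd_gt_cont1 (C U : E → G) : Continuous fun y : Λ → G => qd U0 (C * gt s t y U) :=
  (qd_contC C).comp (gt_cont1 U)

lemma qd_gt_contU (C : E → G) (g : Λ → G) : Continuous fun y : E → G => qd U0 (C * gt s t g y) :=
  (qd_contC C).comp (gt_contU g)

/-! ### The second difference -/

lemma norm_sq_sub (A C : Mat N) : ‖A - C‖ ^ 2 = ‖A‖ ^ 2 + ‖C‖ ^ 2 - 2 * ip C A := by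
  rw [norm_sq_ip, norm_sq_ip, norm_sq_ip]
  have h1 : ip (A - C) (A - C) = ip A A + ip C C - ip A C - ip C A := by
    simp only [ip_apply, conjTranspose_sub, sub_mul, mul_sub, trace_sub, Complex.sub_re]
    ring
  rw [h1, ip_comm A C]
  ring

lemma norm_mt' (g : G) : ‖mt g‖ ^ 2 = N := by
  rw [norm_sq_ip, ip_apply]
  have h : (mt g)ᴴ * mt g = 1 := rhoG_unit' g
  rw [h, trace_one]
  simp

lemma norm_mt_sqrt (g : G) : ‖mt g‖ = Real.sqrt N := by
  rw [← norm_mt' g, Real.sqrt_sq (norm_nonneg _)]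

lemma skew_id (g : G) : (mt g - 1) + (mt g - 1)ᴴ = -((mt g - 1) * (mt g - 1)ᴴ) := by
  have h : mt g * (mt g)ᴴ = 1 := rhoG_unit g
  rw [conjTranspose_sub, conjTranspose_one, sub_mul, mul_sub, mul_sub, h]
  simp only [mul_one, one_mul]
  abel

/-- the second difference of a link variable -/
lemma second_diff (g k V u : G) :
    ‖mt (g * V * k⁻¹) - mt u‖ ^ 2 + ‖mt (g⁻¹ * V * k) - mt u‖ ^ 2 ≤
      2 * ‖mt V - mt u‖ ^ 2 + 4 * Real.sqrt N * (nN g ^ 2 + nN k ^ 2) := by
  obtain ⟨a, ha⟩ : ∃ a, a = mt g - 1 := ⟨_, rfl⟩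
  obtain ⟨b, hb⟩ : ∃ b, b = mt k - 1 := ⟨_, rfl⟩
  have hna : ‖a‖ = nN g := by rw [ha]; rfl
  have hnb : ‖b‖ = nN k := by rw [hb]; rfl
  have e1 : mt (g * V * k⁻¹) + mt (g⁻¹ * V * k) - (2 : ℝ) • mt V =
      (a + aᴴ) * mt V + mt V * (b + bᴴ) + a * mt V * bᴴ + aᴴ * mt V * b := by
    have g1 : mt g = 1 + a := by rw [ha]; abel
    have g2 : mt g⁻¹ = 1 + aᴴ := by
      rw [mt_inv_eq, g1, conjTranspose_add, conjTranspose_one]
    have k1 : mt k = 1 + b := by rw [hb]; abel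
    have k2 : mt k⁻¹ = 1 + bᴴ := by
      rw [mt_inv_eq, k1, conjTranspose_add, conjTranspose_one]
    simp only [mt_mul]
    rw [g1, g2, k1, k2, two_smul]
    noncomm_ring
  have e2 : a + aᴴ = -(a * aᴴ) := by rw [ha]; exact skew_id g
  have e3 : b + bᴴ = -(b * bᴴ) := by rw [hb]; exact skew_id k
  have hK : ‖mt (g * V * k⁻¹) + mt (g⁻¹ * V * k) - (2 : ℝ) • mt V‖ ≤
      2 * (nN g ^ 2 + nN k ^ 2) := by
    rw [e1, e2, e3]
    have n1 : ‖-(a * aᴴ) * mt V‖ ≤ nN g ^ 2 := by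
      rw [norm_mul_unit, norm_neg]
      refine (norm_mul_le _ _).trans ?_
      rw [norm_ct, hna, sq]
    have n2 : ‖mt V * -(b * bᴴ)‖ ≤ nN k ^ 2 := by
      rw [norm_mt_mul, norm_neg]
      refine (norm_mul_le _ _).trans ?_
      rw [norm_ct, hnb, sq]
    have n3 : ‖a * mt V * bᴴ‖ ≤ nN g * nN k := by
      refine (norm_mul_le _ _).trans ?_
      rw [norm_mul_unit, norm_ct, hna, hnb]
    have n4 : ‖aᴴ * mt V * b‖ ≤ nN g * nN k := by
      refine (norm_mul_le _ _).trans ?_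
      rw [norm_mul_unit, norm_ct, hna, hnb]
    have h1 := norm_add_le (-(a * aᴴ) * mt V + mt V * -(b * bᴴ) + a * mt V * bᴴ) (aᴴ * mt V * b)
    have h2 := norm_add_le (-(a * aᴴ) * mt V + mt V * -(b * bᴴ)) (a * mt V * bᴴ)
    have h3 := norm_add_le (-(a * aᴴ) * mt V) (mt V * -(b * bᴴ))
    have h4 : 2 * (nN g * nN k) ≤ nN g ^ 2 + nN k ^ 2 := by nlinarith [sq_nonneg (nN g - nN k)]
    linarith
  have h5 : -(2 * ip (mt u) (mt (g * V * k⁻¹) + mt (g⁻¹ * V * k) - (2 : ℝ) • mt V)) ≤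
      4 * Real.sqrt N * (nN g ^ 2 + nN k ^ 2) := by
    have h6 := neg_abs_le (ip (mt u) (mt (g * V * k⁻¹) + mt (g⁻¹ * V * k) - (2 : ℝ) • mt V))
    have h7 := abs_ip_le (mt u) (mt (g * V * k⁻¹) + mt (g⁻¹ * V * k) - (2 : ℝ) • mt V)
    rw [norm_mt_sqrt] at h7
    have h8 := mul_le_mul_of_nonneg_left hK (Real.sqrt_nonneg (N : ℝ))
    linarith
  rw [norm_sq_sub, norm_sq_sub, norm_sq_sub (mt V), norm_mt', norm_mt', norm_mt', norm_mt']
  rw [map_sub, map_add, map_smul, smul_eq_mul] at h5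
  linarith

/-- the second difference of the distance to the vacuum -/
lemma second_diffE (g : Λ → G) (V : E → G) :
    qd U0 (gt s t g V) + qd U0 (gt s t g⁻¹ V) ≤
      2 * qd U0 V + 8 * Real.sqrt N * Fintype.card E * qN g := by
  rw [qd_eq, qd_eq, qd_eq, ← Finset.sum_add_distrib, Finset.mul_sum]
  have h1 : ∀ y : Λ, nN (g y) ^ 2 ≤ qN g := fun y =>
    Finset.single_le_sum (f := fun e => nN (g e) ^ 2) (fun _ _ => sq_nonneg _) (Finset.mem_univ y)
  have h2 : ∀ e, ‖mt (gt s t g V e) - mt (U0 e)‖ ^ 2 + ‖mt (gt s t g⁻¹ V e) - mt (U0 e)‖ ^ 2 ≤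
      2 * ‖mt (V e) - mt (U0 e)‖ ^ 2 + 8 * Real.sqrt N * qN g := by
    intro e
    have h3 := second_diff (g (s e)) (g (t e)) (V e) (U0 e)
    have h4 : gt s t g⁻¹ V e = (g (s e))⁻¹ * V e * g (t e) := by
      simp [gt]
    have h5 : 4 * Real.sqrt N * (nN (g (s e)) ^ 2 + nN (g (t e)) ^ 2) ≤
        4 * Real.sqrt N * (qN g + qN g) :=
      mul_le_mul_of_nonneg_left (add_le_add (h1 _) (h1 _)) (by positivity)
    rw [h4]
    change ‖mt (g (s e) * V e * (g (t e))⁻¹) - mt (U0 e)‖ ^ 2 + _ ≤ _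
    linarith
  refine (Finset.sum_le_sum fun e _ => h2 e).trans (le_of_eq ?_)
  rw [Finset.sum_add_distrib, Finset.sum_const, Finset.card_univ, nsmul_eq_mul]
  ring

/-! ### Linear algebra -/

lemma qE_eq_ip {K : Type*} [Fintype K] (x : K → Fin n → ℝ) : qE x = ipE x x := by
  unfold qE ipE
  refine Finset.sum_congr rfl fun k _ => ?_
  rw [Pool.Agent.N991.MK.nE_sq]
  exact Finset.sum_congr rfl fun a _ => by ring

lemma qE_zero_iff {K : Type*} [Fintype K] {x : K → Fin n → ℝ} (h : qE x = 0) : x = 0 := by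
  rw [qE_eq_ip] at h
  unfold ipE at h
  have h1 := (Finset.sum_eq_zero_iff_of_nonneg (fun k _ => Finset.sum_nonneg fun a _ =>
    mul_self_nonneg (x k a))).1 h
  funext k a
  have h2 := (Finset.sum_eq_zero_iff_of_nonneg (fun a _ => mul_self_nonneg (x k a))).1
    (h1 k (Finset.mem_univ k)) a (Finset.mem_univ a)
  exact mul_self_eq_zero.1 h2

lemma qE_zero {K : Type*} [Fintype K] : qE (0 : K → Fin n → ℝ) = 0 := by
  unfold qE
  exact Finset.sum_eq_zero fun k _ => by rw [Pi.zero_apply, nE_zero]; ring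

lemma ipE_add_left {K : Type*} [Fintype K] (x y z : K → Fin n → ℝ) :
    ipE (x + y) z = ipE x z + ipE y z := by
  unfold ipE
  simp only [Pi.add_apply, add_mul, Finset.sum_add_distrib]

lemma ipE_comm {K : Type*} [Fintype K] (x y : K → Fin n → ℝ) : ipE x y = ipE y x := by
  unfold ipE
  simp only [mul_comm]

lemma ipE_smul_left {K : Type*} [Fintype K] (c : ℝ) (x y : K → Fin n → ℝ) :
    ipE (c • x) y = c * ipE x y := by
  unfold ipE
  simp only [Pi.smul_apply, smul_eq_mul, Finset.mul_sum, mul_assoc]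

lemma qE_add {K : Type*} [Fintype K] (x y : K → Fin n → ℝ) :
    qE (x + y) = qE x + 2 * ipE x y + qE y := by
  rw [qE_eq_ip, qE_eq_ip, qE_eq_ip, ipE_add_left, ipE_comm x (x + y), ipE_comm y (x + y),
    ipE_add_left, ipE_add_left, ipE_comm y x]
  ring

/-- a vector which is a minimum along a direction is orthogonal to it -/
lemma ip_zero_of_min {K : Type*} [Fintype K] {x y : K → Fin n → ℝ}
    (h : ∀ r : ℝ, qE x ≤ qE (x + r • y)) : ipE x y = 0 := by
  have h1 : ∀ r : ℝ, 0 ≤ r * (2 * ipE x y) + r ^ 2 * qE y := by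
    intro r
    have h2 := h r
    rw [qE_add, qE_smul, ipE_comm, ipE_smul_left, ipE_comm] at h2
    nlinarith
  by_contra hne
  have hq := qE_nonneg y
  rcases hq.eq_or_lt with hq0 | hq0
  · have h2 := h1 (-(ipE x y))
    rw [← hq0] at h2
    nlinarith [mul_self_pos.2 hne]
  · have h2 := h1 (-(ipE x y) / qE y)
    have e : -(ipE x y) / qE y * (2 * ipE x y) + (-(ipE x y) / qE y) ^ 2 * qE y =
        -(ipE x y ^ 2 / qE y) := by
      field_simp
      ring
    rw [e] at h2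
    have h3 : 0 < ipE x y ^ 2 / qE y := by positivity
    linarith

/-! ### Coercivity -/

variable {Zf : Type*} [Group Zf] [Fintype Zf] {c : Zf →* (E → G)}
    {S0 : Subgroup (Λ → G)} [Finite S0] {D : (E → Fin n → ℝ) →ₗ[ℝ] (P → Fin n → ℝ)}
    {dv : (E → Fin n → ℝ) →ₗ[ℝ] (Λ → Fin n → ℝ)} {S : (E → G) → ℝ}

lemma emE_zero (h : ℝ) : emE B hG h (0 : E → Fin n → ℝ) = 1 := by
  funext e
  unfold emE Pool.Agent.N839.T3.em
  rw [Pi.zero_apply, smul_zero, Eg_zero]
  rfl

lemma qN_one : qN (1 : E → G) = 0 := by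
  unfold qN
  exact Finset.sum_eq_zero fun e _ => by rw [Pi.one_apply, nN_one]; ring

lemma small_of_lt {u v : ℕ → ℝ} (hu : ∀ k, 0 ≤ u k) (hv : ∀ k, 0 < v k)
    (h : ∀ k, u k < 1 / ((k : ℝ) + 1) * v k) : Tendsto (fun k => (v k)⁻¹ * u k) atTop (𝓝 0) := by
  refine squeeze_zero (fun k => mul_nonneg (inv_pos.2 (hv k)).le (hu k)) (fun k => ?_)
    tendsto_one_div_add_atTop_nhds_zero_nat
  have h1 := mul_le_mul_of_nonneg_left (h k).le (inv_pos.2 (hv k)).le
  have e : (v k)⁻¹ * (1 / ((k : ℝ) + 1) * v k) = 1 / ((k : ℝ) + 1) := by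
    have := (hv k).ne'
    field_simp
  rwa [e] at h1

/-- **coercivity of the orbit map**, for one element of the finite group -/
lemma orbit_coer1 (d : Dat B hG s t U0 c S0 D dv S) (z : Zf) : ∃ c0 : ℝ, 0 < c0 ∧
    ∀ g : Λ → G, ∃ s0 ∈ S0, c0 * qN (g * s0) ≤ qd U0 (c z * gt s t g U0) := by
  have hcomp : CompactSpace G := isCompact_iff_compactSpace.1 hG.isCompact
  by_contra hcon
  push Not at hcon
  have hex : ∀ k : ℕ, ∃ g : Λ → G, ∀ s0 ∈ S0, qd U0 (c z * gt s t g U0) <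
      1 / ((k : ℝ) + 1) * qN (g * s0) := fun k => hcon _ (by positivity)
  choose g hg using hex
  have hK : ∃ K : ℝ, ∀ y : Λ → G, qN y ≤ K := by
    obtain ⟨K, hK⟩ := isCompact_univ.exists_bound_of_continuousOn
      (qN_cont (G := G) (E := Λ)).continuousOn
    exact ⟨K, fun y => (le_abs_self _).trans (hK y (Set.mem_univ _))⟩
  obtain ⟨K, hK⟩ := hK
  obtain ⟨g0, φ, hφ, hlim⟩ := CompactSpace.tendsto_subseq g
  -- the limit belongs to the stabiliser
  have hcd : Continuous fun y : Λ → G => qd U0 (c z * gt s t y U0) := qd_gt_cont1 _ _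
  have h0 : qd U0 (c z * gt s t g0 U0) = 0 := by
    have h1 : Tendsto (fun k => qd U0 (c z * gt s t (g (φ k)) U0)) atTop
        (𝓝 (qd U0 (c z * gt s t g0 U0))) := (hcd.tendsto g0).comp hlim
    have h2 : Tendsto (fun k => qd U0 (c z * gt s t (g (φ k)) U0)) atTop (𝓝 0) := by
      have h3 : Tendsto (fun k : ℕ => 1 / ((k : ℝ) + 1) * K) atTop (𝓝 (0 * K)) :=
        tendsto_one_div_add_atTop_nhds_zero_nat.mul_const K
      rw [zero_mul] at h3
      refine squeeze_zero (fun k => qd_nonneg _) (fun k => ?_) (h3.comp hφ.tendsto_atTop)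
      refine (hg (φ k) 1 (one_mem _)).le.trans ?_
      exact mul_le_mul_of_nonneg_left (hK _) (by positivity)
    exact tendsto_nhds_unique h1 h2
  have hg0 : c z * gt s t g0 U0 = U0 := qd_zero h0
  have hg0S : g0 ∈ S0 := d.stab z g0 hg0
  have hiS : g0⁻¹ ∈ S0 := inv_mem hg0S
  -- translate
  obtain ⟨y, hy⟩ : ∃ y : ℕ → Λ → G, y = fun k => g (φ k) * g0⁻¹ := ⟨_, rfl⟩
  have hy1 : ∀ k, qd U0 (gt s t (y k) U0) < 1 / ((k : ℝ) + 1) * qN (y k) := by
    intro k
    have h1 := hg (φ k) _ hiS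
    have h2 : c z * gt s t (g (φ k)) U0 = gt s t (y k) U0 := by
      have h3 : g (φ k) = y k * g0 := by rw [hy]; simp
      rw [h3, gt_mul, ← gt_cen (d.cen z), hg0]
    rw [h2] at h1
    have h4 : y k = g (φ k) * g0⁻¹ := by rw [hy]
    rw [← h4] at h1
    refine h1.trans_le (mul_le_mul_of_nonneg_right ?_ (qN_nonneg _))
    refine one_div_le_one_div_of_le (by positivity) ?_
    have := hφ.id_le k
    have h5 : (k : ℝ) ≤ φ k := by exact_mod_cast this
    linarith
  have hy0 : ∀ k, 0 < qN (y k) := by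
    intro k
    by_contra hle
    have h1 : qN (y k) = 0 := le_antisymm (not_lt.1 hle) (qN_nonneg _)
    have h2 := hy1 k
    rw [h1, mul_zero] at h2
    exact absurd h2 (not_lt.2 (qd_nonneg _))
  have hylim : Tendsto (fun k => qN (y k)) atTop (𝓝 0) := by
    have h1 : Tendsto y atTop (𝓝 1) := by
      have h2 : Tendsto (fun k => g (φ k) * g0⁻¹) atTop (𝓝 (g0 * g0⁻¹)) :=
        hlim.mul_const _
      rw [mul_inv_cancel] at h2
      rw [hy]
      exact h2
    have h2 := (qN_cont.tendsto _).comp h1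
    rw [qN_one] at h2
    exact h2
  obtain ⟨ψ, a, a0, hψ, hH, ha, ha0, hae⟩ := seq_coord B hG hy0 hylim
  have h1 := gt_lim (B := B) (hG := hG) (s := s) (t := t) (U0 := U0) hH ha
    (x := fun _ => (0 : E → Fin n → ℝ)) (x0 := 0) tendsto_const_nhds
  simp only [emE_zero, one_mul, zero_add] at h1
  have h2 : Tendsto (fun k => (qN (y (ψ k)))⁻¹ * qd U0 (gt s t (y (ψ k)) U0)) atTop (𝓝 0) :=
    (small_of_lt (fun k => qd_nonneg _) hy0 hy1).comp hψ.tendsto_atTop
  have h3 : qE (nab B s t U0 a0) = 0 := by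
    refine tendsto_nhds_unique h1 (h2.congr fun k => ?_)
    rw [hae]
    rfl
  have h4 := d.ker a0 (qE_zero_iff h3)
  rw [h4, qE_zero] at ha0
  exact zero_ne_one ha0

/-- **coercivity of the orbit map** -/
lemma orbit_coer (d : Dat B hG s t U0 c S0 D dv S) : ∃ c0 : ℝ, 0 < c0 ∧
    ∀ (z : Zf) (g : Λ → G), ∃ s0 ∈ S0, c0 * qN (g * s0) ≤ qd U0 (c z * gt s t g U0) := by
  choose c0 h1 h2 using orbit_coer1 d
  obtain ⟨z1, -, hz1⟩ := Finset.exists_min_image Finset.univ c0 ⟨1, Finset.mem_univ _⟩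
  refine ⟨c0 z1, h1 z1, fun z g => ?_⟩
  obtain ⟨s0, hs0, hs⟩ := h2 z g
  exact ⟨s0, hs0, (mul_le_mul_of_nonneg_right (hz1 z (Finset.mem_univ _)) (qN_nonneg _)).trans hs⟩

/-- a configuration which is closest to the vacuum in its orbit -/
def IsMn (s t : E → Λ) (U0 : E → G) (c : Zf →* (E → G)) (V : E → G) : Prop :=
  ∀ (z : Zf) (g : Λ → G), qd U0 V ≤ qd U0 (c z * gt s t g V)

lemma exists_mn (d : Dat B hG s t U0 c S0 D dv S) (U : E → G) :
    ∃ (z : Zf) (g : Λ → G), IsMn s t U0 c (c z * gt s t g U) := by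
  have hcomp : CompactSpace G := isCompact_iff_compactSpace.1 hG.isCompact
  have h1 : ∀ z : Zf, ∃ g : Λ → G, ∀ g' : Λ → G, qd U0 (c z * gt s t g U) ≤
      qd U0 (c z * gt s t g' U) := by
    intro z
    have hcd : Continuous fun y : Λ → G => qd U0 (c z * gt s t y U) := qd_gt_cont1 _ _
    obtain ⟨g, -, hg⟩ := isCompact_univ.exists_isMinOn (Set.univ_nonempty (α := Λ → G))
      hcd.continuousOn
    exact ⟨g, fun g' => hg (Set.mem_univ g')⟩
  choose g hg using h1
  obtain ⟨z1, -, hz1⟩ := Finset.exists_min_image Finset.univ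
    (fun z => qd U0 (c z * gt s t (g z) U)) ⟨1, Finset.mem_univ _⟩
  refine ⟨z1, g z1, fun z g' => ?_⟩
  have e : c z * gt s t g' (c z1 * gt s t (g z1) U) = c (z * z1) * gt s t (g' * g z1) U := by
    rw [gt_cen (d.cen z1), gt_mul, map_mul, mul_assoc]
  rw [e]
  exact (hz1 (z * z1) (Finset.mem_univ _)).trans (hg (z * z1) _)

/-- **coercivity of the action** -/
lemma coer (d : Dat B hG s t U0 c S0 D dv S) : ∃ c1 : ℝ, 0 < c1 ∧
    ∀ V : E → G, IsMn s t U0 c V → c1 * qd U0 V ≤ S V := by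
  have hcomp : CompactSpace G := isCompact_iff_compactSpace.1 hG.isCompact
  by_contra hcon
  push Not at hcon
  have hex : ∀ k : ℕ, ∃ V : E → G, IsMn s t U0 c V ∧ S V < 1 / ((k : ℝ) + 1) * qd U0 V :=
    fun k => hcon _ (by positivity)
  choose V hV1 hV2 using hex
  have hK : ∃ K : ℝ, ∀ y : E → G, qd U0 y ≤ K := by
    obtain ⟨K, hK⟩ := isCompact_univ.exists_bound_of_continuousOn
      (qd_cont (U0 := U0)).continuousOn
    exact ⟨K, fun y => (le_abs_self _).trans (hK y (Set.mem_univ _))⟩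
  obtain ⟨K, hK⟩ := hK
  obtain ⟨V0, φ, hφ, hlim⟩ := CompactSpace.tendsto_subseq V
  have h0 : S V0 = 0 := by
    have h1 : Tendsto (fun k => S (V (φ k))) atTop (𝓝 (S V0)) := (d.cont.tendsto V0).comp hlim
    have h2 : Tendsto (fun k => S (V (φ k))) atTop (𝓝 0) := by
      have h3 : Tendsto (fun k : ℕ => 1 / ((k : ℝ) + 1) * K) atTop (𝓝 (0 * K)) :=
        tendsto_one_div_add_atTop_nhds_zero_nat.mul_const K
      rw [zero_mul] at h3
      refine squeeze_zero (fun k => d.nonneg _) (fun k => ?_) (h3.comp hφ.tendsto_atTop)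
      refine (hV2 (φ k)).le.trans ?_
      exact mul_le_mul_of_nonneg_left (hK _) (by positivity)
    exact tendsto_nhds_unique h1 h2
  obtain ⟨z, g, hzg⟩ := d.zero V0 h0
  have hcd : Continuous fun y : E → G => qd U0 (c z * gt s t g y) := qd_gt_contU _ _
  have hq : Tendsto (fun k => qd U0 (V (φ k))) atTop (𝓝 0) := by
    have h1 : Tendsto (fun k => qd U0 (c z * gt s t g (V (φ k)))) atTop (𝓝 0) := by
      have h2 := (hcd.tendsto V0).comp hlim
      rw [hzg, qd_self] at h2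
      exact h2
    exact squeeze_zero (fun k => qd_nonneg _) (fun k => hV1 (φ k) z g) h1
  obtain ⟨y, hy⟩ : ∃ y : ℕ → E → G, y = fun k => V (φ k) * U0⁻¹ := ⟨_, rfl⟩
  have hyV : ∀ k, y k * U0 = V (φ k) := fun k => by rw [hy]; simp
  have hyq : ∀ k, qN (y k) = qd U0 (V (φ k)) := fun k => by rw [hy]; rfl
  have hy1 : ∀ k, S (V (φ k)) < 1 / ((k : ℝ) + 1) * qN (y k) := by
    intro k
    rw [hyq]
    refine (hV2 (φ k)).trans_le (mul_le_mul_of_nonneg_right ?_ (qd_nonneg _))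
    refine one_div_le_one_div_of_le (by positivity) ?_
    have := hφ.id_le k
    have h5 : (k : ℝ) ≤ φ k := by exact_mod_cast this
    linarith
  have hy0 : ∀ k, 0 < qN (y k) := by
    intro k
    by_contra hle
    have h1 : qN (y k) = 0 := le_antisymm (not_lt.1 hle) (qN_nonneg _)
    have h2 := hy1 k
    rw [h1, mul_zero] at h2
    exact absurd h2 (not_lt.2 (d.nonneg _))
  have hylim : Tendsto (fun k => qN (y k)) atTop (𝓝 0) := by
    simp only [hyq]
    exact hq
  obtain ⟨ψ, x, x0, hψ, hH, hx, hx0, hxe⟩ := seq_coord B hG hy0 hylim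
  -- the linearised curvature of `x0` vanishes
  have h1 : Tendsto (fun k => (qN (y (ψ k)))⁻¹ * S (V (φ (ψ k)))) atTop (𝓝 0) :=
    (small_of_lt (fun k => d.nonneg _) hy0 hy1).comp hψ.tendsto_atTop
  have h2 : Tendsto (fun k => (qN (y (ψ k)))⁻¹ * S (V (φ (ψ k)))) atTop
      (𝓝 (qE (D x0) / 2)) := by
    have h3 := (d.quad x0).comp (hH.prodMk hx)
    refine h3.congr fun k => ?_
    change (qN (y (ψ k)))⁻¹ * S (emE B hG (qN (y (ψ k)))⁻¹ (x k) * U0) = _
    rw [hxe, hyV]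
  have h3 : D x0 = 0 := by
    have h4 := tendsto_nhds_unique h1 h2
    exact qE_zero_iff (by linarith)
  -- `x0` is orthogonal to the gauge directions
  have h4 : ∀ a : Λ → Fin n → ℝ, qE x0 ≤ qE (x0 + nab B s t U0 a) := by
    intro a
    have h5 := gt_lim (B := B) (hG := hG) (s := s) (t := t) (U0 := U0) hH
      (a := fun _ => a) (a0 := a) tendsto_const_nhds hx
    rw [hx0]
    refine ge_of_tendsto h5 (Eventually.of_forall fun k => ?_)
    have h6 := hV1 (φ (ψ k)) 1 (emE B hG (qN (y (ψ k)))⁻¹ a)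
    rw [map_one, one_mul, ← hyq] at h6
    have h7 : emE B hG (qN (y (ψ k)))⁻¹ (x k) * U0 = V (φ (ψ k)) := by rw [hxe, hyV]
    rw [h7]
    have h8 := mul_le_mul_of_nonneg_left h6 (inv_pos.2 (hy0 (ψ k))).le
    rwa [inv_mul_cancel₀ (hy0 _).ne'] at h8
  have h5 : ∀ a : Λ → Fin n → ℝ, ipE (dv x0) a = 0 := by
    intro a
    rw [d.adj]
    refine ip_zero_of_min fun r => ?_
    have h6 := h4 (r • a)
    rwa [nab_smul] at h6
  have h6 : dv x0 = 0 := by
    have h7 := h5 (dv x0)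
    rw [← qE_eq_ip] at h7
    exact qE_zero_iff h7
  have h7 := d.nondeg x0 h3 h6
  rw [h7, qE_zero] at hx0
  exact zero_ne_one hx0

end

end Pool.Agent.Run7.h871.LG
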