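import Mathlib
import Pool.Agent.Run7.h871.YM.Coer

/-!
# The averaging over the gauge group
-/

open MeasureTheory Filter Matrix Pool.Agent.N991.MK Pool.Agent.N989.MK
open scoped Matrix.Norms.Frobenius Topology
open Pool.Agent.H906R3.YM Pool.Agent.W793.YM Pool.Agent.TH618.YM Pool.Agent.N984.TW
open Pool.Agent.N109.T3 (nz gs cvR)
open Pool.Agent.N839.T3

namespace Pool.Agent.Run7.h871.LG

set_option linter.unusedSectionVars false

noncomputable section

variable {N n : ℕ} {G : Subgroup (UN N)} {B : Frame G n} {hG : IsClosed (G : Set (UN N))}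
  {E Λ P : Type*} [Fintype E] [Fintype Λ] [Fintype P] {s t : E → Λ} {U0 : E → G}
  {Zf : Type*} [Group Zf] [Fintype Zf] {c : Zf →* (E → G)}

/-- the Gaussian weight of a transform -/
def FF (s t : E → Λ) (U0 : E → G) (c : Zf →* (E → G)) (k h : ℝ) (z : Zf) (g : Λ → G)
    (U : E → G) : ℝ := Real.exp (-(k * (h * qd U0 (c z * gt s t g U))))

lemma FF_pos (k h : ℝ) (z : Zf) (g : Λ → G) (U : E → G) : 0 < FF s t U0 c k h z g U :=
  Real.exp_pos _

lemma FF_le_one {k h : ℝ} (hk : 0 ≤ k) (hh : 0 ≤ h) (z : Zf) (g : Λ → G) (U : E → G) :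
    FF s t U0 c k h z g U ≤ 1 := by
  unfold FF
  rw [Real.exp_le_one_iff]
  have := qd_nonneg (U0 := U0) (c z * gt s t g U)
  have : 0 ≤ k * (h * qd U0 (c z * gt s t g U)) := by positivity
  linarith

lemma exp_cont (k h : ℝ) : Continuous fun r : ℝ => Real.exp (-(k * (h * r))) := by fun_prop

lemma FF_cont1 (k h : ℝ) (z : Zf) (U : E → G) : Continuous fun g => FF s t U0 c k h z g U :=
  (exp_cont k h).comp (qd_gt_cont1 _ _)

lemma FF_contU (k h : ℝ) (z : Zf) (g : Λ → G) : Continuous fun U => FF s t U0 c k h z g U :=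
  (exp_cont k h).comp (qd_gt_contU _ _)

lemma gt_contUg : Continuous fun p : (E → G) × (Λ → G) => gt s t p.2 p.1 := by
  refine continuous_pi fun e => ?_
  change Continuous fun p : (E → G) × (Λ → G) => p.2 (s e) * p.1 e * (p.2 (t e))⁻¹
  have h1 : Continuous fun p : (E → G) × (Λ → G) => p.2 (s e) :=
    (continuous_apply (s e)).comp continuous_snd
  have h2 : Continuous fun p : (E → G) × (Λ → G) => p.2 (t e) :=
    (continuous_apply (t e)).comp continuous_snd
  have h3 : Continuous fun p : (E → G) × (Λ → G) => p.1 e :=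
    (continuous_apply e).comp continuous_fst
  exact (h1.mul h3).mul h2.inv

lemma FF_cont2 (k h : ℝ) (z : Zf) :
    Continuous fun p : (E → G) × (Λ → G) => FF s t U0 c k h z p.2 p.1 := by
  have h1 : Continuous fun p : (E → G) × (Λ → G) => qd U0 (c z * gt s t p.2 p.1) :=
    (qd_contC (c z)).comp gt_contUg
  exact (exp_cont k h).comp h1

lemma FF_mul (hc : ∀ z e (g : G), c z e * g = g * c z e) (k h : ℝ) (z z' : Zf) (g g' : Λ → G)
    (U : E → G) :
    FF s t U0 c k h z g (c z' * gt s t g' U) = FF s t U0 c k h (z * z') (g * g') U := by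
  unfold FF
  rw [gt_cen (hc z'), gt_mul, map_mul, mul_assoc]

section meas

variable [MeasurableSpace G] [BorelSpace G] {μ : Measure G} [IsProbabilityMeasure μ]
  [μ.IsMulLeftInvariant] [μ.IsMulRightInvariant] [μ.IsInvInvariant] [CompactSpace G]
  [SecondCountableTopology G]

/-- the average over the group -/
def Ph (μ : Measure G) (s t : E → Λ) (U0 : E → G) (c : Zf →* (E → G)) (k h : ℝ) (U : E → G) : ℝ :=
  ∑ z : Zf, ∫ g : Λ → G, FF s t U0 c k h z g U ∂(μE μ Λ)

lemma Ph_cont (k h : ℝ) : Continuous (Ph μ s t U0 c k h) := by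
  unfold Ph
  refine continuous_finsetSum _ fun z _ => ?_
  have h1 := continuous_parametric_integral_of_continuous (μ := μE μ Λ)
    (f := fun (U : E → G) (g : Λ → G) => FF s t U0 c k h z g U) (FF_cont2 k h z)
    (isCompact_univ (X := Λ → G))
  simpa only [Measure.restrict_univ] using h1

lemma Ph_pos (k h : ℝ) (U : E → G) : 0 < Ph μ s t U0 c k h U := by
  unfold Ph
  refine Finset.sum_pos (fun z _ => ?_) ⟨1, Finset.mem_univ _⟩
  rw [integral_pos_iff_support_of_nonneg (fun g => (FF_pos k h z g U).le)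
    (int_contE (FF_cont1 k h z U))]
  have h3 : Function.support (fun g => FF s t U0 c k h z g U) = Set.univ := by
    ext g
    simp [(FF_pos k h z g U).ne']
  rw [h3, measure_univ]
  exact one_pos

lemma Ph_inv (hc : ∀ z e (g : G), c z e * g = g * c z e) (k h : ℝ) (z' : Zf) (g' : Λ → G)
    (U : E → G) : Ph μ s t U0 c k h (c z' * gt s t g' U) = Ph μ s t U0 c k h U := by
  unfold Ph
  have h1 : ∀ z : Zf, ∫ g : Λ → G, FF s t U0 c k h z g (c z' * gt s t g' U) ∂(μE μ Λ) =
      ∫ g : Λ → G, FF s t U0 c k h (z * z') g U ∂(μE μ Λ) := by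
    intro z
    rw [← integral_mul_right_eq_self (μ := μE μ Λ) (fun g => FF s t U0 c k h (z * z') g U) g']
    refine integral_congr_ae (Eventually.of_forall fun g => ?_)
    exact FF_mul hc k h z z' g g' U
  rw [Finset.sum_congr rfl fun z _ => h1 z]
  exact Fintype.sum_equiv (Equiv.mulRight z') _ _ fun z => rfl

lemma Ph_invg (hc : ∀ z e (g : G), c z e * g = g * c z e) (k h : ℝ) (g' : Λ → G)
    (U : E → G) : Ph μ s t U0 c k h (gt s t g' U) = Ph μ s t U0 c k h U := by
  have h1 := Ph_inv (μ := μ) (s := s) (t := t) (U0 := U0) hc k h 1 g' U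
  rwa [map_one, one_mul] at h1

/-- the gauge transformations preserve the integrals -/
lemma int_gt (C : E → G) (g : Λ → G) (f : (E → G) → ℝ) :
    ∫ U, f (C * gt s t g U) ∂(μE μ E) = ∫ U, f U ∂(μE μ E) := by
  have h1 : ∀ U : E → G, C * gt s t g U = (C * fun e => g (s e)) * (U * fun e => (g (t e))⁻¹) := by
    intro U
    funext e
    simp only [gt, Pi.mul_apply, mul_assoc]
  simp only [h1]
  rw [integral_mul_right_eq_self (μ := μE μ E)
    (fun U => f ((C * fun e => g (s e)) * U)) (fun e => (g (t e))⁻¹)]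
  exact integral_mul_left_eq_self (μ := μE μ E) f (C * fun e => g (s e))

/-- **the averaging identity** -/
theorem fp_id (hc : ∀ z e (g : G), c z e * g = g * c z e) (k h : ℝ) {w : (E → G) → ℝ}
    (hw : Continuous w) (hg : ∀ g U, w (gt s t g U) = w U) (hz : ∀ z U, w (c z * U) = w U) :
    ∫ U, w U ∂(μE μ E) = (Fintype.card Zf : ℝ) *
      ∫ U, w U * (Real.exp (-(k * (h * qd U0 U))) / Ph μ s t U0 c k h U) ∂(μE μ E) := by
  obtain ⟨A, hA⟩ : ∃ A : (E → G) → ℝ, A = fun U => w U / Ph μ s t U0 c k h U := ⟨_, rfl⟩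
  have hAc : Continuous A := by
    rw [hA]
    exact hw.div (Ph_cont k h) fun U => (Ph_pos k h U).ne'
  have hAi : ∀ z g U, A (c z * gt s t g U) = A U := by
    intro z g U
    rw [hA]
    change w (c z * gt s t g U) / Ph μ s t U0 c k h (c z * gt s t g U) = _
    rw [hz, hg, Ph_inv hc]
  have h1 : ∀ U, w U = ∑ z : Zf, ∫ g : Λ → G, A U * FF s t U0 c k h z g U ∂(μE μ Λ) := by
    intro U
    have h2 : ∀ z : Zf, ∫ g : Λ → G, A U * FF s t U0 c k h z g U ∂(μE μ Λ) =
        A U * ∫ g : Λ → G, FF s t U0 c k h z g U ∂(μE μ Λ) := fun z => integral_const_mul _ _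
    rw [Finset.sum_congr rfl fun z _ => h2 z, ← Finset.mul_sum, hA]
    change w U = w U / Ph μ s t U0 c k h U * Ph μ s t U0 c k h U
    rw [div_mul_cancel₀ _ (Ph_pos k h U).ne']
  have h2 : ∀ z : Zf, ∫ U, (∫ g : Λ → G, A U * FF s t U0 c k h z g U ∂(μE μ Λ)) ∂(μE μ E) =
      ∫ U, A U * Real.exp (-(k * (h * qd U0 U))) ∂(μE μ E) := by
    intro z
    have hcont : Continuous (Function.uncurry fun (U : E → G) (g : Λ → G) =>
        A U * FF s t U0 c k h z g U) :=
      (hAc.comp continuous_fst).mul (FF_cont2 k h z)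
    have hint : Integrable (Function.uncurry fun (U : E → G) (g : Λ → G) =>
        A U * FF s t U0 c k h z g U) ((μE μ E).prod (μE μ Λ)) :=
      hcont.integrable_of_hasCompactSupport (HasCompactSupport.of_compactSpace _)
    rw [integral_integral_swap hint]
    have h3 : ∀ g : Λ → G, ∫ U, A U * FF s t U0 c k h z g U ∂(μE μ E) =
        ∫ U, A U * Real.exp (-(k * (h * qd U0 U))) ∂(μE μ E) := by
      intro g
      rw [← int_gt (μ := μ) (s := s) (t := t) (c z) g
        (fun U => A U * Real.exp (-(k * (h * qd U0 U))))]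
      refine integral_congr_ae (Eventually.of_forall fun U => ?_)
      change A U * FF s t U0 c k h z g U = A (c z * gt s t g U) * _
      rw [hAi]
      rfl
    rw [integral_congr_ae (Eventually.of_forall h3), integral_const]
    simp
  calc ∫ U, w U ∂(μE μ E) =
      ∫ U, ∑ z : Zf, ∫ g : Λ → G, A U * FF s t U0 c k h z g U ∂(μE μ Λ) ∂(μE μ E) :=
        integral_congr_ae (Eventually.of_forall h1)
    _ = ∑ z : Zf, ∫ U, (∫ g : Λ → G, A U * FF s t U0 c k h z g U ∂(μE μ Λ)) ∂(μE μ E) := by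
        refine integral_finsetSum _ fun z _ => int_contE ?_
        have hcont : Continuous (Function.uncurry fun (U : E → G) (g : Λ → G) =>
            A U * FF s t U0 c k h z g U) :=
          (hAc.comp continuous_fst).mul (FF_cont2 k h z)
        have h4 := continuous_parametric_integral_of_continuous (μ := μE μ Λ) hcont
          (isCompact_univ (X := Λ → G))
        simpa only [Measure.restrict_univ] using h4
    _ = ∑ _z : Zf, ∫ U, A U * Real.exp (-(k * (h * qd U0 U))) ∂(μE μ E) :=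
        Finset.sum_congr rfl fun z _ => h2 z
    _ = (Fintype.card Zf : ℝ) * ∫ U, A U * Real.exp (-(k * (h * qd U0 U))) ∂(μE μ E) := by
        rw [Finset.sum_const, Finset.card_univ, nsmul_eq_mul]
    _ = _ := by
        congr 1
        refine integral_congr_ae (Eventually.of_forall fun U => ?_)
        rw [hA]
        beta_reduce
        ring

/-- a lower bound of the Gaussian integral -/
lemma nz_scale {k : ℝ} (hk : 0 < k) : ∃ c2 : ℝ, 0 < c2 ∧ ∀ h : ℝ, 0 < h →
    c2 * nz μ h ≤ ∫ z : G, Real.exp (-(k * h * nN z ^ 2)) ∂μ := by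
  obtain ⟨C1, hC1, h1⟩ := gauss_nz (μ := μ) (c := 1 / (4 * k)) (by positivity)
  refine ⟨C1⁻¹, inv_pos.2 hC1, fun h hh => ?_⟩
  have h2 := h1 (2 * k * h) (by positivity)
  have e1 : ∫ z : G, Real.exp (-(1 / (4 * k) * (2 * k * h * nN z ^ 2))) ∂μ = nz μ h := by
    unfold Pool.Agent.N109.T3.nz
    refine integral_congr_ae (Eventually.of_forall fun z => ?_)
    beta_reduce
    congr 1
    field_simp
    ring
  have e2 : nz μ (2 * k * h) = ∫ z : G, Real.exp (-(k * h * nN z ^ 2)) ∂μ := by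
    unfold Pool.Agent.N109.T3.nz
    refine integral_congr_ae (Eventually.of_forall fun z => ?_)
    beta_reduce
    congr 1
    ring
  rw [e1, e2] at h2
  calc C1⁻¹ * nz μ h ≤ C1⁻¹ * (C1 * ∫ z : G, Real.exp (-(k * h * nN z ^ 2)) ∂μ) :=
        mul_le_mul_of_nonneg_left h2 (inv_pos.2 hC1).le
    _ = _ := by rw [← mul_assoc, inv_mul_cancel₀ hC1.ne', one_mul]

/-- **the lower bound of the average at the points closest to the vacuum** -/
lemma Ph_lower {k : ℝ} (hk : 0 < k) : ∃ c2 : ℝ, 0 < c2 ∧ ∀ h : ℝ, 0 < h → ∀ V : E → G,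
    IsMn s t U0 c V → c2 * nz μ h ^ Fintype.card Λ * Real.exp (-(k * (h * qd U0 V))) ≤
      Ph μ s t U0 c k h V := by
  obtain ⟨K, hK⟩ : ∃ K : ℝ, K = 8 * Real.sqrt N * Fintype.card E + 1 := ⟨_, rfl⟩
  have hK0 : 0 < K := by rw [hK]; positivity
  obtain ⟨c2, hc2, h1⟩ := nz_scale (μ := μ) (k := k * K) (by positivity)
  refine ⟨c2 ^ Fintype.card Λ, by positivity, fun h hh V hV => ?_⟩
  have h2 : ∀ g : Λ → G, qd U0 (gt s t g V) ≤ qd U0 V + K * qN g := by
    intro g
    have h3 := second_diffE (U0 := U0) (s := s) (t := t) g V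
    have h4 := hV 1 g⁻¹
    rw [map_one, one_mul] at h4
    have h5 := qN_nonneg g
    rw [hK]
    linarith
  have h3 : (c2 * nz μ h) ^ Fintype.card Λ ≤ ∫ g : Λ → G, Real.exp (-(k * K * h * qN g))
      ∂(μE μ Λ) := by
    rw [int_gaussE]
    exact pow_le_pow_left₀ (mul_nonneg hc2.le (nz_pos h).le) (h1 h hh) _
  have h4 : Real.exp (-(k * (h * qd U0 V))) * ∫ g : Λ → G, Real.exp (-(k * K * h * qN g))
      ∂(μE μ Λ) ≤ ∫ g : Λ → G, FF s t U0 c k h 1 g V ∂(μE μ Λ) := by
    rw [← integral_const_mul]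
    refine integral_mono (int_contE (continuous_const.mul (cont_gaussE _)))
      (int_contE (FF_cont1 k h 1 V)) fun g => ?_
    unfold FF
    beta_reduce
    rw [map_one, one_mul, ← Real.exp_add]
    refine Real.exp_le_exp.2 ?_
    have h5 := mul_le_mul_of_nonneg_left (h2 g) (by positivity : 0 ≤ k * h)
    nlinarith
  have h5 : ∫ g : Λ → G, FF s t U0 c k h 1 g V ∂(μE μ Λ) ≤ Ph μ s t U0 c k h V := by
    unfold Ph
    exact Finset.single_le_sum (f := fun z : Zf => ∫ g : Λ → G, FF s t U0 c k h z g V ∂(μE μ Λ))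
      (fun z _ => integral_nonneg fun g => (FF_pos k h z g V).le) (Finset.mem_univ 1)
  calc c2 ^ Fintype.card Λ * nz μ h ^ Fintype.card Λ * Real.exp (-(k * (h * qd U0 V))) =
        Real.exp (-(k * (h * qd U0 V))) * (c2 * nz μ h) ^ Fintype.card Λ := by
        rw [mul_pow]; ring
    _ ≤ Real.exp (-(k * (h * qd U0 V))) * ∫ g : Λ → G, Real.exp (-(k * K * h * qN g))
      ∂(μE μ Λ) := mul_le_mul_of_nonneg_left h3 (Real.exp_pos _).le
    _ ≤ _ := h4.trans h5

end meas

end

end Pool.Agent.Run7.h871.LG
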