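import Mathlib
import Pool.Agent.Run7.h871.YM.FP

/-!
# The limit of the averages, and of the integrals
-/

open MeasureTheory Filter Matrix Pool.Agent.N991.MK Pool.Agent.N989.MK
open scoped Matrix.Norms.Frobenius Topology
open Pool.Agent.H906R3.YM Pool.Agent.W793.YM Pool.Agent.TH618.YM Pool.Agent.N984.TW
open Pool.Agent.N109.T3 (nz gs cvR)
open Pool.Agent.N839.T3

namespace Pool.Agent.Run7.h871.LG

set_option linter.unusedSectionVars false

noncomputable section

variable {N n : ℕ} {G : Subgroup (UN N)} {B : Frame G n} {hG : IsClosed (G : Set (UN N))}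
  {E Λ P : Type*} [Fintype E] [Fintype Λ] [Fintype P] {s t : E → Λ} {U0 : E → G}
  {Zf : Type*} [Group Zf] [Fintype Zf] {c : Zf →* (E → G)}
  {S0 : Subgroup (Λ → G)} [Finite S0] {D : (E → Fin n → ℝ) →ₗ[ℝ] (P → Fin n → ℝ)}
  {dv : (E → Fin n → ℝ) →ₗ[ℝ] (Λ → Fin n → ℝ)} {S : (E → G) → ℝ}
  {ι : Type*} {l : Filter ι} {h : ι → ℝ} {w : ι → (E → G) → ℝ}

/-! ### Triangle inequalities -/

lemma qd_le2 (C : E → G) (g : Λ → G) (U V : E → G) :
    qd U0 (C * gt s t g U) ≤ 2 * qd U0 (C * gt s t g V) + 2 * qN (U * V⁻¹) := by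
  rw [qd_eq, qd_eq]
  have h1 : qN (U * V⁻¹) = ∑ e, ‖mt (U e) - mt (V e)‖ ^ 2 := by
    unfold qN
    refine Finset.sum_congr rfl fun e _ => ?_
    rw [Pi.mul_apply, Pi.inv_apply, norm_quot]
  rw [h1, Finset.mul_sum, Finset.mul_sum, ← Finset.sum_add_distrib]
  refine Finset.sum_le_sum fun e _ => ?_
  have h2 : ‖mt ((C * gt s t g U) e) - mt ((C * gt s t g V) e)‖ = ‖mt (U e) - mt (V e)‖ := by
    have e1 : mt ((C * gt s t g U) e) - mt ((C * gt s t g V) e) =
        mt (C e * g (s e)) * (mt (U e) - mt (V e)) * mt (g (t e))⁻¹ := by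
      simp only [gt, Pi.mul_apply, mt_mul]
      noncomm_ring
    rw [e1, norm_mul_unit, norm_mt_mul]
  have h3 : ‖mt ((C * gt s t g U) e) - mt (U0 e)‖ ≤ ‖mt (U e) - mt (V e)‖ +
      ‖mt ((C * gt s t g V) e) - mt (U0 e)‖ := by
    rw [← h2]
    have := norm_add_le (mt ((C * gt s t g U) e) - mt ((C * gt s t g V) e))
      (mt ((C * gt s t g V) e) - mt (U0 e))
    rwa [sub_add_sub_cancel] at this
  have h4 := pow_le_pow_left₀ (norm_nonneg _) h3 2
  nlinarith [sq_nonneg (‖mt (U e) - mt (V e)‖ - ‖mt ((C * gt s t g V) e) - mt (U0 e)‖)]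

section meas

variable [MeasurableSpace G] [BorelSpace G] {μ : Measure G} [IsProbabilityMeasure μ]
  [μ.IsMulLeftInvariant] [μ.IsMulRightInvariant] [μ.IsInvInvariant]

/-- the Gaussian of the transform in the limit -/
def JJ (B : Frame G n) (s t : E → Λ) (U0 : E → G) (k : ℝ) (x : E → Fin n → ℝ) : ℝ :=
  ∫ a : Λ → Fin n → ℝ, Real.exp (-(k * qE (x + nab B s t U0 a)))

lemma cz_ne (d : Dat B hG s t U0 c S0 D dv S) {z : Zf} (hz : z ≠ 1) : c z * U0 ≠ U0 := by
  intro h
  apply hz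
  apply d.inj
  rw [map_one]
  exact mul_eq_right.1 h

/-- the averages in the scaled coordinates -/
lemma Ph_sds (d : Dat B hG s t U0 c S0 D dv S) {k : ℝ} (hk : 0 < k)
    (hh : Tendsto h l atTop) (x0 : E → Fin n → ℝ) :
    SDS B hG S0 (l ×ˢ 𝓝 x0) (fun p : ι × (E → Fin n → ℝ) => h p.1)
      (fun p g => ∑ z : Zf, FF s t U0 c k (h p.1) z g (emE B hG (h p.1) p.2 * U0))
      (fun a => Real.exp (-(k * qE (x0 + nab B s t U0 a)))) where
  top := hh.comp tendsto_fst
  cont := fun p => continuous_finsetSum _ fun z _ => FF_cont1 k _ z _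
  inv := fun p g s0 hs0 => by
    obtain ⟨z', hz'⟩ := d.act s0 hs0
    have h1 : ∀ z : Zf, FF s t U0 c k (h p.1) z (g * s0) (emE B hG (h p.1) p.2 * U0) =
        FF s t U0 c k (h p.1) (z * z'⁻¹) g (emE B hG (h p.1) p.2 * U0) := by
      intro z
      have h2 := hz' (emE B hG (h p.1) p.2 * U0)
      have h3 : gt s t s0 (emE B hG (h p.1) p.2 * U0) =
          c z'⁻¹ * (emE B hG (h p.1) p.2 * U0) := by
        rw [map_inv]
        exact eq_inv_mul_of_mul_eq h2
      have h4 : c z * gt s t (g * s0) (emE B hG (h p.1) p.2 * U0) =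
          c (z * z'⁻¹) * gt s t g (emE B hG (h p.1) p.2 * U0) := by
        rw [gt_mul, h3, gt_cen (d.cen _), ← mul_assoc, ← map_mul]
      unfold FF
      rw [h4]
    rw [Finset.sum_congr rfl fun z _ => h1 z]
    exact Fintype.sum_equiv (Equiv.mulRight z'⁻¹) _ _ fun z => rfl
  lim := fun a => by
    classical
    have hh' : Tendsto (fun q : (ι × (E → Fin n → ℝ)) × (Λ → Fin n → ℝ) => h q.1.1)
        ((l ×ˢ 𝓝 x0) ×ˢ 𝓝 a) atTop := hh.comp (tendsto_fst.comp tendsto_fst)
    have hx : Tendsto (fun q : (ι × (E → Fin n → ℝ)) × (Λ → Fin n → ℝ) => q.1.2)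
        ((l ×ˢ 𝓝 x0) ×ˢ 𝓝 a) (𝓝 x0) := tendsto_snd.comp tendsto_fst
    have ha : Tendsto (fun q : (ι × (E → Fin n → ℝ)) × (Λ → Fin n → ℝ) => q.2)
        ((l ×ˢ 𝓝 x0) ×ˢ 𝓝 a) (𝓝 a) := tendsto_snd
    have h1 : ∀ z : Zf, Tendsto (fun q : (ι × (E → Fin n → ℝ)) × (Λ → Fin n → ℝ) =>
        FF s t U0 c k (h q.1.1) z (emE B hG (h q.1.1) q.2) (emE B hG (h q.1.1) q.1.2 * U0))
        ((l ×ˢ 𝓝 x0) ×ˢ 𝓝 a)
        (𝓝 (if z = 1 then Real.exp (-(k * qE (x0 + nab B s t U0 a))) else 0)) := by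
      intro z
      by_cases hz : z = 1
      · rw [if_pos hz, hz]
        have h2 := gt_lim (B := B) (hG := hG) (s := s) (t := t) (U0 := U0) hh' ha hx
        have h3 := (Real.continuous_exp.tendsto _).comp ((h2.const_mul k).neg)
        refine h3.congr fun q => ?_
        unfold FF
        rw [map_one, one_mul]
        rfl
      · rw [if_neg hz]
        -- the distance stays away from zero
        have hd0 : 0 < qd U0 (c z * U0) := by
          refine lt_of_le_of_ne (qd_nonneg _) fun h0 => ?_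
          exact cz_ne d hz (qd_zero h0.symm)
        have h2 := gt_lim (B := B) (hG := hG) (s := s) (t := t) (U0 := U0) hh' ha hx
        have h3 : ∀ q : (ι × (E → Fin n → ℝ)) × (Λ → Fin n → ℝ), qd U0 (c z * U0) ≤
            2 * qd U0 (c z * gt s t (emE B hG (h q.1.1) q.2) (emE B hG (h q.1.1) q.1.2 * U0)) +
            2 * qd U0 (gt s t (emE B hG (h q.1.1) q.2) (emE B hG (h q.1.1) q.1.2 * U0)) := by
          intro q
          have h4 := qd_le2 (s := s) (t := t) (U0 := U0) (c z) (1 : Λ → G) U0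
            (gt s t (emE B hG (h q.1.1) q.2) (emE B hG (h q.1.1) q.1.2 * U0))
          rw [gt_one, gt_one] at h4
          have h5 : qN (U0 * (gt s t (emE B hG (h q.1.1) q.2)
              (emE B hG (h q.1.1) q.1.2 * U0))⁻¹) =
              qd U0 (gt s t (emE B hG (h q.1.1) q.2) (emE B hG (h q.1.1) q.1.2 * U0)) := by
            rw [qd_eq]
            unfold qN
            refine Finset.sum_congr rfl fun e _ => ?_
            rw [Pi.mul_apply, Pi.inv_apply, norm_quot, norm_sub_rev]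
          rwa [h5] at h4
        have h4 : Tendsto (fun q : (ι × (E → Fin n → ℝ)) × (Λ → Fin n → ℝ) =>
            k * (h q.1.1 * (qd U0 (c z * U0) / 2) - h q.1.1 * qd U0 (gt s t
              (emE B hG (h q.1.1) q.2) (emE B hG (h q.1.1) q.1.2 * U0))))
            ((l ×ˢ 𝓝 x0) ×ˢ 𝓝 a) atTop := by
          refine Tendsto.const_mul_atTop hk ?_
          have h5 : Tendsto (fun q : (ι × (E → Fin n → ℝ)) × (Λ → Fin n → ℝ) =>
              h q.1.1 * (qd U0 (c z * U0) / 2)) ((l ×ˢ 𝓝 x0) ×ˢ 𝓝 a) atTop :=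
            hh'.atTop_mul_const (by positivity)
          exact h5.atTop_add h2.neg
        have h5 := Real.tendsto_exp_neg_atTop_nhds_zero.comp h4
        refine squeeze_zero' (Eventually.of_forall fun q => (FF_pos _ _ _ _ _).le) ?_ h5
        filter_upwards [hh'.eventually_ge_atTop 0] with q hq
        unfold FF
        refine Real.exp_le_exp.2 (neg_le_neg (mul_le_mul_of_nonneg_left ?_ hk.le))
        rw [← mul_sub]
        refine mul_le_mul_of_nonneg_left ?_ hq
        have := h3 q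
        linarith
    have h2 := tendsto_finsetSum Finset.univ fun z _ => h1 z
    rw [Finset.sum_ite_eq' Finset.univ (1 : Zf)] at h2
    simpa using h2
  dom := by
    obtain ⟨c0, hc0, hoc⟩ := orbit_coer d
    obtain ⟨K, hK⟩ : ∃ K : ℝ, K = qE x0 + 1 := ⟨_, rfl⟩
    have hK0 : 0 ≤ K := by have := qE_nonneg x0; rw [hK]; linarith
    refine ⟨Fintype.card Zf * Real.exp (k * K), k * (c0 / 2), by positivity, by positivity, ?_⟩
    have hh' : Tendsto (fun p : ι × (E → Fin n → ℝ) => h p.1) (l ×ˢ 𝓝 x0) atTop :=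
      hh.comp tendsto_fst
    have hx : ∀ᶠ p : ι × (E → Fin n → ℝ) in l ×ˢ 𝓝 x0, qE p.2 ≤ K := by
      have h1 : Tendsto (fun p : ι × (E → Fin n → ℝ) => qE p.2) (l ×ˢ 𝓝 x0) (𝓝 (qE x0)) :=
        (qE_cont.tendsto x0).comp tendsto_snd
      filter_upwards [h1.eventually (ge_mem_nhds (lt_add_one _))] with p hp
      rw [hK]
      exact hp
    filter_upwards [hx, hh'.eventually_gt_atTop 0] with p hp h0 g
    obtain ⟨Fs, hFs⟩ : ∃ Fs : Finset (Λ → G), ∀ y, y ∈ Fs ↔ y ∈ S0 := by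
      have : Finite (S0 : Set (Λ → G)) := inferInstanceAs (Finite S0)
      refine ⟨(Set.toFinite (S0 : Set (Λ → G))).toFinset, fun y => ?_⟩
      rw [Set.Finite.mem_toFinset]
      rfl
    obtain ⟨s1, hs1, hmin⟩ := Finset.exists_min_image Fs (fun y => qN (g * y))
      ⟨1, (hFs 1).2 (one_mem _)⟩
    refine ⟨s1, (hFs s1).1 hs1, ?_⟩
    have h1 : ∀ z : Zf, FF s t U0 c k (h p.1) z g (emE B hG (h p.1) p.2 * U0) ≤
        Real.exp (k * K) * Real.exp (-(k * (c0 / 2) * (h p.1 * qN (g * s1)))) := by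
      intro z
      obtain ⟨s0, hs0, hs0b⟩ := hoc z g
      have h2 := hmin s0 ((hFs s0).2 hs0)
      have h3 : c0 * qN (g * s1) ≤ qd U0 (c z * gt s t g U0) :=
        (mul_le_mul_of_nonneg_left h2 hc0.le).trans hs0b
      have h4 := qd_le2 (s := s) (t := t) (U0 := U0) (c z) g U0 (emE B hG (h p.1) p.2 * U0)
      have h5 : qN (U0 * (emE B hG (h p.1) p.2 * U0)⁻¹) = qN (emE B hG (h p.1) p.2) := by
        unfold qN
        refine Finset.sum_congr rfl fun e _ => ?_
        rw [Pi.mul_apply, Pi.inv_apply, Pi.mul_apply, _root_.mul_inv_rev, mul_inv_cancel_left,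
          nN_inv]
      rw [h5] at h4
      have h6 : h p.1 * qN (emE B hG (h p.1) p.2) ≤ K := (qN_em_le h0 _).trans hp
      unfold FF
      rw [← Real.exp_add]
      refine Real.exp_le_exp.2 ?_
      have h7 : h p.1 * (c0 * qN (g * s1)) ≤ h p.1 * (2 * qd U0 (c z * gt s t g
          (emE B hG (h p.1) p.2 * U0)) + 2 * qN (emE B hG (h p.1) p.2)) :=
        mul_le_mul_of_nonneg_left (h3.trans h4) h0.le
      have h8 : h p.1 * (c0 * qN (g * s1)) ≤ 2 * (h p.1 * qd U0 (c z * gt s t g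
          (emE B hG (h p.1) p.2 * U0))) + 2 * K := by linarith
      have h9 := mul_le_mul_of_nonneg_left h8 hk.le
      linarith
    rw [abs_of_nonneg (Finset.sum_nonneg fun z _ => (FF_pos _ _ _ _ _).le)]
    refine (Finset.sum_le_sum fun z _ => h1 z).trans (le_of_eq ?_)
    rw [Finset.sum_const, Finset.card_univ, nsmul_eq_mul]
    ring

/-- **the limit of the averages** -/
theorem Ph_lim [l.IsCountablyGenerated] (d : Dat B hG s t U0 c S0 D dv S) {k : ℝ} (hk : 0 < k)
    (hh : Tendsto h l atTop) (x0 : E → Fin n → ℝ) :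
    Tendsto (fun p : ι × (E → Fin n → ℝ) =>
      Ph μ s t U0 c k (h p.1) (emE B hG (h p.1) p.2 * U0) / nz μ (h p.1) ^ Fintype.card Λ)
      (l ×ˢ 𝓝 x0)
      (𝓝 ((Nat.card S0 : ℝ) * (JJ B s t U0 k x0 / (∫ x, gs (n := n) x) ^ Fintype.card Λ))) := by
  have hcomp : CompactSpace G := isCompact_iff_compactSpace.1 hG.isCompact
  have h00 : SecondCountableTopology (UN N) := TopologicalSpace.Subtype.secondCountableTopology _
  have hsc : SecondCountableTopology G := TopologicalSpace.Subtype.secondCountableTopology _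
  have hfs : Fintype S0 := Fintype.ofFinite S0
  have h1 := (Ph_sds d hk hh x0).int_lim (μ := μ)
  rw [← Nat.card_eq_fintype_card (α := S0)] at h1
  refine h1.congr fun p => ?_
  congr 1
  unfold Ph
  exact integral_finsetSum _ fun z _ => int_contE (FF_cont1 k _ z _)

end meas

end

end Pool.Agent.Run7.h871.LG
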