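import Mathlib
import Pool.Agent.Run7.h871.YM.Lim

/-!
# The change of the gauge fixing in the Gaussian integrals
-/

open MeasureTheory Filter Matrix Pool.Agent.N991.MK Pool.Agent.N989.MK
open scoped Matrix.Norms.Frobenius Topology ENNReal
open Pool.Agent.H906R3.YM Pool.Agent.W793.YM Pool.Agent.TH618.YM Pool.Agent.N984.TW
open Pool.Agent.N109.T3 (nz gs cvR)
open Pool.Agent.N839.T3

namespace Pool.Agent.Run7.h871.LG

set_option linter.unusedSectionVars false

noncomputable section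

variable {N n : ℕ} {G : Subgroup (UN N)} {B : Frame G n} {hG : IsClosed (G : Set (UN N))}
  {E Λ P : Type*} [Fintype E] [Fintype Λ] [Fintype P] {s t : E → Λ} {U0 : E → G}

/-- abstract exchange of the gauge fixing functions, for nonnegative measurable functions -/
lemma exch {V A : Type*} [NormedAddCommGroup V] [NormedSpace ℝ V] [FiniteDimensional ℝ V]
    [MeasurableSpace V] [BorelSpace V] [NormedAddCommGroup A] [NormedSpace ℝ A]
    [FiniteDimensional ℝ A] [MeasurableSpace A] [BorelSpace A]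
    (μV : Measure V) [μV.IsAddHaarMeasure] (μA : Measure A) [μA.IsAddHaarMeasure]
    (L : A →ₗ[ℝ] V) {W φ ψ : V → ℝ≥0∞} (hW : Measurable W) (hφ : Measurable φ)
    (hψ : Measurable ψ) (hWi : ∀ x a, W (x + L a) = W x)
    {Φ Ψ : V → ℝ≥0∞} (hΦ : ∀ x, Φ x = ∫⁻ a, φ (x + L a) ∂μA)
    (hΨ : ∀ x, Ψ x = ∫⁻ a, ψ (x + L a) ∂μA) (h1 : ∀ x, Φ x ≠ 0) (h2 : ∀ x, Φ x ≠ ∞)
    (h3 : ∀ x, Ψ x ≠ 0) (h4 : ∀ x, Ψ x ≠ ∞) :
    ∫⁻ x, W x * φ x / Φ x ∂μV = ∫⁻ x, W x * ψ x / Ψ x ∂μV := by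
  have hLc : Continuous L := L.continuous_of_finiteDimensional
  have hadd : Measurable fun p : V × A => p.1 + L p.2 :=
    (continuous_fst.add (hLc.comp continuous_snd)).measurable
  have hadd' : Measurable fun p : A × V => p.2 + L p.1 :=
    (continuous_snd.add (hLc.comp continuous_fst)).measurable
  have mΦ : Measurable Φ := by
    have : Φ = fun x => ∫⁻ a, φ (x + L a) ∂μA := funext hΦ
    rw [this]
    exact Measurable.lintegral_prod_right' (f := fun p : V × A => φ (p.1 + L p.2))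
      (hφ.comp hadd)
  have mΨ : Measurable Ψ := by
    have : Ψ = fun x => ∫⁻ a, ψ (x + L a) ∂μA := funext hΨ
    rw [this]
    exact Measurable.lintegral_prod_right' (f := fun p : V × A => ψ (p.1 + L p.2))
      (hψ.comp hadd)
  have iΦ : ∀ x a, Φ (x + L a) = Φ x := by
    intro x a
    rw [hΦ, hΦ, ← lintegral_add_left_eq_self (μ := μA) (fun b => φ (x + L b)) a]
    refine lintegral_congr fun b => ?_
    rw [map_add, add_assoc]
  have iΨ : ∀ x a, Ψ (x + L a) = Ψ x := by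
    intro x a
    rw [hΨ, hΨ, ← lintegral_add_left_eq_self (μ := μA) (fun b => ψ (x + L b)) a]
    refine lintegral_congr fun b => ?_
    rw [map_add, add_assoc]
  -- the double integral
  have key : ∀ {φ ψ Φ Ψ : V → ℝ≥0∞}, Measurable φ → Measurable ψ → Measurable Φ → Measurable Ψ →
      (∀ x, Ψ x = ∫⁻ a, ψ (x + L a) ∂μA) → (∀ x, Ψ x ≠ 0) → (∀ x, Ψ x ≠ ∞) →
      ∫⁻ x, W x * φ x / Φ x ∂μV =
        ∫⁻ x, (∫⁻ a, W x * φ x * ψ (x + L a) / (Φ x * Ψ x) ∂μA) ∂μV := by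
    intro φ ψ Φ Ψ hφ hψ mΦ mΨ hΨ h3 h4
    refine lintegral_congr fun x => ?_
    have e1 : ∀ a, W x * φ x * ψ (x + L a) / (Φ x * Ψ x) =
        (W x * φ x / (Φ x * Ψ x)) * ψ (x + L a) := by
      intro a
      rw [div_eq_mul_inv, div_eq_mul_inv, mul_right_comm]
    simp only [e1]
    rw [lintegral_const_mul _ ?_, ← hΨ]
    · rw [div_eq_mul_inv, div_eq_mul_inv, ENNReal.mul_inv (Or.inr (h4 x)) (Or.inr (h3 x)),
        mul_assoc (W x * φ x), mul_assoc (Φ x)⁻¹, ENNReal.inv_mul_cancel (h3 x) (h4 x), mul_one]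
    · exact hψ.comp ((continuous_const.add hLc).measurable)
  rw [key hφ hψ mΦ mΨ hΨ h3 h4, key hψ hφ mΨ mΦ hΦ h1 h2]
  have m1 : Measurable (Function.uncurry fun (x : V) (a : A) =>
      W x * φ x * ψ (x + L a) / (Φ x * Ψ x)) := by
    refine Measurable.div ?_ ?_
    · exact ((hW.comp measurable_fst).mul (hφ.comp measurable_fst)).mul (hψ.comp hadd)
    · exact (mΦ.comp measurable_fst).mul (mΨ.comp measurable_fst)
  have m2 : Measurable (Function.uncurry fun (x : V) (a : A) =>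
      W x * ψ x * φ (x + L a) / (Ψ x * Φ x)) := by
    refine Measurable.div ?_ ?_
    · exact ((hW.comp measurable_fst).mul (hψ.comp measurable_fst)).mul (hφ.comp hadd)
    · exact (mΨ.comp measurable_fst).mul (mΦ.comp measurable_fst)
  rw [lintegral_lintegral_swap m1.aemeasurable, lintegral_lintegral_swap m2.aemeasurable]
  -- substitute `a → -a` and `x → x + L a`
  have e2 : ∫⁻ a, (∫⁻ x, W x * φ x * ψ (x + L a) / (Φ x * Ψ x) ∂μV) ∂μA =
      ∫⁻ a, (∫⁻ x, W x * φ x * ψ (x + L (-a)) / (Φ x * Ψ x) ∂μV) ∂μA :=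
    (lintegral_neg_eq_self (μ := μA)
      (fun a => ∫⁻ x, W x * φ x * ψ (x + L a) / (Φ x * Ψ x) ∂μV)).symm
  rw [e2]
  refine lintegral_congr fun a => ?_
  rw [← lintegral_add_right_eq_self (μ := μV)
    (fun x => W x * φ x * ψ (x + L (-a)) / (Φ x * Ψ x)) (L a)]
  refine lintegral_congr fun x => ?_
  rw [hWi, iΦ, iΨ, map_neg, add_neg_cancel_right]
  rw [mul_right_comm, mul_comm (Φ x)]

end

end Pool.Agent.Run7.h871.LG
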