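import Mathlib
import Pool.Agent.Run7.h871.YM.Loc

/-!
# Plaquette variables in the scaled coordinates
-/

open MeasureTheory Filter Matrix Pool.Agent.N991.MK Pool.Agent.N989.MK
open scoped Matrix.Norms.Frobenius Topology
open Pool.Agent.H906R3.YM Pool.Agent.W793.YM Pool.Agent.TH618.YM Pool.Agent.N984.TW
open Pool.Agent.N109.T3 (nz gs cvR)
open Pool.Agent.N839.T3

namespace Pool.Agent.Run7.h871.LG

set_option linter.unusedSectionVars false

noncomputable section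

variable {N n : ℕ} {G : Subgroup (UN N)} {B : Frame G n} {hG : IsClosed (G : Set (UN N))}
  {κ : Type*} {L : Filter κ} {H : κ → ℝ}

/-- matrices which tend to the identity in the scale of `1 / √ H` -/
def TL (L : Filter κ) (H : κ → ℝ) (A : κ → Mat N) (Y : Mat N) : Prop :=
  Tendsto (fun k => Real.sqrt (H k) • (A k - 1)) L (𝓝 Y)

lemma TL.one {A : κ → Mat N} {Y : Mat N} (hH : Tendsto H L atTop) (h : TL L H A Y) :
    Tendsto A L (𝓝 1) := by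
  have h1 := (inv_sqrt_zero hH).smul h
  rw [zero_smul] at h1
  have h2 : Tendsto (fun k => A k - 1) L (𝓝 0) := by
    refine h1.congr' ?_
    filter_upwards [hH.eventually_gt_atTop 0] with k hk
    rw [smul_smul, inv_mul_cancel₀ (Real.sqrt_pos.2 hk).ne', one_smul]
  have h3 := h2.add_const 1
  rw [zero_add] at h3
  exact h3.congr fun k => by abel

lemma TL.mul {A C : κ → Mat N} {Y Z : Mat N} (hH : Tendsto H L atTop) (hA : TL L H A Y)
    (hC : TL L H C Z) : TL L H (fun k => A k * C k) (Y + Z) := by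
  have h1 : Tendsto (fun k => (Real.sqrt (H k) • (A k - 1)) * C k + Real.sqrt (H k) • (C k - 1)) L
      (𝓝 (Y * 1 + Z)) := (Tendsto.mul hA (TL.one hH hC)).add hC
  rw [mul_one] at h1
  refine h1.congr fun k => ?_
  rw [smul_mul_assoc, ← smul_add]
  congr 1
  noncomm_ring

lemma TL.conj {A : κ → Mat N} {Y : Mat N} (hA : TL L H A Y) (u : G) :
    TL L H (fun k => mt u * A k * (mt u)ᴴ) (mt u * Y * (mt u)ᴴ) := by
  have h1 := (hA.const_mul (mt u)).mul_const ((mt u)ᴴ)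
  refine h1.congr fun k => ?_
  have e1 : mt u * (mt u)ᴴ = 1 := rhoG_unit u
  rw [mul_smul_comm, smul_mul_assoc, mul_sub, sub_mul, mul_one, e1]

lemma TL_em {x : κ → Fin n → ℝ} {x0 : Fin n → ℝ} (hH : Tendsto H L atTop)
    (hx : Tendsto x L (𝓝 x0)) : TL L H (fun k => mt (em B hG (H k) (x k))) (LX B x0) :=
  em_mt hH hx

lemma TL_inv {x : κ → Fin n → ℝ} {x0 : Fin n → ℝ} (hH : Tendsto H L atTop)
    (hx : Tendsto x L (𝓝 x0)) : TL L H (fun k => mt (em B hG (H k) (x k))⁻¹) (LX B (-x0)) := by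
  have h := em_mt (B := B) (hG := hG) hH hx.neg
  refine h.congr fun k => ?_
  beta_reduce
  rw [em_neg_inv]

/-- the algebra -/
lemma alg_plq {u1 u2 u3 u4 : G} {w : ℂ} (hz : w • mt (u1 * u2 * u3⁻¹ * u4⁻¹) = 1)
    (a1 a2 a3 a4 : G) : w • mt ((a1 * u1) * (a2 * u2) * (a3 * u3)⁻¹ * (a4 * u4)⁻¹) =
      mt a1 * (mt u1 * mt a2 * (mt u1)ᴴ) * (mt u4 * mt a3⁻¹ * (mt u4)ᴴ) * mt a4⁻¹ := by
  have v1 : (mt u1)ᴴ * mt u1 = 1 := rhoG_unit' u1
  have v4 : (mt u4)ᴴ * mt u4 = 1 := rhoG_unit' u4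
  have e2 : w • (mt u2 * mt u3⁻¹) = (mt u1)ᴴ * mt u4 := by
    have h5 : w • (mt u1 * (mt u2 * mt u3⁻¹) * mt u4⁻¹) = 1 := by
      rw [← hz]
      simp only [mt_mul, mul_assoc]
    have h6 : (mt u1)ᴴ * (w • (mt u1 * (mt u2 * mt u3⁻¹) * mt u4⁻¹)) * mt u4 =
        w • (mt u2 * mt u3⁻¹) := by
      rw [mul_smul_comm, smul_mul_assoc]
      congr 1
      have h7 : (mt u1)ᴴ * (mt u1 * (mt u2 * mt u3⁻¹) * mt u4⁻¹) * mt u4 =
          ((mt u1)ᴴ * mt u1) * (mt u2 * mt u3⁻¹) * (mt u4⁻¹ * mt u4) := by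
        simp only [mul_assoc]
      rw [h7, v1, one_mul, mt_inv_eq u4, v4, mul_one]
    rw [← h6, h5, mul_one]
  have e3 : (a1 * u1) * (a2 * u2) * (a3 * u3)⁻¹ * (a4 * u4)⁻¹ =
      a1 * u1 * a2 * (u2 * u3⁻¹) * a3⁻¹ * u4⁻¹ * a4⁻¹ := by group
  have e4 : ∀ X Y : Mat N, w • (X * (mt u2 * mt u3⁻¹) * Y) = X * ((mt u1)ᴴ * mt u4) * Y := by
    intro X Y
    rw [← e2, mul_smul_comm, smul_mul_assoc]
  have e5 : mt (a1 * u1 * a2 * (u2 * u3⁻¹) * a3⁻¹ * u4⁻¹ * a4⁻¹) =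
      (mt a1 * mt u1 * mt a2) * (mt u2 * mt u3⁻¹) * (mt a3⁻¹ * (mt u4)ᴴ * mt a4⁻¹) := by
    simp only [mt_mul, mt_inv_eq u4, mul_assoc]
  rw [e3, e5, e4]
  simp only [mul_assoc]

/-- the limit of a plaquette variable -/
lemma plq_lim {x1 x2 x3 x4 : κ → Fin n → ℝ} {y1 y2 y3 y4 : Fin n → ℝ}
    (hH : Tendsto H L atTop) (h1 : Tendsto x1 L (𝓝 y1)) (h2 : Tendsto x2 L (𝓝 y2))
    (h3 : Tendsto x3 L (𝓝 y3)) (h4 : Tendsto x4 L (𝓝 y4)) {u1 u2 u3 u4 : G} {w : ℂ}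
    (hz : w • mt (u1 * u2 * u3⁻¹ * u4⁻¹) = 1) :
    TL L H (fun k => w • mt ((em B hG (H k) (x1 k) * u1) * (em B hG (H k) (x2 k) * u2) *
      (em B hG (H k) (x3 k) * u3)⁻¹ * (em B hG (H k) (x4 k) * u4)⁻¹))
      (LX B (y1 + adc B u1 y2 - adc B u4 y3 - y4)) := by
  have a1 := TL_em (B := B) (hG := hG) hH h1
  have a2 := (TL_em (B := B) (hG := hG) hH h2).conj u1
  have a3 := (TL_inv (B := B) (hG := hG) hH h3).conj u4
  have a4 := TL_inv (B := B) (hG := hG) hH h4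
  have h := ((a1.mul hH a2).mul hH a3).mul hH a4
  have e1 : LX B y1 + mt u1 * LX B y2 * (mt u1)ᴴ + mt u4 * LX B (-y3) * (mt u4)ᴴ + LX B (-y4) =
      LX B (y1 + adc B u1 y2 - adc B u4 y3 - y4) := by
    rw [← LX_adc, ← LX_adc, ← LX_add, ← LX_add, ← LX_add]
    congr 1
    have e4 : adc B u4 (-y3) = -adc B u4 y3 := by
      have := adc_smul (B := B) u4 (-1) y3
      rwa [neg_one_smul, neg_one_smul] at this
    rw [e4]
    abel
  rw [e1] at h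
  refine h.congr fun k => ?_
  congr 2
  exact (alg_plq hz _ _ _ _).symm

end

end Pool.Agent.Run7.h871.LG
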