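import Mathlib
import Pool.Agent.Run7.h871.YM.Plq
import Pool.Agent.Run7.h630.R2.Act

/-!
# The quadratic approximation of the twisted action
-/

open MeasureTheory Filter Matrix Pool.Agent.N991.MK Pool.Agent.N989.MK
open scoped Matrix.Norms.Frobenius Topology
open Pool.Agent.H906R3.YM Pool.Agent.W793.YM Pool.Agent.TH618.YM Pool.Agent.N984.TW
open Pool.Agent.N109.T3 (nz gs cvR)
open Pool.Agent.N839.T3
open Pool.Agent.Run7.h630.R2 (SU SU_closed Si Lk ee plq en zeta nonbase baseE wt TwPair U0 Dc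
  Dc_apply Pq SS bmin bmin_le exists_bmin en_eq en_nonneg norm_zeta ee0 ee1 ee2 ee3 U0_zero
  U0_one U0_two U0_three)

namespace Pool.Agent.Run7.h871.LG

set_option linter.unusedSectionVars false

noncomputable section

section general

variable {N n : ℕ} {G : Subgroup (UN N)} {B : Frame G n} {hG : IsClosed (G : Set (UN N))}
  {κ : Type*} {L : Filter κ} {H : κ → ℝ}

/-- the limit of the energy of a plaquette -/
lemma en_lim {g : κ → G} {w : ℂ} (hw : ‖w‖ = 1) {y : Fin n → ℝ} (hH : Tendsto H L atTop)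
    (h : TL L H (fun k => w • mt (g k)) (LX B y)) :
    Tendsto (fun k => H k * en w (g k)) L (𝓝 (nE y ^ 2 / 2)) := by
  have h1 := (h.norm.pow 2).div_const 2
  have h2 : ‖LX B y‖ ^ 2 = nE y ^ 2 := by
    rw [norm_sq_ip, Pool.Agent.Run7.h630.R2.ip_LX, Pool.Agent.N991.MK.nE_sq]
    exact Finset.sum_congr rfl fun a _ => (sq _).symm
  rw [h2] at h1
  refine h1.congr' ?_
  filter_upwards [hH.eventually_ge_atTop 0] with k hk
  rw [en_eq hw, norm_smul, Real.norm_eq_abs, abs_of_nonneg (Real.sqrt_nonneg _), mul_pow,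
    Real.sq_sqrt hk, norm_sub_rev]
  ring

/-- the energy with the wrong twist -/
lemma en_lim_ne {g : κ → G} {w w' : ℂ} (hw : ‖w'‖ = 1) {Y : Mat N} (hH : Tendsto H L atTop)
    (hw0 : ‖w‖ = 1) (h : TL L H (fun k => w • mt (g k)) Y) :
    Tendsto (fun k => en w' (g k)) L (𝓝 (1 / 2 * ‖(1 : Mat N) - (w' * w⁻¹) • (1 : Mat N)‖ ^ 2)) := by
  have h1 := h.one hH
  have h2 : Tendsto (fun k => 1 / 2 * ‖1 - w' • mt (g k)‖ ^ 2) L
      (𝓝 (1 / 2 * ‖(1 : Mat N) - (w' * w⁻¹) • (1 : Mat N)‖ ^ 2)) := by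
    refine (((tendsto_const_nhds.sub (h1.const_smul (w' * w⁻¹))).norm.pow 2).const_mul
      (1 / 2)).congr fun k => ?_
    have hne : w ≠ 0 := by
      intro h0; rw [h0] at hw0; simp at hw0
    rw [smul_smul, mul_assoc, inv_mul_cancel₀ hne, mul_one]
  exact h2.congr fun k => (en_eq hw _).symm

end general

section model

variable {N n : ℕ} [NeZero N] {B : Frame (SU N) n} {a b l : ℕ} [NeZero a] [NeZero b] [NeZero l]
  {P Q : SU N} {k : ℕ}

/-- the flux -/
def fx (N k : ℕ) (x : Si a b l) (i j : Fin 4) : ℂ :=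
  if i = 2 ∧ j = 3 ∧ x.2 = 0 then zeta N ^ k else 1

lemma fx_norm (x : Si a b l) (i j : Fin 4) : ‖fx N k x i j‖ = 1 := by
  unfold fx
  split_ifs
  · exact norm_zeta k
  · simp

lemma U0_plq (hPQ : TwPair N (zeta N ^ k) P Q) (x : Si a b l) {i j : Fin 4} (hij : i < j) :
    fx N k x i j • mt (plq (U0 P Q) x i j) = 1 := by
  obtain ⟨u, p, q⟩ := x
  have h4 : (i = 0 ∧ j = 1) ∨ (i = 0 ∧ j = 2) ∨ (i = 0 ∧ j = 3) ∨ (i = 1 ∧ j = 2) ∨
      (i = 1 ∧ j = 3) ∨ (i = 2 ∧ j = 3) := by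
    revert i j; decide
  have key : ∀ {i j : Fin 4}, i ≠ 2 → plq (U0 P Q) (u, p, q) i j = 1 →
      fx N k ((u, p, q) : Si a b l) i j • mt (plq (U0 P Q) (u, p, q) i j) = 1 := by
    intro i j hi h
    have : fx N k ((u, p, q) : Si a b l) i j = 1 := by
      unfold fx
      rw [if_neg]
      exact fun h => hi h.1
    rw [this, h, one_smul, mt_one]
  rcases h4 with ⟨rfl, rfl⟩ | ⟨rfl, rfl⟩ | ⟨rfl, rfl⟩ | ⟨rfl, rfl⟩ | ⟨rfl, rfl⟩ | ⟨rfl, rfl⟩
  · refine key (by decide) ?_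
    unfold Pool.Agent.Run7.h630.R2.plq
    rw [U0_zero, U0_one, U0_zero, U0_one]; simp
  · refine key (by decide) ?_
    unfold Pool.Agent.Run7.h630.R2.plq
    rw [U0_zero, U0_zero, U0_two, U0_two, ee0]; simp
  · refine key (by decide) ?_
    unfold Pool.Agent.Run7.h630.R2.plq
    rw [U0_zero, U0_zero, U0_three, U0_three, ee0]; simp
  · refine key (by decide) ?_
    unfold Pool.Agent.Run7.h630.R2.plq
    rw [U0_one, U0_one, U0_two, U0_two, ee1]; simp
  · refine key (by decide) ?_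
    unfold Pool.Agent.Run7.h630.R2.plq
    rw [U0_one, U0_one, U0_three, U0_three, ee1]; simp
  · unfold Pool.Agent.Run7.h630.R2.plq
    rw [ee2, ee3, U0_two, U0_two, U0_three, U0_three]
    by_cases hpq : p = 0 ∧ q = 0
    · obtain ⟨rfl, rfl⟩ := hpq
      have h1 : fx N k ((u, 0, 0) : Si a b l) 2 3 = zeta N ^ k := by
        unfold fx
        rw [if_pos]
        exact ⟨rfl, rfl, rfl⟩
      have h2 : ∀ A C : SU N, mt (A * C⁻¹) = mt A * (mt C)ᴴ := fun A C => by
        rw [mt_mul, Pool.Agent.Run7.h630.R2.mt_inv]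
      simp only [if_true]
      rw [h1]
      have h3 := hPQ.comm
      rw [show P * Q * P⁻¹ * Q⁻¹ = (P * Q) * (Q * P)⁻¹ by group, h2, mt_mul, mt_mul,
        ← smul_mul_assoc, ← h3]
      have h5 : mt (Q * P) * (mt (Q * P))ᴴ = 1 := rhoG_unit (Q * P)
      rw [mt_mul] at h5
      exact h5
    · have h1 : fx N k ((u, p, q) : Si a b l) 2 3 = 1 := by
        unfold fx
        rw [if_neg]
        rintro ⟨-, -, h⟩
        exact hpq ⟨congrArg Prod.fst h, congrArg Prod.snd h⟩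
      rw [h1, one_smul]
      have h2 : (if p = 0 then P else 1) * (if q = 0 then Q else 1) *
          (if p = 0 then P else 1)⁻¹ * (if q = 0 then Q else 1)⁻¹ = 1 := by
        by_cases hp : p = 0
        · have hq : q ≠ 0 := fun h => hpq ⟨hp, h⟩
          simp [hq]
        · simp [hp]
      exact (congrArg (Pool.Agent.H906R3.YM.mt) h2).trans mt_one

/-- the plaquettes of the scaled configurations -/
lemma plq_TL (hPQ : TwPair N (zeta N ^ k) P Q) (x0 : Lk a b l → Fin n → ℝ) (x : Si a b l)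
    {i j : Fin 4} (hij : i < j) :
    TL (atTop ×ˢ 𝓝 x0) (fun p : ℝ × (Lk a b l → Fin n → ℝ) => p.1)
      (fun p => fx N k x i j • mt (plq (emE B (SU_closed N) p.1 p.2 * U0 P Q) x i j))
      (LX B (Dc B P Q x0 (x, i, j))) := by
  have hc : ∀ e : Lk a b l, Tendsto (fun p : ℝ × (Lk a b l → Fin n → ℝ) => p.2 e)
      (atTop ×ˢ 𝓝 x0) (𝓝 (x0 e)) := fun e =>
    ((continuous_apply e).tendsto x0).comp tendsto_snd
  have h := plq_lim (B := B) (hG := SU_closed N) (L := atTop ×ˢ 𝓝 x0)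
    (H := fun p : ℝ × (Lk a b l → Fin n → ℝ) => p.1) tendsto_fst
    (hc (x, i)) (hc (x + ee i, j)) (hc (x + ee j, i)) (hc (x, j)) (U0_plq hPQ x hij)
  have e1 : x0 (x, i) + adc B (U0 P Q (x, i)) (x0 (x + ee i, j)) -
      adc B (U0 P Q (x, j)) (x0 (x + ee j, i)) - x0 (x, j) = Dc B P Q x0 (x, i, j) := by
    rw [Dc_apply, if_pos hij]
    show _ = (adc B (U0 P Q (x, i)) (x0 (x + ee i, j)) - x0 (x, j)) -
      (adc B (U0 P Q (x, j)) (x0 (x + ee j, i)) - x0 (x, i))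
    abel
  rw [e1] at h
  exact h

/-- the energy of the plaquettes of the scaled configurations -/
lemma plq_en (hPQ : TwPair N (zeta N ^ k) P Q) (x0 : Lk a b l → Fin n → ℝ) (x : Si a b l)
    {i j : Fin 4} (hij : i < j) :
    Tendsto (fun p : ℝ × (Lk a b l → Fin n → ℝ) =>
      p.1 * en (fx N k x i j) (plq (emE B (SU_closed N) p.1 p.2 * U0 P Q) x i j))
      (atTop ×ˢ 𝓝 x0) (𝓝 (nE (Dc B P Q x0 (x, i, j)) ^ 2 / 2)) :=
  en_lim (fx_norm x i j) tendsto_fst (plq_TL hPQ x0 x hij)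

/-- the limit of the part outside of the base -/
def qnb (B : Frame (SU N) n) (P Q : SU N) (x0 : Lk a b l → Fin n → ℝ) : ℝ :=
  ∑ x : Si a b l, (nE (Dc B P Q x0 (x, 0, 2)) ^ 2 / 2 + nE (Dc B P Q x0 (x, 0, 3)) ^ 2 / 2 +
    nE (Dc B P Q x0 (x, 1, 2)) ^ 2 / 2 + nE (Dc B P Q x0 (x, 1, 3)) ^ 2 / 2 +
    nE (Dc B P Q x0 (x, 2, 3)) ^ 2 / 2)

/-- the limit of the base part -/
def qba (B : Frame (SU N) n) (P Q : SU N) (x0 : Lk a b l → Fin n → ℝ) (u : ZMod a × ZMod b) : ℝ :=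
  ∑ y : ZMod l × ZMod l, nE (Dc B P Q x0 ((u, y), 0, 1)) ^ 2 / 2

lemma q_split (x0 : Lk a b l → Fin n → ℝ) :
    qnb B P Q x0 + ∑ u, qba B P Q x0 u = qE (Dc B P Q x0) / 2 := by
  have h0 : ∀ (x : Si a b l) (i j : Fin 4), ¬ i < j → nE (Dc B P Q x0 (x, i, j)) ^ 2 = 0 := by
    intro x i j h
    rw [Dc_apply, if_neg h, Pool.Agent.N991.MK.nE_sq]
    simp
  have e := Fintype.sum_prod_type (fun x : Si a b l => nE (Dc B P Q x0 (x, 0, 1)) ^ 2 / 2)
  have e2 := Fintype.sum_prod_type (fun e : Pq a b l => nE (Dc B P Q x0 e) ^ 2)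
  unfold qE qnb qba
  rw [← e, ← Finset.sum_add_distrib, e2, Finset.sum_div]
  refine Finset.sum_congr rfl fun x _ => ?_
  rw [Fintype.sum_prod_type]
  simp only [Fin.sum_univ_four]
  rw [h0 x 0 0 (by decide), h0 x 1 0 (by decide), h0 x 1 1 (by decide), h0 x 2 0 (by decide),
    h0 x 2 1 (by decide), h0 x 2 2 (by decide), h0 x 3 0 (by decide), h0 x 3 1 (by decide),
    h0 x 3 2 (by decide), h0 x 3 3 (by decide)]
  ring

lemma nonbase_lim (hPQ : TwPair N (zeta N ^ k) P Q) (x0 : Lk a b l → Fin n → ℝ) :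
    Tendsto (fun p : ℝ × (Lk a b l → Fin n → ℝ) =>
      p.1 * nonbase k (emE B (SU_closed N) p.1 p.2 * U0 P Q))
      (atTop ×ˢ 𝓝 x0) (𝓝 (qnb B P Q x0)) := by
  have h := tendsto_finsetSum (Finset.univ : Finset (Si a b l)) fun x _ =>
    (((((plq_en (B := B) hPQ x0 x (i := 0) (j := 2) (by decide)).add
      (plq_en (B := B) hPQ x0 x (i := 0) (j := 3) (by decide))).add
      (plq_en (B := B) hPQ x0 x (i := 1) (j := 2) (by decide))).add
      (plq_en (B := B) hPQ x0 x (i := 1) (j := 3) (by decide))).add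
      (plq_en (B := B) hPQ x0 x (i := 2) (j := 3) (by decide)))
  refine h.congr fun p => ?_
  unfold nonbase
  rw [Finset.mul_sum]
  refine Finset.sum_congr rfl fun x _ => ?_
  have f1 : ∀ (i j : Fin 4), i ≠ 2 → fx N k x i j = 1 := by
    intro i j hi
    unfold fx
    rw [if_neg]
    exact fun h => hi h.1
  have f2 : fx N k x 2 3 = if x.2 = 0 then zeta N ^ k else 1 := by
    unfold fx
    simp
  rw [f1 0 2 (by decide), f1 0 3 (by decide), f1 1 2 (by decide), f1 1 3 (by decide), f2]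
  ring

lemma base_lim (hPQ : TwPair N (zeta N ^ k) P Q) (x0 : Lk a b l → Fin n → ℝ)
    (u : ZMod a × ZMod b) :
    Tendsto (fun p : ℝ × (Lk a b l → Fin n → ℝ) =>
      p.1 * baseE 0 (emE B (SU_closed N) p.1 p.2 * U0 P Q) u)
      (atTop ×ˢ 𝓝 x0) (𝓝 (qba B P Q x0 u)) := by
  have h := tendsto_finsetSum (Finset.univ : Finset (ZMod l × ZMod l)) fun y _ =>
    (plq_en (B := B) hPQ x0 (u, y) (i := 0) (j := 1) (by decide))
  refine h.congr fun p => ?_
  unfold baseE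
  rw [Finset.mul_sum]
  refine Finset.sum_congr rfl fun y _ => ?_
  have f1 : fx N k ((u, y) : Si a b l) 0 1 = 1 := by
    unfold fx
    rw [if_neg]
    exact fun h => absurd h.1 (by decide)
  rw [f1, pow_zero]

/-- the limit of the energy with the wrong flux -/
def cba (N l : ℕ) [NeZero l] (m : ℕ) : ℝ :=
  ∑ _y : ZMod l × ZMod l, (1 / 2 * ‖(1 : Mat N) - (zeta N ^ m) • (1 : Mat N)‖ ^ 2)

lemma base_lim_ne (hPQ : TwPair N (zeta N ^ k) P Q) (x0 : Lk a b l → Fin n → ℝ)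
    (u : ZMod a × ZMod b) (m : ℕ) :
    Tendsto (fun p : ℝ × (Lk a b l → Fin n → ℝ) =>
      baseE m (emE B (SU_closed N) p.1 p.2 * U0 P Q) u)
      (atTop ×ˢ 𝓝 x0) (𝓝 (cba N l m)) := by
  unfold baseE cba
  refine tendsto_finsetSum (Finset.univ : Finset (ZMod l × ZMod l)) fun y _ => ?_
  have f1 : fx N k ((u, y) : Si a b l) 0 1 = 1 := by
    unfold fx
    rw [if_neg]
    exact fun h => absurd h.1 (by decide)
  have h := plq_TL (B := B) hPQ x0 (u, y) (i := 0) (j := 1) (by decide)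
  rw [f1] at h
  have h2 := en_lim_ne (w' := zeta N ^ m) (norm_zeta m) tendsto_fst (by simp) h
  rw [inv_one, mul_one] at h2
  exact h2

lemma cba_pos {m : ℕ} (h0 : m ≠ 0) (hm : m < N) : 0 < cba N l m := by
  unfold cba
  have h1 : (1 : Mat N) - (zeta N ^ m) • (1 : Mat N) ≠ 0 := by
    intro h
    have h2 := congrFun (congrFun h 0) 0
    rw [Matrix.sub_apply, Matrix.smul_apply, Matrix.one_apply_eq, Matrix.zero_apply, smul_eq_mul,
      mul_one, sub_eq_zero] at h2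
    have h3 : zeta N ^ m = 1 := h2.symm
    have h4 := (Complex.isPrimitiveRoot_exp N (NeZero.ne N)).dvd_of_pow_eq_one m h3
    have := Nat.le_of_dvd (Nat.pos_of_ne_zero h0) h4
    omega
  refine Finset.sum_pos (fun y _ => ?_) ⟨0, Finset.mem_univ _⟩
  have := norm_pos_iff.2 h1
  positivity

lemma base_zero (hPQ : TwPair N (zeta N ^ k) P Q) (x0 : Lk a b l → Fin n → ℝ)
    (u : ZMod a × ZMod b) :
    Tendsto (fun p : ℝ × (Lk a b l → Fin n → ℝ) =>
      baseE 0 (emE B (SU_closed N) p.1 p.2 * U0 P Q) u) (atTop ×ˢ 𝓝 x0) (𝓝 0) := by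
  have h := base_lim_ne (B := B) hPQ x0 u 0
  have h1 : cba N l 0 = 0 := by
    unfold cba
    simp
  rwa [h1] at h

lemma bmin_lim (hPQ : TwPair N (zeta N ^ k) P Q) (x0 : Lk a b l → Fin n → ℝ)
    (u : ZMod a × ZMod b) :
    Tendsto (fun p : ℝ × (Lk a b l → Fin n → ℝ) =>
      p.1 * bmin (emE B (SU_closed N) p.1 p.2 * U0 P Q) u)
      (atTop ×ˢ 𝓝 x0) (𝓝 (qba B P Q x0 u)) := by
  refine (base_lim hPQ x0 u).congr' ?_
  have h1 : ∀ m : Fin N, ∀ᶠ p : ℝ × (Lk a b l → Fin n → ℝ) in atTop ×ˢ 𝓝 x0,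
      baseE 0 (emE B (SU_closed N) p.1 p.2 * U0 P Q) u ≤
        baseE (m : ℕ) (emE B (SU_closed N) p.1 p.2 * U0 P Q) u := by
    intro m
    by_cases hm : (m : ℕ) = 0
    · rw [hm]
      exact Eventually.of_forall fun p => le_rfl
    · have hc := cba_pos (l := l) hm m.2
      have e1 := (base_zero (B := B) hPQ x0 u).eventually (gt_mem_nhds (half_pos hc))
      have e2 := (base_lim_ne (B := B) hPQ x0 u m).eventually (lt_mem_nhds (half_lt_self hc))
      filter_upwards [e1, e2] with p h3 h4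
      exact (h3.trans h4).le
  have h2 := (eventually_all.2 h1)
  filter_upwards [h2] with p hp
  congr 1
  refine le_antisymm ?_ ?_
  · unfold bmin
    exact Finset.le_inf' _ _ fun m _ => hp m
  · exact bmin_le _ u (⟨0, NeZero.pos N⟩ : Fin N)

/-- **the quadratic approximation of the lower bound of the action** -/
theorem quad (hPQ : TwPair N (zeta N ^ k) P Q) (x0 : Lk a b l → Fin n → ℝ) :
    Tendsto (fun p : ℝ × (Lk a b l → Fin n → ℝ) =>
      p.1 * SS k (emE B (SU_closed N) p.1 p.2 * U0 P Q))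
      (atTop ×ˢ 𝓝 x0) (𝓝 (qE (Dc B P Q x0) / 2)) := by
  have h := (nonbase_lim (B := B) hPQ x0).add
    (tendsto_finsetSum (Finset.univ : Finset (ZMod a × ZMod b)) fun u _ =>
      bmin_lim (B := B) hPQ x0 u)
  rw [q_split] at h
  refine h.congr fun p => ?_
  unfold SS
  rw [mul_add, Finset.mul_sum]

/-- **the limit of the weight** -/
theorem wt_lim (hPQ : TwPair N (zeta N ^ k) P Q) (x0 : Lk a b l → Fin n → ℝ) :
    Tendsto (fun p : ℝ × (Lk a b l → Fin n → ℝ) =>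
      wt k p.1 (emE B (SU_closed N) p.1 p.2 * U0 P Q))
      (atTop ×ˢ 𝓝 x0) (𝓝 (Real.exp (-(qE (Dc B P Q x0) / 2)))) := by
  have h1 : ∀ u : ZMod a × ZMod b, Tendsto (fun p : ℝ × (Lk a b l → Fin n → ℝ) =>
      ∑ m : Fin N, Real.exp (-(p.1 * baseE (m : ℕ) (emE B (SU_closed N) p.1 p.2 * U0 P Q) u)))
      (atTop ×ˢ 𝓝 x0) (𝓝 (Real.exp (-qba B P Q x0 u))) := by
    intro u
    have h2 : Real.exp (-qba B P Q x0 u) = ∑ m : Fin N,
        if (m : ℕ) = 0 then Real.exp (-qba B P Q x0 u) else 0 := by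
      rw [Finset.sum_eq_single (⟨0, NeZero.pos N⟩ : Fin N)]
      · simp
      · intro m _ hm
        rw [if_neg]
        intro h
        exact hm (Fin.ext h)
      · intro h
        exact absurd (Finset.mem_univ _) h
    rw [h2]
    refine tendsto_finsetSum _ fun m _ => ?_
    by_cases hm : (m : ℕ) = 0
    · rw [if_pos hm, hm]
      exact (Real.continuous_exp.tendsto _).comp (base_lim hPQ x0 u).neg
    · rw [if_neg hm]
      have hc := cba_pos (l := l) hm m.2
      have h3 : Tendsto (fun p : ℝ × (Lk a b l → Fin n → ℝ) =>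
          p.1 * baseE (m : ℕ) (emE B (SU_closed N) p.1 p.2 * U0 P Q) u)
          (atTop ×ˢ 𝓝 x0) atTop :=
        Tendsto.atTop_mul_pos hc tendsto_fst (base_lim_ne hPQ x0 u m)
      exact Real.tendsto_exp_atBot.comp (tendsto_neg_atTop_atBot.comp h3)
  have h := ((Real.continuous_exp.tendsto _).comp (nonbase_lim (B := B) hPQ x0).neg).mul
    (tendsto_finsetProd (Finset.univ : Finset (ZMod a × ZMod b)) fun u _ => h1 u)
  have e1 : Real.exp (-qnb B P Q x0) * ∏ u, Real.exp (-qba B P Q x0 u) =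
      Real.exp (-(qE (Dc B P Q x0) / 2)) := by
    rw [← Real.exp_sum, ← Real.exp_add, ← q_split, Finset.sum_neg_distrib, neg_add]
  rw [e1] at h
  exact h

end model

end

end Pool.Agent.Run7.h871.LG
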