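import Mathlib
import Pool.Agent.Run7.h630.R2.Pur
import Pool.Agent.Run7.h897.TW.Fib2
import Pool.Agent.Run7.h897.TW.Sc

/-!
# The criterion holds for the twisted theory at weak coupling
-/

open MeasureTheory Matrix Filter
open scoped Matrix.Norms.Frobenius Topology
open Pool.Agent.H906R3.YM Pool.Agent.W793.YM Pool.Agent.TH618.YM Pool.Agent.N984.TW
open Pool.Agent.Run7.h630.R2 (SU SU_closed en zeta nonbase baseE wt Zt TwPair La V zt_ratio
  norm_zeta en_eq zeta_pow)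
open Pool.Agent.Run7.h897.TW (Ens nbE bsE wtE ZE ZH2 ZH2_eq ZE_ex CrS rate det_sharp)
open Pool.Agent.Run7.h897.FS (BM dP)

namespace Pool.Agent.Run7.h871.TC

set_option linter.unusedSectionVars false
set_option linter.style.haveILetI false

noncomputable section

variable {N : ℕ} [NeZero N] {a b l : ℕ} [NeZero a] [NeZero b] [NeZero l] {k : ℕ}

/-- the energies of the twisted theory -/
def wE (N l k : ℕ) (β : ℝ) : Ens N l (SU N) where
  e1 g := β * en 1 g
  e2 y g := β * en (if y = 0 then zeta N ^ k else 1) g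
  e0 m g := β * en (zeta N ^ m.val) g

lemma sum_zmod (f : ℕ → ℝ) : ∑ m : ZMod N, f m.val = ∑ m : Fin N, f m := by
  obtain ⟨M, rfl⟩ := Nat.exists_eq_succ_of_ne_zero (NeZero.ne N)
  rfl

lemma nbE_eq (β : ℝ) (U : Pool.Agent.Run7.h897.TW.Lk a b l → SU N) :
    nbE (wE N l k β) U = β * nonbase k U := by
  unfold nbE nonbase
  rw [Finset.mul_sum]
  refine Finset.sum_congr rfl fun x _ => ?_
  show β * _ + β * _ + β * _ + β * _ + β * _ = _
  rw [mul_add, mul_add, mul_add, mul_add]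
  rfl

lemma bsE_eq (β : ℝ) (m : ZMod N) (U : Pool.Agent.Run7.h897.TW.Lk a b l → SU N)
    (u : ZMod a × ZMod b) : bsE (wE N l k β) m U u = β * baseE m.val U u := by
  unfold bsE baseE
  rw [Finset.mul_sum]
  rfl

lemma wtE_eq (β : ℝ) (U : Pool.Agent.Run7.h897.TW.Lk a b l → SU N) :
    wtE (wE N l k β) U = wt k β U := by
  unfold wtE wt
  rw [nbE_eq]
  congr 1
  refine Finset.prod_congr rfl fun u _ => ?_
  simp only [bsE_eq]
  exact sum_zmod fun m => Real.exp (-(β * baseE m U u))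

lemma ZE_eq_Zt [MeasurableSpace (SU N)] (μ : Measure (SU N)) (β : ℝ) :
    ZE μ (wE N l k β) a b = Zt μ l k β a b := by
  unfold ZE Pool.Agent.Run7.h630.R2.Zt
  exact integral_congr_ae (Eventually.of_forall fun U => wtE_eq β U)

/-! ### the symmetries of the energies -/

lemma en_inv (w : ℂ) (g : SU N) : en w g⁻¹ = en (star w) g := by
  unfold en
  rw [Pool.Agent.Run7.h630.R2.mt_inv, trace_sub, trace_sub, trace_smul, trace_smul,
    trace_conjTranspose, Complex.sub_re, Complex.sub_re, smul_eq_mul, smul_eq_mul]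
  congr 1
  have h := Complex.conj_re (star w * trace (mt g))
  rw [← h, map_mul]
  simp

lemma en_conj (w : ℂ) (h g : SU N) : en w (h * g * h⁻¹) = en w g := by
  unfold en
  rw [mt_mul, trace_sub, trace_sub, trace_smul, trace_smul, trace_mul_comm, ← mt_mul,
    ← mul_assoc, inv_mul_cancel, one_mul]

lemma zeta_star (m : ℕ) : star (zeta N ^ m) * zeta N ^ m = 1 := by
  have h := norm_zeta (N := N) m
  rw [mul_comm, Complex.star_def, Complex.mul_conj, Complex.normSq_eq_norm_sq, h]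
  simp

lemma zeta_neg (m : ZMod N) : star (zeta N ^ m.val) = zeta N ^ (-m).val := by
  have h1 : zeta N ^ (-m).val * zeta N ^ m.val = 1 := by
    rw [← pow_add]
    have h2 : N ∣ (-m).val + m.val := by
      rw [← ZMod.natCast_eq_zero_iff]
      push_cast
      rw [ZMod.natCast_zmod_val, ZMod.natCast_zmod_val, neg_add_cancel]
    obtain ⟨c, hc⟩ := h2
    rw [hc, pow_mul, zeta_pow, one_pow]
  have h3 := zeta_star (N := N) m.val
  have h4 : zeta N ^ m.val ≠ 0 := by
    intro h0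
    rw [h0, mul_zero] at h1
    exact zero_ne_one h1
  exact mul_right_cancel₀ h4 (h3.trans h1.symm)

lemma wE_sy (β : ℝ) : (wE N l k β).Sy where
  i1 g := by
    show β * en 1 g⁻¹ = β * en 1 g
    rw [en_inv, star_one]
  c1 h g := by
    show β * en 1 (h * g * h⁻¹) = β * en 1 g
    rw [en_conj]
  i0 m g := by
    show β * en (zeta N ^ m.val) g⁻¹ = β * en (zeta N ^ (-m).val) g
    rw [en_inv, zeta_neg]
  c0 m h g := by
    show β * en (zeta N ^ m.val) (h * g * h⁻¹) = β * en (zeta N ^ m.val) g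
    rw [en_conj]

variable [MeasurableSpace (SU N)] [BorelSpace (SU N)]

lemma en_bm (w : ℂ) (β : ℝ) : BM fun g : SU N => β * en w g := by
  have hcomp : CompactSpace (SU N) := isCompact_iff_compactSpace.1 (SU_closed N).isCompact
  have hc : Continuous fun g : SU N => β * en w g := by
    unfold en
    refine continuous_const.mul (Complex.continuous_re.comp (Continuous.matrix_trace ?_))
    exact continuous_const.sub ((mt_cont (G := SU N)).const_smul w)
  refine ⟨hc.measurable, ?_⟩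
  obtain ⟨C, hC⟩ := (isCompact_univ.image hc.abs).bddAbove
  exact ⟨C, fun g => hC ⟨g, trivial, rfl⟩⟩

lemma wE_bd (β : ℝ) : (wE N l k β).Bd where
  b1 := en_bm 1 β
  b2 _ := en_bm _ β
  b0 _ := en_bm _ β

/-! ### the criterion -/

variable (μ : Measure (SU N)) [IsProbabilityMeasure μ]
  [μ.IsMulLeftInvariant] [μ.IsMulRightInvariant] [μ.IsInvInvariant]

lemma exists_scale' {r m C : ℝ} (hm : 0 < m) (hmr : m < r) :
    ∃ a : ℕ, 1 ≤ a ∧ Real.exp (-(m * (2 * a))) ≤ 1 / 2 ∧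
      C * a * Real.exp (-r) ^ (2 * a) < 1 / 15 * Real.exp (-(m * (2 * a))) := by
  have h1 : Tendsto (fun a : ℕ => Real.exp (-(2 * m)) ^ a) atTop (𝓝 0) :=
    tendsto_pow_atTop_nhds_zero_of_lt_one (Real.exp_pos _).le
      (by rw [Real.exp_lt_one_iff]; linarith)
  have h2 : Tendsto (fun a : ℕ => C * ((a : ℝ) ^ 1 * Real.exp (-(2 * (r - m))) ^ a)) atTop
      (𝓝 (C * 0)) :=
    (tendsto_pow_const_mul_const_pow_of_abs_lt_one 1 (by
      rw [abs_of_pos (Real.exp_pos _), Real.exp_lt_one_iff]; linarith)).const_mul C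
  rw [mul_zero] at h2
  have h3 := h1.eventually (ge_mem_nhds (show (0 : ℝ) < 1 / 2 by norm_num))
  have h4 := h2.eventually (gt_mem_nhds (show (0 : ℝ) < 1 / 15 by norm_num))
  obtain ⟨a, ha1, ha2, ha3⟩ := ((eventually_ge_atTop 1).and (h3.and h4)).exists
  refine ⟨a, ha1, ?_, ?_⟩
  · rw [← Real.exp_nat_mul] at ha2
    rw [show -(m * (2 * (a : ℝ))) = a * -(2 * m) by ring]
    exact ha2
  · rw [← Real.exp_nat_mul] at ha3 ⊢
    push_cast
    have e1 : (2 * (a : ℝ)) * -r = a * -(2 * (r - m)) + -(m * (2 * a)) := by ring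
    rw [e1, Real.exp_add]
    have h5 := mul_lt_mul_of_pos_right ha3 (Real.exp_pos (-(m * (2 * a))))
    rw [pow_one] at h5
    calc C * a * (Real.exp (a * -(2 * (r - m))) * Real.exp (-(m * (2 * a))))
        = C * (a * Real.exp (a * -(2 * (r - m)))) * Real.exp (-(m * (2 * a))) := by ring
      _ < _ := h5

/-- one ratio of partition functions -/
lemma ratio_ev (hN : 2 ≤ N) {P Q : SU N} (hPQ : TwPair N (zeta N ^ k) P Q) {n : ℕ}
    (B : Frame (SU N) n) {a a' b : ℕ} [NeZero a] [NeZero a'] [NeZero b] (ha : a' = 2 * a)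
    {x : ℝ} (hx : 4 * (b * l ^ 2 * n) * Real.exp (-rate l N) ^ a < x) :
    ∀ᶠ β in atTop, 1 - Zt μ l k β a' b / Zt μ l k β a b ^ 2 ≤ x := by
  obtain ⟨h1, h2, h3⟩ := det_sharp B hN l hPQ a a' b ha
  have h4 := zt_ratio B μ l hPQ a a' b ha h1 h2
  have h5 := h4.eventually (lt_mem_nhds (show 1 - x <
    LinearMap.det (La B P Q : V a b l n →ₗ[ℝ] _) ^ 2 /
      LinearMap.det (La B P Q : V a' b l n →ₗ[ℝ] _) by linarith))
  filter_upwards [h5] with β h6
  linarith

/-- **The criterion holds at weak coupling.** -/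
theorem crit (hN : 2 ≤ N) (l : ℕ) [NeZero l] {P Q : SU N} (hPQ : TwPair N (zeta N ^ k) P Q)
    {m : ℝ} (hm : 0 < m) (hmr : m < rate l N) :
    ∃ a0 : ℕ, 1 ≤ a0 ∧ ∃ s : ℝ, 0 < s ∧ s ≤ 1 / 2 ∧ s ^ (1 / (2 * a0) : ℝ) = Real.exp (-m) ∧
      ∃ β0 : ℝ, ∀ β, β0 ≤ β → CrS μ (wE N l k β) a0 s := by
  obtain ⟨n, ⟨B⟩⟩ := exists_frame (SU_closed N)
  obtain ⟨a, ha1, ha2, ha3⟩ := exists_scale' (r := rate l N) (m := m)
    (C := 4 * (8 * l ^ 2 * n)) hm hmr
  refine ⟨a, ha1, Real.exp (-(m * (2 * a))), Real.exp_pos _, ha2, ?_, ?_⟩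
  · rw [← Real.exp_mul]
    congr 1
    have : (a : ℝ) ≠ 0 := by
      have : (1 : ℝ) ≤ a := by exact_mod_cast ha1
      linarith
    field_simp
  haveI : NeZero (2 * a) := ⟨by omega⟩
  haveI : NeZero (2 * (2 * a)) := ⟨by omega⟩
  haveI : NeZero (2 * (4 * a)) := ⟨by omega⟩
  have hE : ∀ b : ℕ, b ≤ 8 * a → 4 * ((b : ℝ) * l ^ 2 * n) * Real.exp (-rate l N) ^ (2 * a) <
      1 / 15 * Real.exp (-(m * (2 * a))) := by
    intro b hb
    refine lt_of_le_of_lt ?_ ha3
    have hb' : (b : ℝ) ≤ 8 * a := by exact_mod_cast hb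
    have h1 : 4 * ((b : ℝ) * l ^ 2 * n) ≤ 4 * (8 * l ^ 2 * n) * a := by
      have h2 : (0 : ℝ) ≤ l ^ 2 * n := by positivity
      nlinarith
    exact mul_le_mul_of_nonneg_right h1 (by positivity)
  have k1 := ratio_ev (k := k) (l := l) μ hN hPQ B (a := 2 * a) (a' := 2 * (2 * a))
    (b := 2 * (2 * a)) rfl (hE _ (by omega))
  have k2 := ratio_ev (k := k) (l := l) μ hN hPQ B (a := 2 * a) (a' := 2 * (2 * a))
    (b := 2 * (4 * a)) rfl (hE _ (by omega))
  obtain ⟨β0, hβ0⟩ := eventually_atTop.1 (k1.and k2)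
  refine ⟨β0, fun β hβ => ?_⟩
  obtain ⟨j1, j2⟩ := hβ0 β hβ
  have hb := wE_bd (N := N) (l := l) (k := k) β
  have hs := wE_sy (N := N) (l := l) (k := k) β
  have key : ∀ c : ℕ, c = 2 * a ∨ c = 4 * a → ∀ [NeZero (2 * c)],
      1 - ZE μ (wE N l k β) (2 * (2 * a)) (2 * c) / ZE μ (wE N l k β) (2 * a) (2 * c) ^ 2 ≤
        1 / 15 * Real.exp (-(m * (2 * a))) := by
    intro c hc inst
    rw [ZE_eq_Zt, ZE_eq_Zt]
    rcases hc with rfl | rfl
    · exact j1
    · exact j2
  intro i M hi hj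
  unfold dP
  fin_cases i
  · have h1 := hj 1 (by decide)
    haveI : NeZero (2 * M 1) := ⟨by omega⟩
    have e1 : ZH2 μ (wE N l k β) (Function.update M 0 (2 * a)) =
        ZE μ (wE N l k β) (2 * (2 * a)) (2 * M 1) := ZH2_eq (by simp) (by simp)
    have e2 : ZH2 μ (wE N l k β) (Function.update M 0 a) =
        ZE μ (wE N l k β) (2 * a) (2 * M 1) := ZH2_eq (by simp) (by simp)
    show 1 - ZH2 μ (wE N l k β) (Function.update M 0 (2 * a)) /
      ZH2 μ (wE N l k β) (Function.update M 0 a) ^ 2 ≤ _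
    rw [e1, e2]
    exact key _ h1
  · have h1 := hj 0 (by decide)
    haveI : NeZero (2 * M 0) := ⟨by omega⟩
    have e1 : ZH2 μ (wE N l k β) (Function.update M 1 (2 * a)) =
        ZE μ (wE N l k β) (2 * M 0) (2 * (2 * a)) := ZH2_eq (by simp) (by simp)
    have e2 : ZH2 μ (wE N l k β) (Function.update M 1 a) =
        ZE μ (wE N l k β) (2 * M 0) (2 * a) := ZH2_eq (by simp) (by simp)
    show 1 - ZH2 μ (wE N l k β) (Function.update M 1 (2 * a)) /
      ZH2 μ (wE N l k β) (Function.update M 1 a) ^ 2 ≤ _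
    rw [e1, e2, ZE_ex hb hs, ZE_ex (a := 2 * M 0) (b := 2 * a) hb hs]
    exact key _ h1

end

end Pool.Agent.Run7.h871.TC
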