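import Mathlib
import Pool.Agent.Run7.h630.R2.Rig

/-!
# Existence and uniqueness of the twisted pair in `SU(N)`
-/

open Matrix Polynomial
open scoped ComplexOrder
open Pool.Agent.H906R3.YM Pool.Agent.W793.YM Pool.Agent.TH618.YM Pool.Agent.N984.TW
open Pool.Agent.Run7.h630.R2 (SU SU_closed zeta TwPair zeta_pow norm_zeta mt_zk)

namespace Pool.Agent.Run7.h871.TP

set_option linter.unusedSectionVars false

noncomputable section

variable {N : ℕ} [NeZero N] {ω : ℂ}

/-- the characteristic polynomial of a twisted matrix -/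
lemma twist_pow (hω : IsPrimitiveRoot ω N) {A W W' : Mat N} (hW : W * W' = 1)
    (h : W * A = ω • (A * W)) (hd : A.det = 1) : A ^ N = (-1 : ℂ) ^ (N + 1) • (1 : Mat N) := by
  have hN : 0 < N := NeZero.pos N
  have h1 : ∀ x, A.charpoly.eval (ω * x) = A.charpoly.eval x := by
    intro x
    rw [Matrix.eval_charpoly, Matrix.eval_charpoly]
    have e1 : W * (Matrix.scalar (Fin N) (ω * x) - A) * W' =
        ω • (Matrix.scalar (Fin N) x - A) := by
      have e2 : ∀ c : ℂ, Matrix.scalar (Fin N) c = c • (1 : Mat N) := fun c => by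
        ext i j; simp [Matrix.one_apply, Matrix.diagonal_apply]
      rw [e2, e2, mul_sub, sub_mul, h, mul_smul_comm, mul_one, smul_mul_assoc, smul_mul_assoc,
        mul_assoc, hW, mul_one, smul_sub, smul_smul]
    have e3 := congrArg Matrix.det e1
    rw [det_mul, det_mul, det_smul, Fintype.card_fin, hω.pow_eq_one, one_mul] at e3
    have e4 : W.det * W'.det = 1 := by rw [← det_mul, hW, det_one]
    calc (Matrix.scalar (Fin N) (ω * x) - A).det =
        (W.det * W'.det) * (Matrix.scalar (Fin N) (ω * x) - A).det := by rw [e4, one_mul]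
      _ = W.det * (Matrix.scalar (Fin N) (ω * x) - A).det * W'.det := by ring
      _ = _ := e3
  have h2 : A.charpoly.comp (C ω * X) = A.charpoly := by
    refine Polynomial.funext fun x => ?_
    rw [eval_comp, eval_mul, eval_C, eval_X, h1]
  have h3 : ∀ m, A.charpoly.coeff m * ω ^ m = A.charpoly.coeff m := by
    intro m
    conv_rhs => rw [← h2]
    rw [comp_C_mul_X_coeff]
  have h4 : ∀ m, 0 < m → m < N → A.charpoly.coeff m = 0 := by
    intro m hm hm'
    have e1 : ω ^ m ≠ 1 := hω.pow_ne_one_of_pos_of_lt hm.ne' hm'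
    have e2 := h3 m
    have e3 : A.charpoly.coeff m * (ω ^ m - 1) = 0 := by rw [mul_sub, e2, mul_one, sub_self]
    rcases mul_eq_zero.1 e3 with h | h
    · exact h
    · exact absurd (sub_eq_zero.1 h) e1
  have hdeg : A.charpoly.natDegree = N := by
    rw [Matrix.charpoly_natDegree_eq_dim, Fintype.card_fin]
  have h5 : A.charpoly = X ^ N + C (A.charpoly.coeff 0) := by
    ext m
    rw [coeff_add, coeff_X_pow, coeff_C]
    rcases Nat.lt_trichotomy m N with h | h | h
    · rcases Nat.eq_zero_or_pos m with h0 | h0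
      · subst h0
        simp [hN.ne]
      · rw [h4 m h0 h, if_neg h.ne, if_neg h0.ne', add_zero]
    · subst h
      rw [if_pos rfl, if_neg hN.ne', add_zero]
      have := (Matrix.charpoly_monic A).coeff_natDegree
      rwa [hdeg] at this
    · rw [if_neg h.ne', if_neg (by omega), add_zero]
      exact coeff_eq_zero_of_natDegree_lt (by rw [hdeg]; exact h)
  have h6 : A.charpoly.coeff 0 = (-1) ^ N := by
    rw [coeff_zero_eq_eval_zero, Matrix.eval_charpoly, map_zero, zero_sub, det_neg,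
      Fintype.card_fin, hd, mul_one]
  have h7 := Matrix.aeval_self_charpoly A
  rw [h5, h6, map_add, map_pow, aeval_X, aeval_C, Algebra.algebraMap_eq_smul_one] at h7
  rw [eq_neg_of_add_eq_zero_left h7, pow_succ, mul_neg_one, neg_smul]

/-- unitary matrices can be normalised -/
lemma mkSU {A : Mat N} (hA : A * Aᴴ = 1) : ∃ (c : ℂ) (g : SU N), ‖c‖ = 1 ∧ mt g = c • A := by
  have hN : 0 < N := NeZero.pos N
  have h1 : A.det * star A.det = 1 := by
    rw [← det_conjTranspose, ← det_mul, hA, det_one]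
  have h2 : ‖A.det‖ = 1 := by
    rw [Complex.star_def, Complex.mul_conj, Complex.normSq_eq_norm_sq] at h1
    have h3 : ‖A.det‖ ^ 2 = 1 := by exact_mod_cast h1
    nlinarith [norm_nonneg A.det]
  obtain ⟨c, hc⟩ := IsAlgClosed.exists_pow_nat_eq (A.det)⁻¹ hN
  have h3 : ‖c‖ = 1 := by
    have h4 : ‖c‖ ^ N = 1 := by rw [← norm_pow, hc, norm_inv, h2, inv_one]
    exact (pow_eq_one_iff_of_nonneg (norm_nonneg c) hN.ne').1 h4
  have h5 : c * star c = 1 := by
    rw [Complex.star_def, Complex.mul_conj, Complex.normSq_eq_norm_sq, h3]; simp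
  have h6 : (c • A) * (c • A)ᴴ = 1 := by
    rw [conjTranspose_smul, smul_mul_smul_comm, hA, h5, one_smul]
  have h7 : (c • A).det = 1 := by
    rw [det_smul, Fintype.card_fin, hc, inv_mul_cancel₀]
    intro h0
    rw [h0, norm_zero] at h2
    exact zero_ne_one h2
  exact ⟨c, ⟨⟨c • A, Matrix.mem_unitaryGroup_iff.2 h6⟩, h7⟩, h3, rfl⟩

/-! ### the clock and shift matrices -/

/-- the diagonal matrix -/
def Cl (N : ℕ) (ω : ℂ) : Mat N := Matrix.diagonal fun j => ω ^ (j : ℕ)

/-- the cyclic shift -/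
def Sh (N : ℕ) [NeZero N] : Mat N := Matrix.of fun i j => if i = j + 1 then 1 else 0

lemma Sh_mul (M : Mat N) (i j : Fin N) : (Sh N * M) (i + 1) j = M i j := by
  rw [Matrix.mul_apply, Finset.sum_eq_single i]
  · simp [Sh]
  · intro m _ hm
    have : ¬ (i + 1 = m + 1) := fun h => hm (add_right_cancel h).symm
    simp [Sh, this]
  · intro h
    exact absurd (Finset.mem_univ i) h

lemma mul_Sh (M : Mat N) (i j : Fin N) : (M * Sh N) i j = M i (j + 1) := by
  rw [Matrix.mul_apply, Finset.sum_eq_single (j + 1)]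
  · simp [Sh]
  · intro m _ hm
    simp [Sh, hm]
  · intro h
    exact absurd (Finset.mem_univ _) h

lemma Sh_unit : Sh N * (Sh N)ᴴ = 1 := by
  ext i j
  obtain ⟨i', rfl⟩ : ∃ i', i = i' + 1 := ⟨i - 1, by simp⟩
  rw [Sh_mul, conjTranspose_apply, Matrix.one_apply]
  unfold Sh
  rw [Matrix.of_apply]
  by_cases h : j = i' + 1
  · rw [if_pos h, if_pos h.symm, star_one]
  · rw [if_neg h, if_neg (fun h' => h h'.symm), star_zero]

lemma w_succ (hω : ω ^ N = 1) (j : Fin N) : ω ^ ((j + 1 : Fin N) : ℕ) = ω * ω ^ (j : ℕ) := by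
  rw [← pow_succ']
  rcases Nat.lt_or_ge ((j : ℕ) + 1) N with h | h
  · congr 1
    rw [Fin.val_add_one_of_lt']
    exact h
  · have h1 : (j : ℕ) + 1 = N := by omega
    have h2 : (j + 1 : Fin N) = 0 := by
      apply Fin.ext
      rw [Fin.val_add, Fin.val_zero]
      rcases Nat.lt_or_ge 1 N with h3 | h3
      · have : ((1 : Fin N) : ℕ) = 1 := by
          rw [Fin.val_one', Nat.mod_eq_of_lt h3]
        rw [this, h1, Nat.mod_self]
      · have : N = 1 := by have := NeZero.pos N; omega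
        subst this
        omega
    rw [h2, Fin.val_zero, pow_zero, h1, hω]

lemma Cl_Sh (hω : ω ^ N = 1) : Cl N ω * Sh N = ω • (Sh N * Cl N ω) := by
  ext i j
  obtain ⟨i', rfl⟩ : ∃ i', i = i' + 1 := ⟨i - 1, by simp⟩
  rw [Matrix.smul_apply, Sh_mul, mul_Sh, smul_eq_mul]
  unfold Cl
  rw [Matrix.diagonal_apply, Matrix.diagonal_apply]
  by_cases h : i' = j
  · subst h
    rw [if_pos rfl, if_pos rfl, w_succ hω]
  · rw [if_neg h, if_neg (fun h' => h (add_right_cancel h')), mul_zero]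

lemma Cl_unit (h : ‖ω‖ = 1) : Cl N ω * (Cl N ω)ᴴ = 1 := by
  unfold Cl
  rw [diagonal_conjTranspose, diagonal_mul_diagonal, ← diagonal_one]
  congr 1
  funext j
  have h1 : ‖ω ^ (j : ℕ)‖ = 1 := by rw [norm_pow, h, one_pow]
  show ω ^ (j : ℕ) * star (ω ^ (j : ℕ)) = 1
  rw [Complex.star_def, Complex.mul_conj, Complex.normSq_eq_norm_sq, h1]; simp

lemma std_irr (hω : IsPrimitiveRoot ω N) {M : Mat N} (h1 : Sh N * M = M * Sh N)
    (h2 : Cl N ω * M = M * Cl N ω) : ∃ c : ℂ, M = c • (1 : Mat N) := by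
  have h3 : ∀ i j, i ≠ j → M i j = 0 := by
    intro i j hij
    have e1 := congrFun (congrFun h2 i) j
    unfold Cl at e1
    rw [diagonal_mul, mul_diagonal] at e1
    have e2 : (ω ^ (i : ℕ) - ω ^ (j : ℕ)) * M i j = 0 := by rw [sub_mul, e1]; ring
    rcases mul_eq_zero.1 e2 with h | h
    · exfalso
      apply hij
      apply Fin.ext
      exact hω.pow_inj i.2 j.2 (sub_eq_zero.1 h)
    · exact h
  have h4 : ∀ i : Fin N, M (i + 1) (i + 1) = M i i := by
    intro i
    have e1 := congrFun (congrFun h1 (i + 1)) i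
    rw [Sh_mul, mul_Sh] at e1
    exact e1.symm
  have h5 : ∀ m : ℕ, ∀ i : Fin N, (i : ℕ) = m → M i i = M 0 0 := by
    intro m
    induction m with
    | zero =>
      intro i hi
      have : i = 0 := Fin.ext hi
      rw [this]
    | succ m ih =>
      intro i hi
      obtain ⟨i', rfl⟩ : ∃ i', i = i' + 1 := ⟨i - 1, by simp⟩
      rw [h4]
      refine ih i' ?_
      rcases Nat.lt_or_ge ((i' : ℕ) + 1) N with h | h
      · rw [Fin.val_add_one_of_lt' h] at hi
        omega
      · exfalso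
        have h1 : (i' : ℕ) + 1 = N := by omega
        rw [Fin.val_add] at hi
        rcases Nat.lt_or_ge 1 N with h3 | h3
        · have : ((1 : Fin N) : ℕ) = 1 := by
            rw [Fin.val_one', Nat.mod_eq_of_lt h3]
          rw [this, h1, Nat.mod_self] at hi
          omega
        · have h6 := Nat.mod_lt ((i' : ℕ) + ((1 : Fin N) : ℕ)) (NeZero.pos N)
          have := NeZero.pos N
          omega
  refine ⟨M 0 0, ?_⟩
  ext i j
  rw [Matrix.smul_apply, Matrix.one_apply, smul_eq_mul]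
  by_cases h : i = j
  · subst h
    rw [if_pos rfl, mul_one, h5 _ i rfl]
  · rw [if_neg h, mul_zero, h3 i j h]

/-! ### the intertwiner -/

lemma sum_shift (f : ℕ → Mat N) (h : f N = f 0) :
    ∑ i ∈ Finset.range N, f (i + 1) = ∑ i ∈ Finset.range N, f i := by
  have h1 := Finset.sum_range_succ f N
  have h2 := Finset.sum_range_succ' f N
  rw [h1, h] at h2
  exact (add_right_cancel h2).symm

/-- averaging over the powers of a matrix -/
def av (A A' : Mat N) (X : Mat N) : Mat N := ∑ i ∈ Finset.range N, A ^ i * X * A' ^ i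

lemma av_inv {A A' : Mat N} {s : ℂ} (hs : s * s = 1) (h1 : A ^ N = s • (1 : Mat N))
    (h2 : A' ^ N = s • (1 : Mat N)) (X : Mat N) : A * av A A' X * A' = av A A' X := by
  unfold av
  rw [Finset.mul_sum, Finset.sum_mul]
  have h3 := sum_shift (fun i => A ^ i * X * A' ^ i) (by
    rw [h1, h2, pow_zero, pow_zero, smul_mul_assoc, smul_mul_assoc, mul_smul_comm, smul_smul, hs,
      one_smul])
  rw [← h3]
  refine Finset.sum_congr rfl fun i _ => ?_
  rw [pow_succ' A, pow_succ A']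
  simp only [mul_assoc]

lemma twist_pow_right {A W : Mat N} {c : ℂ} (h : W * A = c • (A * W)) (i : ℕ) :
    W * A ^ i = c ^ i • (A ^ i * W) := by
  induction i with
  | zero => simp
  | succ i ih =>
    rw [pow_succ, ← mul_assoc, ih, smul_mul_assoc, mul_assoc, h, mul_smul_comm, smul_smul,
      ← pow_succ, mul_assoc]

lemma trace_zero {M W W' : Mat N} {c : ℂ} (hc : c ≠ 1) (hW : W * W' = 1)
    (h : W * M = c • (M * W)) : trace M = 0 := by
  have h1 : trace (W * M * W') = trace M := by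
    rw [trace_mul_comm, ← mul_assoc, mul_eq_one_comm.1 hW, one_mul]
  have h2 : W * M * W' = c • M := by rw [h, smul_mul_assoc, mul_assoc, hW, mul_one]
  rw [h2, trace_smul, smul_eq_mul] at h1
  have h3 : (c - 1) * trace M = 0 := by rw [sub_mul, h1]; ring
  rcases mul_eq_zero.1 h3 with h | h
  · exact absurd (sub_eq_zero.1 h) hc
  · exact h

lemma trace_pq (hω : IsPrimitiveRoot ω N) {P Q P' Q' : Mat N} (hP : P * P' = 1) (hQ : Q * Q' = 1)
    (h : Q * P = ω • (P * Q)) {i j : ℕ} (hi : i < N) (hj : j < N) (hij : ¬(i = 0 ∧ j = 0)) :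
    trace (P ^ i * Q ^ j) = 0 := by
  rcases Nat.eq_zero_or_pos i with h0 | h0
  · subst h0
    have hj0 : j ≠ 0 := fun h => hij ⟨rfl, h⟩
    rw [pow_zero, one_mul]
    have hω0 : ω ≠ 0 := hω.ne_zero (NeZero.ne N)
    have h1 : P * Q = ω⁻¹ • (Q * P) := by rw [h, smul_smul, inv_mul_cancel₀ hω0, one_smul]
    have h2 : ω⁻¹ ^ j ≠ 1 := by
      rw [inv_pow, ne_eq, inv_eq_one]
      exact hω.pow_ne_one_of_pos_of_lt hj0 hj
    exact trace_zero h2 hP (twist_pow_right h1 j)
  · have h1 : ω ^ i ≠ 1 := hω.pow_ne_one_of_pos_of_lt h0.ne' hi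
    refine trace_zero h1 hQ ?_
    rw [← mul_assoc, twist_pow_right h i, smul_mul_assoc, mul_assoc, ← pow_succ', pow_succ,
      ← mul_assoc]

lemma single_mul_apply (A C : Mat N) (a b y : Fin N) :
    (A * Matrix.single a b (1 : ℂ) * C) y b = A y a * C b b := by
  rw [mul_assoc, Matrix.mul_apply, Finset.sum_eq_single a]
  · rw [Matrix.single_mul_apply_same, one_mul]
  · intro x _ hx
    rw [Matrix.single_mul_apply_of_ne _ _ _ _ _ hx, mul_zero]
  · intro h
    exact absurd (Finset.mem_univ _) h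

/-- a nonzero average -/
lemma av_ne (hω : IsPrimitiveRoot ω N) {P Q R S : Mat N} (hP : P * R = 1) (hQ : Q * S = 1)
    (h : Q * P = ω • (P * Q)) (P' Q' : Mat N) : ∃ X : Mat N, av P P' (av Q Q' X) ≠ 0 := by
  by_contra hcon
  push Not at hcon
  have hN : 0 < N := NeZero.pos N
  have h1 : ∀ a : Fin N, ∑ i ∈ Finset.range N, ∑ j ∈ Finset.range N,
      (P ^ i * Q ^ j) a a * (Q' ^ j * P' ^ i) 0 0 = 0 := by
    intro a
    have h2 := congrFun (congrFun (hcon (Matrix.single a 0 (1 : ℂ))) a) 0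
    unfold av at h2
    rw [Matrix.sum_apply, Matrix.zero_apply] at h2
    rw [← h2]
    refine Finset.sum_congr rfl fun i _ => ?_
    rw [Finset.mul_sum, Finset.sum_mul, Matrix.sum_apply]
    refine Finset.sum_congr rfl fun j _ => ?_
    rw [← single_mul_apply (P ^ i * Q ^ j) (Q' ^ j * P' ^ i) a 0 a]
    simp only [mul_assoc]
  have h3 : ∑ a : Fin N, ∑ i ∈ Finset.range N, ∑ j ∈ Finset.range N,
      (P ^ i * Q ^ j) a a * (Q' ^ j * P' ^ i) 0 0 = 0 := Finset.sum_eq_zero fun a _ => h1 a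
  rw [Finset.sum_comm] at h3
  have h4 : ∀ i ∈ Finset.range N, ∑ a : Fin N, ∑ j ∈ Finset.range N,
      (P ^ i * Q ^ j) a a * (Q' ^ j * P' ^ i) 0 0 =
      ∑ j ∈ Finset.range N, trace (P ^ i * Q ^ j) * (Q' ^ j * P' ^ i) 0 0 := by
    intro i _
    rw [Finset.sum_comm]
    refine Finset.sum_congr rfl fun j _ => ?_
    rw [← Finset.sum_mul]
    rfl
  rw [Finset.sum_congr rfl h4, Finset.sum_eq_single 0, Finset.sum_eq_single 0] at h3
  · simp only [pow_zero, trace_one, Matrix.one_apply_eq, mul_one, Fintype.card_fin] at h3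
    exact hN.ne' (by exact_mod_cast h3)
  · intro j hj hj0
    rw [trace_pq hω hP hQ h hN (Finset.mem_range.1 hj) (fun h => hj0 h.2), zero_mul]
  · intro h
    exact absurd (Finset.mem_range.2 hN) h
  · intro i hi hi0
    refine Finset.sum_eq_zero fun j hj => ?_
    rw [trace_pq hω hP hQ h (Finset.mem_range.1 hi) (Finset.mem_range.1 hj) (fun h => hi0 h.1),
      zero_mul]
  · intro h
    exact absurd (Finset.mem_range.2 hN) h

/-- the intertwiner -/
lemma inter (hω : IsPrimitiveRoot ω N) {P Q P' Q' : Mat N} (uP : P * Pᴴ = 1) (uQ : Q * Qᴴ = 1)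
    (uP' : P' * P'ᴴ = 1) (uQ' : Q' * Q'ᴴ = 1) (dP : P.det = 1) (dQ : Q.det = 1)
    (dP' : P'.det = 1) (dQ' : Q'.det = 1) (h : Q * P = ω • (P * Q))
    (h' : Q' * P' = ω • (P' * Q')) : ∃ T : Mat N, T ≠ 0 ∧ P' * T = T * P ∧ Q' * T = T * Q := by
  have hω0 : ω ≠ 0 := hω.ne_zero (NeZero.ne N)
  have hωn : ω * star ω = 1 := by
    have h1 : ‖ω‖ = 1 := hω.norm'_eq_one (NeZero.ne N)
    rw [Complex.star_def, Complex.mul_conj, Complex.normSq_eq_norm_sq, h1]; simp
  have inv : ∀ {A C : Mat N}, C * A = ω • (A * C) → A * C = ω⁻¹ • (C * A) := fun {A C} h => by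
    rw [h, smul_smul, inv_mul_cancel₀ hω0, one_smul]
  set s : ℂ := (-1) ^ (N + 1) with hs
  have hss : s * s = 1 := by
    rw [hs, ← pow_add, ← two_mul, pow_mul]; simp
  have hst : star s = s := by rw [hs]; simp
  have pP := twist_pow hω uQ h dP
  have pQ := twist_pow hω.inv uP (inv h) dQ
  have pP' := twist_pow hω uQ' h' dP'
  have pQ' := twist_pow hω.inv uP' (inv h') dQ'
  rw [← hs] at pP pQ pP' pQ'
  have adj : ∀ {A : Mat N}, A ^ N = s • (1 : Mat N) → (Aᴴ) ^ N = s • (1 : Mat N) := fun {A} h => by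
    rw [← conjTranspose_pow, h, conjTranspose_smul, hst, conjTranspose_one]
  obtain ⟨X, hX⟩ := av_ne hω uP' uQ' h' Pᴴ Qᴴ
  refine ⟨_, hX, ?_, ?_⟩
  · have h1 := av_inv hss pP' (adj pP) (av Q' Qᴴ X)
    calc P' * av P' Pᴴ (av Q' Qᴴ X) = P' * av P' Pᴴ (av Q' Qᴴ X) * (Pᴴ * P) := by
          rw [mul_eq_one_comm.1 uP, mul_one]
      _ = (P' * av P' Pᴴ (av Q' Qᴴ X) * Pᴴ) * P := by simp only [mul_assoc]
      _ = _ := by rw [h1]
  · have h1 := av_inv hss pQ' (adj pQ) X
    set Y := av Q' Qᴴ X with hY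
    have h2 : Q' * av P' Pᴴ Y * Qᴴ = av P' Pᴴ Y := by
      unfold av
      rw [Finset.mul_sum, Finset.sum_mul]
      refine Finset.sum_congr rfl fun i _ => ?_
      have e1 := twist_pow_right h' i
      have e2 : Pᴴ ^ i * Qᴴ = star (ω ^ i) • (Qᴴ * Pᴴ ^ i) := by
        have e3 := congrArg conjTranspose (twist_pow_right h i)
        rw [conjTranspose_smul, conjTranspose_mul, conjTranspose_mul, conjTranspose_pow] at e3
        exact e3
      have e4 : ω ^ i * star (ω ^ i) = 1 := by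
        rw [star_pow, ← mul_pow, hωn, one_pow]
      calc Q' * (P' ^ i * Y * Pᴴ ^ i) * Qᴴ = (Q' * P' ^ i) * Y * (Pᴴ ^ i * Qᴴ) := by
            simp only [mul_assoc]
        _ = (ω ^ i * star (ω ^ i)) • (P' ^ i * (Q' * Y * Qᴴ) * Pᴴ ^ i) := by
            rw [e1, e2, smul_mul_assoc, smul_mul_smul_comm]
            simp only [mul_assoc]
        _ = _ := by rw [e4, one_smul, h1]
    calc Q' * av P' Pᴴ Y = Q' * av P' Pᴴ Y * (Qᴴ * Q) := by
          rw [mul_eq_one_comm.1 uQ, mul_one]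
      _ = (Q' * av P' Pᴴ Y * Qᴴ) * Q := by simp only [mul_assoc]
      _ = _ := by rw [h2]

/-- **Existence, irreducibility and uniqueness of the twisted pair.** -/
theorem exists_twPair (N : ℕ) [NeZero N] {k : ℕ} (hk : Nat.Coprime k N) :
    ∃ P Q : SU N, TwPair N (zeta N ^ k) P Q := by
  have hω : IsPrimitiveRoot (zeta N ^ k) N :=
    (Complex.isPrimitiveRoot_exp N (NeZero.ne N)).pow_of_coprime k hk
  obtain ⟨c, P, hc, hP⟩ := mkSU (Sh_unit (N := N))
  obtain ⟨d, Q, hd, hQ⟩ := mkSU (Cl_unit (N := N) (norm_zeta (N := N) k))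
  have hc0 : c ≠ 0 := by
    intro h; rw [h, norm_zero] at hc; exact zero_ne_one hc
  have hd0 : d ≠ 0 := by
    intro h; rw [h, norm_zero] at hd; exact zero_ne_one hd
  have hcomm : mt Q * mt P = zeta N ^ k • (mt P * mt Q) := by
    rw [hP, hQ, smul_mul_smul_comm, smul_mul_smul_comm, Cl_Sh hω.pow_eq_one, smul_smul, smul_smul]
    congr 1
    ring
  have cancel : ∀ {x : ℂ} {A C : Mat N}, x ≠ 0 → x • A = x • C → A = C := fun {x A C} hx h => by
    have := congrArg (fun M => x⁻¹ • M) h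
    simpa [smul_smul, inv_mul_cancel₀ hx] using this
  have hirr : ∀ M : Mat N, mt P * M = M * mt P → mt Q * M = M * mt Q →
      ∃ c : ℂ, M = c • (1 : Mat N) := by
    intro M h1 h2
    rw [hP, smul_mul_assoc, mul_smul_comm] at h1
    rw [hQ, smul_mul_assoc, mul_smul_comm] at h2
    exact std_irr hω (cancel hc0 h1) (cancel hd0 h2)
  refine ⟨P, Q, hcomm, hirr, fun P' Q' h' => ?_⟩
  have u : ∀ g : SU N, mt g * (mt g)ᴴ = 1 := fun g => rhoG_unit g
  have u' : ∀ g : SU N, (mt g)ᴴ * mt g = 1 := fun g => rhoG_unit' g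
  have dt : ∀ g : SU N, (mt g).det = 1 := fun g => g.2
  obtain ⟨T, hT, hTP, hTQ⟩ := inter hω (u P) (u Q) (u P') (u Q') (dt P) (dt Q) (dt P') (dt Q')
    hcomm h'
  -- Schur
  have ad : ∀ {A A' : Mat N}, A * Aᴴ = 1 → A'ᴴ * A' = 1 → A' * T = T * A → A * Tᴴ = Tᴴ * A' := by
    intro A A' h1 h2 h3
    have h4 : Tᴴ * A'ᴴ = Aᴴ * Tᴴ := by
      rw [← conjTranspose_mul, ← conjTranspose_mul, h3]
    calc A * Tᴴ = A * (Tᴴ * A'ᴴ) * A' := by rw [mul_assoc, mul_assoc, h2, mul_one]
      _ = (A * Aᴴ) * Tᴴ * A' := by rw [h4]; simp only [mul_assoc]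
      _ = _ := by rw [h1, one_mul]
  have hTT : ∀ {A A' : Mat N}, A * Aᴴ = 1 → A'ᴴ * A' = 1 → A' * T = T * A →
      A * (Tᴴ * T) = (Tᴴ * T) * A := by
    intro A A' h1 h2 h3
    rw [← mul_assoc, ad h1 h2 h3, mul_assoc, h3, mul_assoc]
  obtain ⟨r, hr⟩ := hirr (Tᴴ * T) (hTT (u P) (u' P') hTP) (hTT (u Q) (u' Q') hTQ)
  obtain ⟨ρ, hρ, hρr⟩ : ∃ ρ : ℝ, 0 ≤ ρ ∧ r = ρ := by
    refine ⟨∑ i, ‖T i 0‖ ^ 2, Finset.sum_nonneg fun _ _ => sq_nonneg _, ?_⟩
    have h1 := congrFun (congrFun hr 0) 0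
    rw [Matrix.smul_apply, Matrix.one_apply_eq, smul_eq_mul, mul_one, Matrix.mul_apply] at h1
    rw [← h1]
    push_cast
    refine Finset.sum_congr rfl fun i _ => ?_
    rw [conjTranspose_apply, Complex.star_def, mul_comm, Complex.mul_conj,
      Complex.normSq_eq_norm_sq]
    push_cast
    rfl
  have hρ0 : 0 < ρ := by
    rcases hρ.eq_or_lt with h | h
    · exfalso
      apply hT
      rw [← conjTranspose_mul_self_eq_zero, hr, hρr, ← h, Complex.ofReal_zero, zero_smul]
    · exact h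
  obtain ⟨t, ht⟩ : ∃ t : ℂ, t = ((Real.sqrt ρ)⁻¹ : ℝ) := ⟨_, rfl⟩
  have htt : star t * t * r = 1 := by
    rw [ht, hρr, Complex.star_def, Complex.conj_ofReal, ← Complex.ofReal_mul, ← Complex.ofReal_mul]
    have h1 := Real.mul_self_sqrt hρ
    have h2 : (Real.sqrt ρ) ≠ 0 := (Real.sqrt_pos.2 hρ0).ne'
    rw [← Complex.ofReal_one]
    congr 1
    field_simp
    rw [sq, h1]
  have hg0 : (t • T)ᴴ * (t • T) = 1 := by
    rw [conjTranspose_smul, smul_mul_smul_comm, hr, smul_smul, htt, one_smul]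
  obtain ⟨e, g, he, hg⟩ := mkSU (mul_eq_one_comm.1 hg0)
  have fin : ∀ A A' : SU N, mt A' * T = T * mt A → A' = g * A * g⁻¹ := by
    intro A A' h
    rw [eq_mul_inv_iff_mul_eq]
    apply mt_inj
    rw [mt_mul, mt_mul, hg, mul_smul_comm, mul_smul_comm, smul_mul_assoc, smul_mul_assoc, h]
  exact ⟨g, fin P P' hTP, fin Q Q' hTQ⟩

end

end Pool.Agent.Run7.h871.TP
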