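import Pool.Agent.Run7.h897.FS.Dbl

/-!
# Log-convexity of the correlations in the distance
-/

open MeasureTheory
open Pool.Agent.Run7.h897.FS

namespace Pool.Agent.Run7.h871.LC

set_option linter.unusedSectionVars false

noncomputable section

variable {X : Type*} [MeasurableSpace X] {μ : Measure X} [IsProbabilityMeasure μ]
  {k : ℕ → X → X → ℝ}

/-- the kernel of `T ^ p F T ^ u` -/
def Ph (μ : Measure X) (k : ℕ → X → X → ℝ) (F : X → ℝ) (p u : ℕ) (z : X × X) : ℝ :=
  ∫ x, F x * (k p z.1 x * k u x z.2) ∂μ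

lemma Ph_in (h : KS μ k) {F : X → ℝ} (hF : BM F) {p u : ℕ} (hp : 1 ≤ p) (hu : 1 ≤ u) :
    BM fun w : (X × X) × X => F w.2 * (k p w.1.1 w.2 * k u w.2 w.1.2) :=
  (hF.comp measurable_snd).mul (((h.bm p hp).comp (measurable_fst.fst.prodMk measurable_snd)).mul
    ((h.bm u hu).comp (measurable_snd.prodMk measurable_fst.snd)))

lemma Ph_bm (h : KS μ k) {F : X → ℝ} (hF : BM F) {p u : ℕ} (hp : 1 ≤ p) (hu : 1 ≤ u) :
    BM (Ph μ k F p u) := (Ph_in h hF hp hu).intg

lemma Ph_int (h : KS μ k) {F F' : X → ℝ} (hF : BM F) (hF' : BM F') {p u q v : ℕ} (hp : 1 ≤ p)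
    (hu : 1 ≤ u) (hq : 1 ≤ q) (hv : 1 ≤ v) :
    ∫ z, Ph μ k F p u z * Ph μ k F' q v z ∂(μ.prod μ) = A2 μ k (u + v) (p + q) F F' := by
  have e1 : ∀ z : X × X, Ph μ k F p u z * Ph μ k F' q v z =
      ∫ x, ∫ y, (F x * (k p z.1 x * k u x z.2)) * (F' y * (k q z.1 y * k v y z.2)) ∂μ ∂μ := by
    intro z
    unfold Ph
    rw [← integral_mul_const]
    congr 1
    funext x
    rw [← integral_const_mul]
  simp only [e1]
  have b3 : BM fun w : ((X × X) × X) × X => (F w.1.2 * (k p w.1.1.1 w.1.2 * k u w.1.2 w.1.1.2)) *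
      (F' w.2 * (k q w.1.1.1 w.2 * k v w.2 w.1.1.2)) := by
    refine BM.mul ?_ ?_
    · exact (Ph_in h hF hp hu).comp (φ := fun w : ((X × X) × X) × X => w.1) measurable_fst
    · exact (Ph_in h hF' hq hv).comp (φ := fun w : ((X × X) × X) × X => (w.1.1, w.2))
        (measurable_fst.fst.prodMk measurable_snd)
  rw [swp b3.intg]
  unfold A2
  congr 1
  funext x
  have b2 : BM fun w : (X × X) × X => (F x * (k p w.1.1 x * k u x w.1.2)) *
      (F' w.2 * (k q w.1.1 w.2 * k v w.2 w.1.2)) :=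
    b3.comp (φ := fun w : (X × X) × X => ((w.1, x), w.2))
      ((measurable_fst.prodMk measurable_const).prodMk measurable_snd)
  rw [swp b2]
  congr 1
  funext y
  have b1 : BM fun z : X × X => (F x * (k p z.1 x * k u x z.2)) *
      (F' y * (k q z.1 y * k v y z.2)) :=
    b2.comp (φ := fun z : X × X => (z, y)) (measurable_id.prodMk measurable_const)
  rw [fub b1]
  have e2 : ∀ a b, (F x * (k p a x * k u x b)) * (F' y * (k q a y * k v y b)) =
      (F x * F' y) * ((k p x a * k q a y) * (k u x b * k v b y)) := by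
    intro a b
    rw [h.symm p hp a x, h.symm v hv y b]
    ring
  simp only [e2, integral_const_mul, integral_mul_const]
  rw [← h.semi u v hu hv, ← h.semi p q hp hq, h.symm (p + q) (by omega) x y]
  ring

/-- **Log-convexity.** -/
theorem a2_lc (h : KS μ k) {F : X → ℝ} (hF : BM F) {u v M : ℕ} (hu : 1 ≤ u) (hv : 1 ≤ v)
    (huM : u < M) (hvM : v < M) :
    A2 μ k (u + v) (2 * M - (u + v)) F F ^ 2 ≤
      A2 μ k (2 * u) (2 * M - 2 * u) F F * A2 μ k (2 * v) (2 * M - 2 * v) F F := by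
  have h1 := Ph_int h hF hF (p := M - u) (q := M - v) (u := u) (v := v) (by omega) hu (by omega) hv
  have h2 := Ph_int h hF hF (p := M - u) (q := M - u) (u := u) (v := u) (by omega) hu (by omega) hu
  have h3 := Ph_int h hF hF (p := M - v) (q := M - v) (u := v) (v := v) (by omega) hv (by omega) hv
  have h4 := schwarz (μ := μ.prod μ) (Ph_bm h hF (p := M - u) (u := u) (by omega) hu)
    (Ph_bm h hF (p := M - v) (u := v) (by omega) hv)
  simp only [sq (Ph μ k F _ _ _)] at h4
  rw [h1, h2, h3] at h4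
  rw [show M - u + (M - v) = 2 * M - (u + v) by omega, show u + u = 2 * u by ring,
    show M - u + (M - u) = 2 * M - 2 * u by omega, show v + v = 2 * v by ring,
    show M - v + (M - v) = 2 * M - 2 * v by omega] at h4
  exact h4

/-- **Log-convex correlations cannot decay faster than their first ratio.** -/
theorem rate_le {c : ℕ → ℝ} (h : ∀ u v, 1 ≤ u → 1 ≤ v → c (u + v) ^ 2 ≤ c (2 * u) * c (2 * v))
    {m m' C : ℝ} (h2 : 0 < c 2) (h4 : Real.exp (-(2 * m')) * c 2 ≤ c 4)
    (hC : ∀ t, 1 ≤ t → |c t| ≤ C * Real.exp (-(m * t))) : m ≤ m' := by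
  set r : ℝ := Real.exp (-(2 * m')) with hr
  have hr0 : 0 < r := Real.exp_pos _
  have key : ∀ j : ℕ, 1 ≤ j → 0 < c (2 * j) ∧ r * c (2 * j) ≤ c (2 * (j + 1)) := by
    intro j hj
    induction j, hj using Nat.le_induction with
    | base => exact ⟨h2, h4⟩
    | succ j hj ih =>
      obtain ⟨h5, h6⟩ := ih
      have h7 : 0 < c (2 * (j + 1)) := lt_of_lt_of_le (mul_pos hr0 h5) h6
      refine ⟨h7, ?_⟩
      have h8 := h j (j + 2) hj (by omega)
      rw [show j + (j + 2) = 2 * (j + 1) by ring] at h8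
      have h9 : r * c (2 * j) * c (2 * (j + 1)) ≤ c (2 * (j + 1)) * c (2 * (j + 1)) :=
        mul_le_mul_of_nonneg_right h6 h7.le
      have h10 : c (2 * j) * (r * c (2 * (j + 1))) ≤ c (2 * j) * c (2 * (j + 2)) := by
        calc c (2 * j) * (r * c (2 * (j + 1))) = r * c (2 * j) * c (2 * (j + 1)) := by ring
          _ ≤ c (2 * (j + 1)) ^ 2 := by rw [sq]; exact h9
          _ ≤ _ := h8
      exact le_of_mul_le_mul_left h10 h5
  have low : ∀ j : ℕ, c 2 * r ^ j ≤ c (2 * (j + 1)) := by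
    intro j
    induction j with
    | zero => simp
    | succ j ih =>
      have h5 := (key (j + 1) (by omega)).2
      calc c 2 * r ^ (j + 1) = r * (c 2 * r ^ j) := by ring
        _ ≤ r * c (2 * (j + 1)) := mul_le_mul_of_nonneg_left ih hr0.le
        _ ≤ _ := h5
  by_contra hm
  push Not at hm
  have hq : 1 < Real.exp (2 * (m - m')) := by
    rw [Real.one_lt_exp_iff]; linarith
  have h5 : ∀ j : ℕ, Real.exp (2 * (m - m')) ^ j ≤ C / c 2 * Real.exp (-(2 * m)) := by
    intro j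
    have h6 := (low j).trans ((le_abs_self _).trans (hC (2 * (j + 1)) (by omega)))
    have h7 : Real.exp (-(m * ((2 * (j + 1) : ℕ) : ℝ))) =
        Real.exp (-(2 * m)) * Real.exp (-(2 * m)) ^ j := by
      rw [← Real.exp_nat_mul, ← Real.exp_add]
      congr 1
      push_cast
      ring
    have h8 : r ^ j = Real.exp (2 * (m - m')) ^ j * Real.exp (-(2 * m)) ^ j := by
      rw [hr, ← mul_pow, ← Real.exp_add]
      congr 2
      ring
    rw [h7, h8] at h6
    have h9 : 0 < Real.exp (-(2 * m)) ^ j := pow_pos (Real.exp_pos _) _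
    have h10 : (c 2 * Real.exp (2 * (m - m')) ^ j) * Real.exp (-(2 * m)) ^ j ≤
        (C * Real.exp (-(2 * m))) * Real.exp (-(2 * m)) ^ j := by
      calc (c 2 * Real.exp (2 * (m - m')) ^ j) * Real.exp (-(2 * m)) ^ j =
          c 2 * (Real.exp (2 * (m - m')) ^ j * Real.exp (-(2 * m)) ^ j) := by ring
        _ ≤ C * (Real.exp (-(2 * m)) * Real.exp (-(2 * m)) ^ j) := h6
        _ = _ := by ring
    have h11 := le_of_mul_le_mul_right h10 h9
    rw [div_mul_eq_mul_div, le_div_iff₀ h2, mul_comm]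
    exact h11
  obtain ⟨j, hj⟩ := pow_unbounded_of_one_lt (C / c 2 * Real.exp (-(2 * m))) hq
  exact absurd (h5 j) (not_le.2 hj)

end

end Pool.Agent.Run7.h871.LC
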