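import Pool.Agent.Run7.h897.TW.Loc
import Pool.Agent.Run7.h871.YM.LogC

/-!
# Log-convexity of the correlations in the twisted theories
-/

open MeasureTheory
open Pool.Agent.Run7.h897.TW
open Pool.Agent.Run7.h897.FS (BM BK kk kp PM A1 A2 xs gs)

namespace Pool.Agent.Run7.h871.LC

set_option linter.unusedSectionVars false

noncomputable section

variable {N b c l : ℕ} {G : Type*} [Group G] [NeZero N] [NeZero b] [NeZero c] [NeZero l]
  [MeasurableSpace G] [MeasurableMul₂ G] [MeasurableInv G] {μ : Measure G}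
  [IsProbabilityMeasure μ]

/-- the correlation as a trace of kernels -/
lemma two_eq {w : Ens N l G} (hb : w.Bd) {F F' : (Ls b l → G) → ℝ} (hF : BM F) (hF' : BM F')
    {τ : ℕ} (hτ : 1 ≤ τ) (hτc : τ < c) :
    XE μ w (fun U : Lk c b l → G => F (xs (sg c b l) U 0) *
      F' (xs (sg c b l) U (τ : ZMod c))) =
      A2 (PM μ (Ls b l)) (kp (PM μ (Ls b l)) (tk μ b w)) τ (c - τ) F F' / ZE μ w c b := by
  unfold XE
  congr 1
  simp only [← prod_kw]
  exact Pool.Agent.Run7.h897.FS.int_ring_two (μ := μ) (sg c b l) (kw_bm hb) hF hF' hτ hτc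

/-- **Log-convexity** of the correlations of one observable, in a finite torus. -/
theorem lcE [μ.IsInvInvariant] {w : Ens N l G} (hb : w.Bd) (hw : w.Sy) {M : ℕ} (hc : c = 2 * M)
    {F : (Ls b l → G) → ℝ} (hF : BM F) {u v : ℕ} (hu : 1 ≤ u) (hv : 1 ≤ v) (huM : u < M)
    (hvM : v < M) :
    XE μ w (fun U : Lk c b l → G => F (xs (sg c b l) U 0) *
        F (xs (sg c b l) U ((u + v : ℕ) : ZMod c))) ^ 2 ≤
      XE μ w (fun U : Lk c b l → G => F (xs (sg c b l) U 0) *
        F (xs (sg c b l) U ((2 * u : ℕ) : ZMod c))) *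
      XE μ w (fun U : Lk c b l → G => F (xs (sg c b l) U 0) *
        F (xs (sg c b l) U ((2 * v : ℕ) : ZMod c))) := by
  rw [two_eq hb hF hF (by omega) (by omega), two_eq hb hF hF (by omega) (by omega),
    two_eq hb hF hF (by omega) (by omega)]
  have hZ : 0 < ZE μ w c b := ZE_pos hb
  have hK := Pool.Agent.Run7.h897.FS.kp_KS (μ := PM μ (Ls b l)) (tk_bm (μ := μ) (b := b) hb) (tk_symm hb hw)
  have h := a2_lc hK hF hu hv huM hvM
  rw [← hc] at h
  rw [div_pow, div_mul_div_comm, ← sq]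
  exact div_le_div_of_nonneg_right h (by positivity)

/-- the theory without fluxes as a theory with one flux only -/
def oneE (w : Ens N l G) : Ens 1 l G where
  e1 := w.e1
  e2 := w.e2
  e0 _ := w.e0 0

lemma oneE_sy {w : Ens N l G} (hw : w.Sy) : (oneE w).Sy where
  i1 := hw.i1
  c1 := hw.c1
  i0 n g := by
    show w.e0 0 g⁻¹ = w.e0 0 g
    rw [hw.i0, neg_zero]
  c0 n h g := hw.c0 0 h g

lemma oneE_bd {w : Ens N l G} (hb : w.Bd) : (oneE w).Bd where
  b1 := hb.b1
  b2 := hb.b2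
  b0 _ := hb.b0 0

lemma oneE_wt {w : Ens N l G} (U : Lk c b l → G) : wtE (oneE w) U = wS w (fun _ => 0) U := by
  unfold wtE wS
  congr 1
  refine Finset.prod_congr rfl fun u _ => ?_
  have h : ∀ f : ZMod 1 → ℝ, ∑ n : ZMod 1, f n = f 0 := fun f => by
    rw [Fintype.sum_eq_single 0]
    intro n hn
    exact absurd (Subsingleton.elim n 0) hn
  rw [h]
  rfl

lemma XT_one (w : Ens N l G) (H : (Lk c b l → G) → ℝ) : XT μ w H = XE μ (oneE w) H := by
  unfold XT XE ZE
  simp only [oneE_wt]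

/-- **Log-convexity** in the theory without fluxes -/
theorem lcT [μ.IsInvInvariant] {w : Ens N l G} (hb : w.Bd) (hw : w.Sy) {M : ℕ} (hc : c = 2 * M)
    {F : (Ls b l → G) → ℝ} (hF : BM F) {u v : ℕ} (hu : 1 ≤ u) (hv : 1 ≤ v) (huM : u < M)
    (hvM : v < M) :
    XT μ w (fun U : Lk c b l → G => F (xs (sg c b l) U 0) *
        F (xs (sg c b l) U ((u + v : ℕ) : ZMod c))) ^ 2 ≤
      XT μ w (fun U : Lk c b l → G => F (xs (sg c b l) U 0) *
        F (xs (sg c b l) U ((2 * u : ℕ) : ZMod c))) *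
      XT μ w (fun U : Lk c b l → G => F (xs (sg c b l) U 0) *
        F (xs (sg c b l) U ((2 * v : ℕ) : ZMod c))) := by
  simp only [XT_one]
  exact lcE (oneE_bd hb) (oneE_sy hw) hc hF hu hv huM hvM

/-! ### centred observables and limits -/

lemma one_eq {w : Ens N l G} (hb : w.Bd) {F : (Ls b l → G) → ℝ} (hF : BM F) :
    XE μ w (fun U : Lk c b l → G => F (xs (sg c b l) U 0)) =
      A1 (PM μ (Ls b l)) (kp (PM μ (Ls b l)) (tk μ b w)) c F / ZE μ w c b := by
  unfold XE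
  congr 1
  simp only [← prod_kw]
  exact Pool.Agent.Run7.h897.FS.int_ring_one (μ := μ) (sg c b l) (kw_bm hb) hF

/-- translation invariance -/
lemma one_tr [μ.IsInvInvariant] {w : Ens N l G} (hb : w.Bd) (hw : w.Sy)
    {F : (Ls b l → G) → ℝ} (hF : BM F) {τ : ℕ} (hτ : 1 ≤ τ) (hτc : τ < c) :
    XE μ w (fun U : Lk c b l → G => F (xs (sg c b l) U (τ : ZMod c))) =
      XE μ w (fun U : Lk c b l → G => F (xs (sg c b l) U 0)) := by
  have h1 := two_eq (μ := μ) (c := c) hb (BM.const 1) hF hτ hτc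
  simp only [one_mul] at h1
  rw [h1, one_eq hb hF]
  congr 1
  have hK := Pool.Agent.Run7.h897.FS.kp_KS (μ := PM μ (Ls b l)) (tk_bm (μ := μ) (b := b) hb)
    (tk_symm hb hw)
  have h2 := hK.A1_right (τ := τ) (r := c - τ) hτ (by omega) hF
  rw [show τ + (c - τ) = c by omega] at h2
  rw [← h2]
  unfold A2
  simp only [one_mul]

lemma XE_int {w : Ens N l G} (hb : w.Bd) {H : (Lk c b l → G) → ℝ} (hH : BM H) :
    Integrable (fun U => H U * wtE w U) (PM μ (Lk c b l)) := (hH.mul (wtE_bm hb)).int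

lemma lin4 {Y : Type*} [MeasurableSpace Y] {ν : Measure Y} [IsProbabilityMeasure ν]
    {f g h k : Y → ℝ} (hf : BM f) (hg : BM g) (hh : BM h) (hk : BM k) (m : ℝ) :
    ∫ x, (f x - m * g x - m * h x + m ^ 2 * k x) ∂ν =
      (∫ x, f x ∂ν) - m * (∫ x, g x ∂ν) - m * (∫ x, h x ∂ν) + m ^ 2 * ∫ x, k x ∂ν := by
  have b1 : BM fun x => m * g x := (BM.const m).mul hg
  have b2 : BM fun x => m * h x := (BM.const m).mul hh
  have b3 : BM fun x => m ^ 2 * k x := (BM.const (m ^ 2)).mul hk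
  have b4 : BM fun x => f x - m * g x := hf.sub b1
  have b5 : BM fun x => f x - m * g x - m * h x := b4.sub b2
  rw [integral_add b5.int b3.int, integral_sub b4.int b2.int, integral_sub hf.int b1.int,
    integral_const_mul, integral_const_mul, integral_const_mul]

/-- the correlation of the centred observables -/
lemma cov_ex [μ.IsInvInvariant] {w : Ens N l G} (hb : w.Bd) (hw : w.Sy)
    {F : (Ls b l → G) → ℝ} (hF : BM F) (m : ℝ) {τ : ℕ} (hτ : 1 ≤ τ) (hτc : τ < c) :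
    XE μ w (fun U : Lk c b l → G => (F (xs (sg c b l) U 0) - m) *
        (F (xs (sg c b l) U (τ : ZMod c)) - m)) =
      XE μ w (fun U : Lk c b l → G => F (xs (sg c b l) U 0) *
        F (xs (sg c b l) U (τ : ZMod c))) -
      2 * m * XE μ w (fun U : Lk c b l → G => F (xs (sg c b l) U 0)) + m ^ 2 := by
  have hZ : 0 < ZE μ w c b := ZE_pos hb
  have h0 := one_tr (μ := μ) (c := c) hb hw hF hτ hτc
  have b0 : BM fun U : Lk c b l → G => F (xs (sg c b l) U 0) :=
    hF.comp (Pool.Agent.Run7.h897.FS.xs_meas _ _)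
  have bτ : BM fun U : Lk c b l → G => F (xs (sg c b l) U (τ : ZMod c)) :=
    hF.comp (Pool.Agent.Run7.h897.FS.xs_meas _ _)
  have e1 : ∫ U : Lk c b l → G, ((F (xs (sg c b l) U 0) - m) *
        (F (xs (sg c b l) U (τ : ZMod c)) - m)) * wtE w U ∂(PM μ (Lk c b l)) =
      (∫ U : Lk c b l → G, (F (xs (sg c b l) U 0) * F (xs (sg c b l) U (τ : ZMod c))) *
        wtE w U ∂(PM μ (Lk c b l))) -
      m * (∫ U : Lk c b l → G, F (xs (sg c b l) U 0) * wtE w U ∂(PM μ (Lk c b l))) -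
      m * (∫ U : Lk c b l → G, F (xs (sg c b l) U (τ : ZMod c)) * wtE w U ∂(PM μ (Lk c b l))) +
      m ^ 2 * ZE μ w c b := by
    have h4 := lin4 (ν := PM μ (Lk c b l)) ((b0.mul bτ).mul (wtE_bm hb)) (b0.mul (wtE_bm hb))
      (bτ.mul (wtE_bm hb)) (wtE_bm hb) m
    unfold ZE
    rw [← h4]
    congr 1
    funext U
    ring
  unfold XE at h0 ⊢
  rw [e1]
  set Z := ZE μ w c b
  have e2 : ∀ A B C : ℝ, (A - m * B - m * C + m ^ 2 * Z) / Z =
      A / Z - m * (B / Z) - m * (C / Z) + m ^ 2 := by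
    intro A B C
    field_simp
  rw [e2, h0]
  ring

/-- **Log-convexity in the limit of large tori**, for the centred observable, in the
centre-summed theory. -/
theorem lcE_lim [μ.IsInvInvariant] {w : Ens N l G} (hb : w.Bd) (hw : w.Sy) {M c b : ℕ → ℕ}
    [∀ j, NeZero (c j)] [∀ j, NeZero (b j)] (hM : Filter.Tendsto M Filter.atTop Filter.atTop)
    (hc : ∀ j, c j = 2 * M j) {F : ∀ j, (Ls (b j) l → G) → ℝ} (hF : ∀ j, BM (F j))
    {A : ℕ → ℝ} {m : ℝ}
    (h2 : ∀ t : ℕ, 1 ≤ t → Filter.Tendsto (fun j => XE μ w (fun U : Lk (c j) (b j) l → G =>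
      F j (xs (sg (c j) (b j) l) U 0) * F j (xs (sg (c j) (b j) l) U (t : ZMod (c j)))))
      Filter.atTop (nhds (A t)))
    (h1 : Filter.Tendsto (fun j => XE μ w (fun U : Lk (c j) (b j) l → G =>
      F j (xs (sg (c j) (b j) l) U 0))) Filter.atTop (nhds m)) {u v : ℕ} (hu : 1 ≤ u)
    (hv : 1 ≤ v) : (A (u + v) - m ^ 2) ^ 2 ≤ (A (2 * u) - m ^ 2) * (A (2 * v) - m ^ 2) := by
  have key : ∀ t : ℕ, 1 ≤ t → Filter.Tendsto (fun j => XE μ w (fun U : Lk (c j) (b j) l → G =>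
      (F j (xs (sg (c j) (b j) l) U 0) - m) *
        (F j (xs (sg (c j) (b j) l) U (t : ZMod (c j))) - m)))
      Filter.atTop (nhds (A t - m ^ 2)) := by
    intro t ht
    have h3 := ((h2 t ht).sub (h1.const_mul (2 * m))).add_const (m ^ 2)
    rw [show A t - 2 * m * m + m ^ 2 = A t - m ^ 2 by ring] at h3
    refine h3.congr' ?_
    filter_upwards [hM.eventually_gt_atTop t] with j hj
    exact (cov_ex hb hw (hF j) m ht (by rw [hc]; omega)).symm
  refine le_of_tendsto_of_tendsto ((key (u + v) (by omega)).pow 2)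
    ((key (2 * u) (by omega)).mul (key (2 * v) (by omega))) ?_
  filter_upwards [hM.eventually_gt_atTop (u + v)] with j hj
  exact lcE (F := fun x => F j x - m) hb hw (hc j) ((hF j).sub (BM.const m)) hu hv (by omega)
    (by omega)

/-- **Log-convexity in the limit of large tori**, in the theory without fluxes. -/
theorem lcT_lim [μ.IsInvInvariant] {w : Ens N l G} (hb : w.Bd) (hw : w.Sy) {M c b : ℕ → ℕ}
    [∀ j, NeZero (c j)] [∀ j, NeZero (b j)] (hM : Filter.Tendsto M Filter.atTop Filter.atTop)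
    (hc : ∀ j, c j = 2 * M j) {F : ∀ j, (Ls (b j) l → G) → ℝ} (hF : ∀ j, BM (F j))
    {A : ℕ → ℝ} {m : ℝ}
    (h2 : ∀ t : ℕ, 1 ≤ t → Filter.Tendsto (fun j => XT μ w (fun U : Lk (c j) (b j) l → G =>
      F j (xs (sg (c j) (b j) l) U 0) * F j (xs (sg (c j) (b j) l) U (t : ZMod (c j)))))
      Filter.atTop (nhds (A t)))
    (h1 : Filter.Tendsto (fun j => XT μ w (fun U : Lk (c j) (b j) l → G =>
      F j (xs (sg (c j) (b j) l) U 0))) Filter.atTop (nhds m)) {u v : ℕ} (hu : 1 ≤ u)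
    (hv : 1 ≤ v) : (A (u + v) - m ^ 2) ^ 2 ≤ (A (2 * u) - m ^ 2) * (A (2 * v) - m ^ 2) := by
  simp only [XT_one] at h1 h2
  exact lcE_lim (oneE_bd hb) (oneE_sy hw) hM hc hF h2 h1 hu hv

end

end Pool.Agent.Run7.h871.LC
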