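import Pool.Agent.Run7.h871.YM.Obv
import Pool.Agent.Run7.h871.YM.LcTw
import Pool.Agent.Run7.h630.R2.Dc
import Pool.Agent.Run7.h897.TW.Fou
import Pool.Agent.Run7.h182.Wl

/-!
# The upper bound of the mass gap: correlations of the fibre loops in large tori
-/

open MeasureTheory Matrix Filter Topology
open Pool.Agent.Run7.h630.R2 (SU zeta TwPair zch zk)
open Pool.Agent.Run7.h897.TW
open Pool.Agent.Run7.h897.FS (BM PM xs gs)

namespace Pool.Agent.Run7.h871.UP

set_option linter.unusedSectionVars false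

noncomputable section

variable {N : ℕ} [NeZero N] {a b l : ℕ} [NeZero a] [NeZero b] [NeZero l] {k : ℕ}

/-- the centre -/
def zc (N : ℕ) [NeZero N] (n : ZMod N) : SU N := zch N (zk N n.val)

lemma zc_cn (β : ℝ) : Cn (TC.wE N l k β) (zc N) := by
  have hval : ∀ p q : ZMod N, zeta N ^ (p + q).val = zeta N ^ p.val * zeta N ^ q.val := by
    intro p q
    have h1 : zeta N ^ N = 1 := Pool.Agent.Run7.h630.R2.zeta_pow N
    rw [ZMod.val_add, ← pow_add, ← pow_eq_pow_mod _ h1]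
  have hmz : ∀ p : ZMod N, Pool.Agent.H906R3.YM.mt (zc N p) =
      zeta N ^ p.val • (1 : Matrix _ _ ℂ) := fun p => Pool.Agent.Run7.h630.R2.mt_zk p.val
  refine ⟨?_, fun p q => ?_, fun p g => Pool.Agent.Run7.h630.R2.zch_comm _ g, fun n p g => ?_⟩
  · refine Subtype.ext (Subtype.ext ?_)
    refine (hmz 0).trans ?_
    rw [ZMod.val_zero, pow_zero, one_smul]
    rfl
  · refine Subtype.ext (Subtype.ext ?_)
    refine (hmz (p + q)).trans ?_
    rw [hval]
    show _ = Pool.Agent.H906R3.YM.mt (zc N p) * Pool.Agent.H906R3.YM.mt (zc N q)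
    rw [hmz, hmz, smul_mul_smul_comm, one_mul]
  · show β * (trace (1 - zeta N ^ n.val • (Pool.Agent.H906R3.YM.mt (zc N p) *
      Pool.Agent.H906R3.YM.mt g))).re =
      β * (trace (1 - zeta N ^ (n + p).val • Pool.Agent.H906R3.YM.mt g)).re
    rw [hmz, smul_mul_assoc, one_mul, smul_smul, hval]

lemma Et_eq [MeasurableSpace (SU N)] (μ : Measure (SU N)) (β : ℝ) (H : (Lk a b l → SU N) → ℝ) :
    Pool.Agent.Run7.h630.R2.Et μ k β H = XE μ (TC.wE N l k β) H := by
  unfold Pool.Agent.Run7.h630.R2.Et XE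
  rw [TC.ZE_eq_Zt]
  congr 1
  exact integral_congr_ae (Eventually.of_forall fun U => by
    show _ * _ = _ * _
    rw [TC.wtE_eq])

/-- the product of the observables at the times zero and `τ`, on the windows -/
def HH (z : ℂ) (θ : ℝ) (c w : ℕ) (s β : ℝ) (τ : ℕ)
    (V : ((ℕ × ℕ) × (ZMod l × ZMod l)) × Fin 4 → SU N) : ℝ :=
  Fg z θ c w s β (fun i y => V (((0, i), y), 2)) * Fg z θ c w s β (fun i y => V (((τ, i), y), 2))

/-- the observable at the time zero, on the windows -/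
def H1 (z : ℂ) (θ : ℝ) (c w : ℕ) (s β : ℝ)
    (V : ((ℕ × ℕ) × (ZMod l × ZMod l)) × Fin 4 → SU N) : ℝ :=
  Fg z θ c w s β (fun i y => V (((0, i), y), 2))

lemma HH_rd (z : ℂ) (θ : ℝ) (c w : ℕ) (s β : ℝ) (τ : ℕ) (U : Lk a b l → SU N) :
    HH z θ c w s β τ (rd a b l U) = Pool.Agent.Run7.h630.R2.Fo z θ c w s β U 0 *
      Pool.Agent.Run7.h630.R2.Fo z θ c w s β U (τ : ZMod a) := by
  rw [Fo_eq, Fo_eq]
  unfold HH rd
  simp only [Nat.cast_zero]

lemma H1_rd (z : ℂ) (θ : ℝ) (c w : ℕ) (s β : ℝ) (U : Lk a b l → SU N) :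
    H1 z θ c w s β (rd a b l U) = Pool.Agent.Run7.h630.R2.Fo z θ c w s β U 0 := by
  rw [Fo_eq]
  unfold H1 rd
  simp only [Nat.cast_zero]

lemma H1_cont (z : ℂ) (θ : ℝ) (c w : ℕ) (s β : ℝ) :
    Continuous (H1 (N := N) (l := l) z θ c w s β) := by
  unfold H1
  exact (Fg_cont z θ c w s β).comp
    (continuous_pi fun i => continuous_pi fun y => continuous_apply _)

lemma HH_cont (z : ℂ) (θ : ℝ) (c w : ℕ) (s β : ℝ) (τ : ℕ) :
    Continuous (HH (N := N) (l := l) z θ c w s β τ) := by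
  unfold HH
  refine Continuous.mul ?_ ?_
  · exact (Fg_cont z θ c w s β).comp
      (continuous_pi fun i => continuous_pi fun y => continuous_apply _)
  · exact (Fg_cont z θ c w s β).comp
      (continuous_pi fun i => continuous_pi fun y => continuous_apply _)

lemma HH_le (z : ℂ) (θ : ℝ) (c w : ℕ) (s β : ℝ) (τ : ℕ)
    (V : ((ℕ × ℕ) × (ZMod l × ZMod l)) × Fin 4 → SU N) : |HH z θ c w s β τ V| ≤ 1 := by
  unfold HH
  rw [abs_mul]
  exact mul_le_one₀ (Fg_le _ _ _ _ _ _ _) (abs_nonneg _) (Fg_le _ _ _ _ _ _ _)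

lemma H1_loc (z : ℂ) (θ : ℝ) (c w : ℕ) (s β : ℝ) {W : ℕ} (hW : w ≤ W) (hW0 : 0 < W)
    (V V' : ((ℕ × ℕ) × (ZMod l × ZMod l)) × Fin 4 → SU N)
    (h : ∀ e, e.1.1.1 < W → e.1.1.2 < W → V e = V' e) :
    H1 z θ c w s β V = H1 z θ c w s β V' := by
  unfold H1
  exact Fg_loc fun i hi => funext fun y => h _ hW0 (by show i < W; omega)

lemma HH_loc (z : ℂ) (θ : ℝ) (c w : ℕ) (s β : ℝ) {τ W : ℕ} (hW : w ≤ W) (hW0 : τ < W)
    (V V' : ((ℕ × ℕ) × (ZMod l × ZMod l)) × Fin 4 → SU N)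
    (h : ∀ e, e.1.1.1 < W → e.1.1.2 < W → V e = V' e) :
    HH z θ c w s β τ V = HH z θ c w s β τ V' := by
  unfold HH
  congr 1
  · exact Fg_loc fun i hi => funext fun y => h _ (by show 0 < W; omega) (by show i < W; omega)
  · exact Fg_loc fun i hi => funext fun y => h _ hW0 (by show i < W; omega)

variable [MeasurableSpace (SU N)] [BorelSpace (SU N)] (μ : Measure (SU N)) [IsProbabilityMeasure μ]
  [μ.IsMulLeftInvariant] [μ.IsMulRightInvariant] [μ.IsInvInvariant] {P Q : SU N}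

/-- **The correlations of the fibre loops in large tori at weak coupling.** -/
theorem key (hN : 2 ≤ N) (hk : Nat.Coprime k N) (hPQ : TwPair N (zeta N ^ k) P Q) {m' : ℝ}
    (hm' : rate l N < m') :
    ∃ (z : ℂ) (θ : ℝ) (c w : ℕ) (s q : ℝ), 0 < q ∧ ∃ β0 : ℝ, ∀ β, β0 ≤ β → ∃ n0 : ℕ,
      ∀ (d : ℕ) [NeZero d], n0 ≤ d → Even d →
        q ≤ XT μ (TC.wE N l k β) (fun U : Lk d d l → SU N =>
              Pool.Agent.Run7.h630.R2.Fo z θ c w s β U 0 *
              Pool.Agent.Run7.h630.R2.Fo z θ c w s β U ((2 : ℕ) : ZMod d)) -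
            XT μ (TC.wE N l k β) (fun U : Lk d d l → SU N =>
              Pool.Agent.Run7.h630.R2.Fo z θ c w s β U 0) ^ 2 ∧
        Real.exp (-(2 * m')) * (XT μ (TC.wE N l k β) (fun U : Lk d d l → SU N =>
              Pool.Agent.Run7.h630.R2.Fo z θ c w s β U 0 *
              Pool.Agent.Run7.h630.R2.Fo z θ c w s β U ((2 : ℕ) : ZMod d)) -
            XT μ (TC.wE N l k β) (fun U : Lk d d l → SU N =>
              Pool.Agent.Run7.h630.R2.Fo z θ c w s β U 0) ^ 2) ≤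
          XT μ (TC.wE N l k β) (fun U : Lk d d l → SU N =>
              Pool.Agent.Run7.h630.R2.Fo z θ c w s β U 0 *
              Pool.Agent.Run7.h630.R2.Fo z θ c w s β U ((4 : ℕ) : ZMod d)) -
            XT μ (TC.wE N l k β) (fun U : Lk d d l → SU N =>
              Pool.Agent.Run7.h630.R2.Fo z θ c w s β U 0) ^ 2 := by
  have hcomp : CompactSpace (SU N) := isCompact_iff_compactSpace.1
    (Pool.Agent.Run7.h630.R2.SU_closed N).isCompact
  have h00 : SecondCountableTopology (Pool.Agent.H906R3.YM.UN N) :=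
    TopologicalSpace.Subtype.secondCountableTopology _
  have hsc : SecondCountableTopology (SU N) := TopologicalSpace.Subtype.secondCountableTopology _
  have hr0 : 0 < rate l N := by
    unfold rate
    have := Real.arsinh_pos_iff.2 (sin_pos' hN l)
    linarith
  obtain ⟨c, hc⟩ := exists_c hN hk
  obtain ⟨ρ, hρ1, hρ2⟩ := exists_between (show Real.exp (-(2 * m')) < Real.exp (-(2 * rate l N))
    from Real.exp_lt_exp.2 (by linarith))
  have hρ0 : 0 < ρ := (Real.exp_pos _).trans hρ1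
  obtain ⟨z, w, s, c0, a1, hw, hs, hc0, hup⟩ := Pool.Agent.Run7.h630.R2.up μ hN l hPQ hc hρ0 hρ2
  obtain ⟨θ, hθ⟩ : ∃ θ : ℝ, θ = 2 * Real.pi / (l * N) := ⟨_, rfl⟩
  rw [← hθ] at hup
  obtain ⟨r, hr⟩ : ∃ r : ℝ, r = Real.exp (-(2 * m')) := ⟨_, rfl⟩
  rw [← hr] at hρ1 ⊢
  have hrp : 0 < r := by rw [hr]; exact Real.exp_pos _
  have hr1 : r < 1 := by
    rw [hr, ← Real.exp_zero]
    exact Real.exp_lt_exp.2 (by linarith)
  have hρ1' : ρ < 1 := hρ2.trans (by
    rw [← Real.exp_zero]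
    exact Real.exp_lt_exp.2 (by linarith))
  obtain ⟨η, hη⟩ : ∃ η : ℝ, η = min (1 / 3) ((ρ - r) * c0 / 12) := ⟨_, rfl⟩
  have hη0 : 0 < η := by
    rw [hη]
    have : 0 < (ρ - r) * c0 := mul_pos (by linarith) hc0
    positivity
  have hη1 : η ≤ 1 / 3 := by rw [hη]; exact min_le_left _ _
  have hη2 : 12 * η ≤ (ρ - r) * c0 := by
    have : η ≤ (ρ - r) * c0 / 12 := by rw [hη]; exact min_le_right _ _
    linarith
  have hη3 : 12 * η ≤ c0 := hη2.trans (by nlinarith)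
  -- the criterion
  obtain ⟨a0, ha0, σ, hσ0, hσ, -, β1, hβ1⟩ := TC.crit μ hN l hPQ (m := rate l N / 2)
    (by linarith) (by linarith)
  obtain ⟨n0, hn0⟩ := Run7.h182.Wl.size (μ := μ) (N := N) (l := l) ha0 hσ0 hσ (max w 5) hη0
  -- the fixed torus
  obtain ⟨e, he, hee⟩ : ∃ e : ℕ, max (max n0 a1) 1 ≤ e ∧ Even e :=
    ⟨2 * max (max n0 a1) 1, by omega, even_two_mul _⟩
  have he0 : n0 ≤ e := (le_max_left _ _).trans ((le_max_left _ _).trans he)
  have he1 : a1 ≤ e := (le_max_right _ _).trans ((le_max_left _ _).trans he)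
  have he2 : 1 ≤ e := (le_max_right _ _).trans he
  have : NeZero e := ⟨by omega⟩
  obtain ⟨e2, e4, l1, l2, l4, hf4, hf2⟩ := hup e e he1 he1
  simp only [Et_eq] at l1 l2 l4
  have L := (((Metric.tendsto_nhds.1 l1 η hη0).and (Metric.tendsto_nhds.1 l2 η hη0)).and
    (Metric.tendsto_nhds.1 l4 η hη0)).and (eventually_ge_atTop β1)
  obtain ⟨β0, hβ0⟩ := eventually_atTop.1 L
  refine ⟨z, θ, c, w, s, c0 / 2, by linarith, β0, fun β hβ => ?_⟩
  obtain ⟨⟨⟨m1, m2⟩, m4⟩, hb1⟩ := hβ0 β hβ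
  rw [Real.dist_eq] at m1 m2 m4
  rw [sub_zero] at m1
  have hcr := hβ1 β hb1
  -- comparison of the theories
  obtain ⟨κ, hκ0, hκ1, hcmp⟩ := compare (μ := μ) (l := l) (TC.wE_bd (l := l) (k := k) β)
    (zc_cn β) (fun ι _ _ p ε h1 h2 h3 h4 => fourier_sum ι p ε h1 h2 h3 h4)
    (fun a b _ _ s hs => Pool.Agent.Run7.h630.R2.dc_range s hs)
  have hlim : Tendsto (fun j : ℕ => N * κ ^ j) atTop (𝓝 0) := by
    have := (tendsto_pow_atTop_nhds_zero_of_lt_one hκ0 hκ1).const_mul (N : ℝ)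
    rwa [mul_zero] at this
  obtain ⟨n2, hn2⟩ := eventually_atTop.1
    (hlim.eventually_le_const (show 0 < min (1 / 2) (η / 4) by positivity))
  refine ⟨max n0 n2, fun d _ hd hde => ?_⟩
  have hd0 : n0 ≤ d := (le_max_left _ _).trans hd
  have hd2 : n2 ≤ d * d := ((le_max_right _ _).trans hd).trans
    (Nat.le_mul_of_pos_right _ (NeZero.pos d))
  have hκ := hn2 _ hd2
  have hκa := hκ.trans (min_le_left _ _)
  have hκb := hκ.trans (min_le_right _ _)
  -- blindness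
  have hbl : ∀ (t : ZMod d) (c' : ZMod d × ZMod d → Fin 2 → ZMod N) (U : Lk d d l → SU N),
      Pool.Agent.Run7.h630.R2.Fo z θ c w s β (tr (zc N) c' U) t =
        Pool.Agent.Run7.h630.R2.Fo z θ c w s β U t := by
    intro t c' U
    rw [Fo_eq, Fo_eq]
    congr 1
    funext i y
    show zc N 0 * U _ = _
    have : zc N 0 = 1 := (zc_cn (l := l) (k := k) β).z0
    rw [this, one_mul]
  have hbm : ∀ t : ZMod d, BM fun U : Lk d d l → SU N =>
      Pool.Agent.Run7.h630.R2.Fo z θ c w s β U t := fun t =>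
    ⟨(Pool.Agent.Run7.h630.R2.Fo_cont z θ c w s β t).measurable, 1,
      fun U => Real.abs_sin_le_one _⟩
  have close1 : |XT μ (TC.wE N l k β) (fun U : Lk d d l → SU N =>
      Pool.Agent.Run7.h630.R2.Fo z θ c w s β U 0)| ≤ 3 * η := by
    have h1 := hcmp d d hκa _ 1 (hbm 0) (fun U => Real.abs_sin_le_one _)
      (fun c' U => hbl 0 c' U)
    have h2 := hn0 _ (TC.wE_bd (l := l) (k := k) β) (TC.wE_sy β) hcr (H1 z θ c w s β)
      (H1_cont z θ c w s β).measurable (fun V => Fg_le _ _ _ _ _ _ _)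
      (H1_loc z θ c w s β (le_max_left _ _) (by omega)) d d e e hd0 hd0 he0 he0 hde hde hee hee
    simp only [H1_rd] at h2
    have h3 := abs_le.1 h1
    have h4 := abs_le.1 h2
    have h5 := abs_lt.1 m1
    rw [abs_le]
    constructor <;> linarith [h3.1, h3.2, h4.1, h4.2, h5.1, h5.2]
  have close2 : ∀ (τ : ℕ) (v : ℝ), τ < 5 →
      |XE μ (TC.wE N l k β) (fun U : Lk e e l → SU N =>
        Pool.Agent.Run7.h630.R2.Fo z θ c w s β U 0 *
        Pool.Agent.Run7.h630.R2.Fo z θ c w s β U (τ : ZMod e)) - v| < η →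
      |XT μ (TC.wE N l k β) (fun U : Lk d d l → SU N =>
        Pool.Agent.Run7.h630.R2.Fo z θ c w s β U 0 *
        Pool.Agent.Run7.h630.R2.Fo z θ c w s β U (τ : ZMod d)) - v| ≤ 3 * η := by
    intro τ v hτ hv
    have h1 := hcmp d d hκa _ 1 ((hbm 0).mul (hbm (τ : ZMod d))) (fun U => by
        rw [abs_mul]
        exact mul_le_one₀ (Real.abs_sin_le_one _) (abs_nonneg _) (Real.abs_sin_le_one _))
      (fun c' U => by
        show _ * _ = _ * _
        rw [hbl, hbl])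
    have h2 := hn0 _ (TC.wE_bd (l := l) (k := k) β) (TC.wE_sy β) hcr (HH z θ c w s β τ)
      (HH_cont z θ c w s β τ).measurable (HH_le _ _ _ _ _ _ _)
      (HH_loc z θ c w s β (le_max_left _ _) (by omega)) d d e e hd0 hd0 he0 he0 hde hde hee hee
    simp only [HH_rd] at h2
    have h3 := abs_le.1 h1
    have h4 := abs_le.1 h2
    have h5 := abs_lt.1 hv
    rw [abs_le]
    constructor <;> linarith [h3.1, h3.2, h4.1, h4.2, h5.1, h5.2]
  have k2 := abs_le.1 (close2 2 e2 (by norm_num) m2)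
  have k4 := abs_le.1 (close2 4 e4 (by norm_num) m4)
  set X1 := XT μ (TC.wE N l k β) (fun U : Lk d d l → SU N =>
      Pool.Agent.Run7.h630.R2.Fo z θ c w s β U 0) with hX1
  set X2 := XT μ (TC.wE N l k β) (fun U : Lk d d l → SU N =>
        Pool.Agent.Run7.h630.R2.Fo z θ c w s β U 0 *
        Pool.Agent.Run7.h630.R2.Fo z θ c w s β U ((2 : ℕ) : ZMod d)) with hX2
  set X4 := XT μ (TC.wE N l k β) (fun U : Lk d d l → SU N =>
        Pool.Agent.Run7.h630.R2.Fo z θ c w s β U 0 *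
        Pool.Agent.Run7.h630.R2.Fo z θ c w s β U ((4 : ℕ) : ZMod d)) with hX4
  clear_value X1 X2 X4
  have hsq : X1 ^ 2 ≤ 3 * η := by
    have h1 := abs_le.1 close1
    nlinarith [h1.1, h1.2]
  have hsq0 : 0 ≤ X1 ^ 2 := sq_nonneg _
  constructor
  · linarith [k2.1]
  · have h1 : r * (X2 - X1 ^ 2) ≤ r * (e2 + 3 * η) :=
      mul_le_mul_of_nonneg_left (by linarith [k2.2]) hrp.le
    have h2 : r * (3 * η) ≤ 3 * η := by nlinarith
    have h3 : (ρ - r) * c0 ≤ (ρ - r) * e2 := mul_le_mul_of_nonneg_left hf2 (by linarith)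
    have e1 : r * (e2 + 3 * η) = r * e2 + r * (3 * η) := by ring
    have e3 : (ρ - r) * e2 = ρ * e2 - r * e2 := by ring
    rw [e1] at h1
    rw [e3] at h3
    linarith [k4.1]

end

end Pool.Agent.Run7.h871.UP
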