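import Pool.Agent.Run7.h630.R2.Up
import Pool.Agent.Run7.h871.YM.Crit

/-!
# The fibre loops as local observables
-/

open MeasureTheory Matrix Filter
open scoped Matrix.Norms.Frobenius Topology
open Pool.Agent.H906R3.YM Pool.Agent.W793.YM Pool.Agent.TH618.YM Pool.Agent.N984.TW
open Pool.Agent.Run7.h630.R2 (SU zeta TwPair)
open Pool.Agent.Run7.h871.LG (gt)

namespace Pool.Agent.Run7.h871.UP

set_option linter.unusedSectionVars false

noncomputable section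

variable {N : ℕ} [NeZero N] {a b l : ℕ} [NeZero a] [NeZero b] [NeZero l]

/-- the configuration over one point -/
def pc1 (x : ZMod l × ZMod l → SU N) : Pool.Agent.Run7.h630.R2.Lk 1 1 l → SU N := fun e => x e.1.2

/-- the fibre loops of a fibre -/
def fb (z : ℂ) (θ : ℝ) (c : ℕ) (x : ZMod l × ZMod l → SU N) : ℝ :=
  Pool.Agent.Run7.h630.R2.Xo z θ c (pc1 x) 0

lemma hp_loc (U : Pool.Agent.Run7.h630.R2.Lk a b l → SU N) (u : ZMod a × ZMod b) (q : ZMod l)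
    (j : ℕ) : Pool.Agent.Run7.h630.R2.hp U u q j =
      Pool.Agent.Run7.h630.R2.hp (pc1 fun y => U ((u, y), 2)) 0 q j := by
  induction j with
  | zero => rfl
  | succ j ih =>
    rw [Pool.Agent.Run7.h630.R2.hp, ih, Pool.Agent.Run7.h630.R2.hp]
    rfl

lemma Xo_loc (z : ℂ) (θ : ℝ) (c : ℕ) (U : Pool.Agent.Run7.h630.R2.Lk a b l → SU N)
    (u : ZMod a × ZMod b) :
    Pool.Agent.Run7.h630.R2.Xo z θ c U u = fb z θ c fun y => U ((u, y), 2) := by
  unfold fb Pool.Agent.Run7.h630.R2.Xo Pool.Agent.Run7.h630.R2.hol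
  simp only [hp_loc U u]

lemma fb_cont (z : ℂ) (θ : ℝ) (c : ℕ) :
    Continuous fun x : ZMod l × ZMod l → SU N => fb z θ c x := by
  unfold fb
  exact (Pool.Agent.Run7.h630.R2.Xo_cont z θ c 0).comp
    (continuous_pi fun e => continuous_apply _)

/-- gauge invariance of the fibre loops -/
lemma fb_gt (z : ℂ) (θ : ℝ) (c : ℕ) (g x : ZMod l × ZMod l → SU N) :
    fb z θ c (fun y => g y * x y * (g (y + (1, 0)))⁻¹) = fb z θ c x := by
  unfold fb
  rw [← Pool.Agent.Run7.h630.R2.Xo_gt z θ c (fun s => g s.2) (pc1 x) 0]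
  rw [Xo_loc, Xo_loc]
  congr 1

/-- the window observable -/
def Fg (z : ℂ) (θ : ℝ) (c w : ℕ) (s β : ℝ) (x : ℕ → ZMod l × ZMod l → SU N) : ℝ :=
  Real.sin (s * (Real.sqrt β * ((∑ i ∈ Finset.range w, fb z θ c (x i)) / Real.sqrt w)))

lemma Fo_eq (z : ℂ) (θ : ℝ) (c w : ℕ) (s β : ℝ) (U : Pool.Agent.Run7.h630.R2.Lk a b l → SU N)
    (τ : ZMod a) : Pool.Agent.Run7.h630.R2.Fo z θ c w s β U τ =
      Fg z θ c w s β fun i y => U (((τ, (i : ZMod b)), y), 2) := by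
  unfold Pool.Agent.Run7.h630.R2.Fo Pool.Agent.Run7.h630.R2.Xw Fg
  simp only [Xo_loc]

lemma Fg_cont (z : ℂ) (θ : ℝ) (c w : ℕ) (s β : ℝ) :
    Continuous fun x : ℕ → ZMod l × ZMod l → SU N => Fg z θ c w s β x := by
  unfold Fg
  refine Real.continuous_sin.comp (continuous_const.mul (continuous_const.mul
    (Continuous.div_const ?_ _)))
  exact continuous_finsetSum _ fun i _ => (fb_cont z θ c).comp (continuous_apply i)

lemma Fg_le (z : ℂ) (θ : ℝ) (c w : ℕ) (s β : ℝ) (x : ℕ → ZMod l × ZMod l → SU N) :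
    |Fg z θ c w s β x| ≤ 1 := Real.abs_sin_le_one _

lemma Fg_loc {z : ℂ} {θ : ℝ} {c w : ℕ} {s β : ℝ} {x x' : ℕ → ZMod l × ZMod l → SU N}
    (h : ∀ i < w, x i = x' i) : Fg z θ c w s β x = Fg z θ c w s β x' := by
  unfold Fg
  congr 3
  congr 1
  exact Finset.sum_congr rfl fun i hi => by rw [h i (Finset.mem_range.1 hi)]

lemma Fg_gt (z : ℂ) (θ : ℝ) (c w : ℕ) (s β : ℝ) (g x : ℕ → ZMod l × ZMod l → SU N) :
    Fg z θ c w s β (fun i y => g i y * x i y * (g i (y + (1, 0)))⁻¹) = Fg z θ c w s β x := by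
  unfold Fg
  simp only [fb_gt]

/-- the exponent `c` -/
lemma exists_c {k : ℕ} (hN : 2 ≤ N) (hk : Nat.Coprime k N) : ∃ c : ℕ, (zeta N ^ k) ^ c = zeta N := by
  have h1 : zeta N ^ N = 1 := Pool.Agent.Run7.h630.R2.zeta_pow N
  obtain ⟨c, hc⟩ := Nat.exists_mul_mod_eq_one_of_coprime hk (by omega)
  refine ⟨c, ?_⟩
  rw [← pow_mul, pow_eq_pow_mod _ h1]
  rw [hc.2, pow_one]

end

end Pool.Agent.Run7.h871.UP
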